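import Mathlib

set_option autoImplicit false

namespace Pool.Agent.Lib.MP3080d1

open Complex ComplexConjugate

/-- a regular real-analytic simple closed curve of period `T`. -/
structure Crv (c : ℝ → ℂ) (T : ℝ) : Prop where
  hT : 0 < T
  an : ∀ s, AnalyticAt ℝ c s
  per : ∀ s, c (s + T) = c s
  reg : ∀ s, deriv c s ≠ 0
  inj : ∀ s t, c s = c t → ∃ m : ℤ, t = s + m * T

noncomputable section

/-- distance to `z`. -/
def rho (c : ℝ → ℂ) (z : ℂ) (s : ℝ) : ℝ := ‖c s - z‖

/-- unit vector from `z` to `c s`. -/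
def uu (c : ℝ → ℂ) (z : ℂ) (s : ℝ) : ℂ := (c s - z) / (rho c z s : ℂ)

/-- direction of the ray from `z` after reflection at `c s`. -/
def ee (c : ℝ → ℂ) (z : ℂ) (s : ℝ) : ℂ := (deriv c s / conj (deriv c s)) * conj (uu c z s)

/-- `conj c' * u`. -/
def bb (c : ℝ → ℂ) (z : ℂ) (s : ℝ) : ℂ := conj (deriv c s) * uu c z s

/-- tangential component. -/
def chi (c : ℝ → ℂ) (z : ℂ) (s : ℝ) : ℝ := (bb c z s).re

/-- normal component. -/
def nn (c : ℝ → ℂ) (z : ℂ) (s : ℝ) : ℝ := (bb c z s).im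

/-- logarithmic derivative of the velocity. -/
def qq (c : ℝ → ℂ) (s : ℝ) : ℂ := deriv (deriv c) s / deriv c s

/-- angular speed of the reflected ray. -/
def om (c : ℝ → ℂ) (z : ℂ) (s : ℝ) : ℝ := 2 * (qq c s).im + nn c z s / rho c z s

/-- moment of the reflected ray. -/
def mu (c : ℝ → ℂ) (z : ℂ) (s : ℝ) : ℝ := (conj (ee c z s) * c s).im

end

section Analytic

variable {c : ℝ → ℂ} {T : ℝ}

theorem analyticAt_conj_comp {f : ℝ → ℂ} {s : ℝ} (hf : AnalyticAt ℝ f s) :
    AnalyticAt ℝ (fun s => conj (f s)) s :=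
  (Complex.conjCLE.toContinuousLinearMap.analyticAt (f s)).comp hf

theorem analyticAt_re_comp {f : ℝ → ℂ} {s : ℝ} (hf : AnalyticAt ℝ f s) :
    AnalyticAt ℝ (fun s => (f s).re) s :=
  (Complex.reCLM.analyticAt (f s)).comp hf

theorem analyticAt_im_comp {f : ℝ → ℂ} {s : ℝ} (hf : AnalyticAt ℝ f s) :
    AnalyticAt ℝ (fun s => (f s).im) s :=
  (Complex.imCLM.analyticAt (f s)).comp hf

theorem analyticAt_ofReal_comp {f : ℝ → ℝ} {s : ℝ} (hf : AnalyticAt ℝ f s) :
    AnalyticAt ℝ (fun s => ((f s : ℝ) : ℂ)) s :=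
  (Complex.ofRealCLM.analyticAt (f s)).comp hf

theorem analyticAt_norm_comp {f : ℝ → ℂ} {s : ℝ} (hf : AnalyticAt ℝ f s) (h0 : f s ≠ 0) :
    AnalyticAt ℝ (fun s => ‖f s‖) s := by
  have h1 : ContDiffAt ℝ ⊤ (fun z : ℂ => ‖z‖) (f s) := contDiffAt_norm ℝ h0
  exact AnalyticAt.comp (g := fun z : ℂ => ‖z‖) h1.analyticAt hf

theorem Crv.rho_pos (_ : Crv c T) {z : ℂ} (hz : z ∉ Set.range c) (s : ℝ) : 0 < rho c z s := by
  unfold rho
  rw [norm_pos_iff, sub_ne_zero]
  intro h
  exact hz ⟨s, h⟩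

theorem Crv.an_deriv (hc : Crv c T) (s : ℝ) : AnalyticAt ℝ (deriv c) s := (hc.an s).deriv

theorem Crv.an_rho (hc : Crv c T) {z : ℂ} (hz : z ∉ Set.range c) (s : ℝ) :
    AnalyticAt ℝ (rho c z) s := by
  refine analyticAt_norm_comp ((hc.an s).sub analyticAt_const) ?_
  rw [sub_ne_zero]
  intro h
  exact hz ⟨s, h⟩

theorem Crv.an_uu (hc : Crv c T) {z : ℂ} (hz : z ∉ Set.range c) (s : ℝ) :
    AnalyticAt ℝ (uu c z) s := by
  refine ((hc.an s).sub analyticAt_const).div (analyticAt_ofReal_comp (hc.an_rho hz s)) ?_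
  exact_mod_cast (hc.rho_pos hz s).ne'

theorem Crv.conj_deriv_ne (hc : Crv c T) (s : ℝ) : conj (deriv c s) ≠ 0 := by
  rw [Ne, map_eq_zero]
  exact hc.reg s

theorem Crv.an_ee (hc : Crv c T) {z : ℂ} (hz : z ∉ Set.range c) (s : ℝ) :
    AnalyticAt ℝ (ee c z) s :=
  ((hc.an_deriv s).div (analyticAt_conj_comp (hc.an_deriv s)) (hc.conj_deriv_ne s)).mul
    (analyticAt_conj_comp (hc.an_uu hz s))

theorem Crv.an_bb (hc : Crv c T) {z : ℂ} (hz : z ∉ Set.range c) (s : ℝ) :
    AnalyticAt ℝ (bb c z) s :=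
  (analyticAt_conj_comp (hc.an_deriv s)).mul (hc.an_uu hz s)

theorem Crv.an_chi (hc : Crv c T) {z : ℂ} (hz : z ∉ Set.range c) (s : ℝ) :
    AnalyticAt ℝ (chi c z) s := analyticAt_re_comp (hc.an_bb hz s)

theorem Crv.an_nn (hc : Crv c T) {z : ℂ} (hz : z ∉ Set.range c) (s : ℝ) :
    AnalyticAt ℝ (nn c z) s := analyticAt_im_comp (hc.an_bb hz s)

theorem Crv.an_qq (hc : Crv c T) (s : ℝ) : AnalyticAt ℝ (qq c) s :=
  ((hc.an_deriv s).deriv).div (hc.an_deriv s) (hc.reg s)

theorem Crv.an_om (hc : Crv c T) {z : ℂ} (hz : z ∉ Set.range c) (s : ℝ) :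
    AnalyticAt ℝ (om c z) s :=
  (analyticAt_const.mul (analyticAt_im_comp (hc.an_qq s))).add
    ((hc.an_nn hz s).div (hc.an_rho hz s) (hc.rho_pos hz s).ne')

theorem Crv.an_mu (hc : Crv c T) {z : ℂ} (hz : z ∉ Set.range c) (s : ℝ) :
    AnalyticAt ℝ (mu c z) s :=
  analyticAt_im_comp ((analyticAt_conj_comp (hc.an_ee hz s)).mul (hc.an s))

end Analytic

section Alg

variable {c : ℝ → ℂ} {T : ℝ}

theorem Crv.norm_uu (hc : Crv c T) {z : ℂ} (hz : z ∉ Set.range c) (s : ℝ) : ‖uu c z s‖ = 1 := by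
  unfold uu
  rw [norm_div, Complex.norm_real, Real.norm_of_nonneg (hc.rho_pos hz s).le]
  exact div_self (hc.rho_pos hz s).ne'

theorem Crv.norm_ee (hc : Crv c T) {z : ℂ} (hz : z ∉ Set.range c) (s : ℝ) : ‖ee c z s‖ = 1 := by
  unfold ee
  rw [norm_mul, norm_div, Complex.norm_conj, Complex.norm_conj, hc.norm_uu hz,
    div_self (norm_ne_zero_iff.mpr (hc.reg s)), one_mul]

theorem Crv.conj_mul_self_ee (hc : Crv c T) {z : ℂ} (hz : z ∉ Set.range c) (s : ℝ) :
    conj (ee c z s) * ee c z s = 1 := by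
  rw [← Complex.normSq_eq_conj_mul_self, Complex.normSq_eq_norm_sq, hc.norm_ee hz]
  norm_num

theorem Crv.conj_mul_self_uu (hc : Crv c T) {z : ℂ} (hz : z ∉ Set.range c) (s : ℝ) :
    conj (uu c z s) * uu c z s = 1 := by
  rw [← Complex.normSq_eq_conj_mul_self, Complex.normSq_eq_norm_sq, hc.norm_uu hz]
  norm_num

/-- `conj e * c' = conj c' * u`. -/
theorem Crv.conj_ee_mul (hc : Crv c T) (z : ℂ) (s : ℝ) :
    conj (ee c z s) * deriv c s = bb c z s := by
  unfold ee bb
  have h := hc.conj_deriv_ne s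
  have h' := hc.reg s
  rw [map_mul, map_div₀, Complex.conj_conj, Complex.conj_conj]
  field_simp

theorem Crv.norm_bb (hc : Crv c T) {z : ℂ} (hz : z ∉ Set.range c) (s : ℝ) :
    ‖bb c z s‖ = ‖deriv c s‖ := by
  unfold bb
  rw [norm_mul, Complex.norm_conj, hc.norm_uu hz, mul_one]

/-- position: `c s = z + rho * u`. -/
theorem Crv.eq_add (hc : Crv c T) {z : ℂ} (hz : z ∉ Set.range c) (s : ℝ) :
    c s = z + rho c z s * uu c z s := by
  unfold uu
  have h : ((rho c z s : ℝ) : ℂ) ≠ 0 := by exact_mod_cast (hc.rho_pos hz s).ne'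
  field_simp
  ring

end Alg

section Derivs

variable {c : ℝ → ℂ} {T : ℝ}

theorem Crv.hd (hc : Crv c T) (s : ℝ) : HasDerivAt c (deriv c s) s :=
  (hc.an s).differentiableAt.hasDerivAt

theorem Crv.hd2 (hc : Crv c T) (s : ℝ) : HasDerivAt (deriv c) (qq c s * deriv c s) s := by
  have h := (hc.an_deriv s).differentiableAt.hasDerivAt
  have e : qq c s * deriv c s = deriv (deriv c) s := by
    unfold qq; rw [div_mul_cancel₀ _ (hc.reg s)]
  rwa [e]

theorem Crv.hd_rho (hc : Crv c T) {z : ℂ} (hz : z ∉ Set.range c) (s : ℝ) :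
    HasDerivAt (rho c z) (chi c z s) s := by
  have h0 : c s - z ≠ 0 := by
    rw [sub_ne_zero]; intro h; exact hz ⟨s, h⟩
  have h1 : HasDerivAt (fun s => c s - z) (deriv c s) s := (hc.hd s).sub_const z
  have h2 := h1.norm_sq
  have h3 := h2.sqrt (by positivity)
  have e1 : (fun s => √(‖c s - z‖ ^ 2)) = rho c z := by
    funext s
    rw [Real.sqrt_sq (norm_nonneg _)]; rfl
  have e2 : 2 * inner ℝ (c s - z) (deriv c s) / (2 * √(‖c s - z‖ ^ 2)) = chi c z s := by
    rw [Real.sqrt_sq (norm_nonneg _), Complex.inner]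
    have hr : ‖c s - z‖ ≠ 0 := norm_ne_zero_iff.mpr h0
    unfold chi bb uu rho
    have : conj (deriv c s) * ((c s - z) / (‖c s - z‖ : ℂ)) =
        (conj (deriv c s) * (c s - z)) / (‖c s - z‖ : ℂ) := by ring
    rw [this, Complex.div_ofReal_re]
    have e3 : (conj (deriv c s) * (c s - z)).re = (deriv c s * conj (c s - z)).re := by
      simp only [Complex.mul_re, Complex.conj_re, Complex.conj_im]; ring
    rw [e3]
    field_simp
  rw [e1, e2] at h3
  exact h3

theorem Crv.hd_uu (hc : Crv c T) {z : ℂ} (hz : z ∉ Set.range c) (s : ℝ) :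
    HasDerivAt (uu c z) (-(I * (nn c z s / rho c z s : ℝ)) * uu c z s) s := by
  have hr : ((rho c z s : ℝ) : ℂ) ≠ 0 := by exact_mod_cast (hc.rho_pos hz s).ne'
  have h1 : HasDerivAt (fun s => c s - z) (deriv c s) s := (hc.hd s).sub_const z
  have h2 : HasDerivAt (fun s => ((rho c z s : ℝ) : ℂ)) ((chi c z s : ℝ) : ℂ) s :=
    (hc.hd_rho hz s).ofReal_comp
  have h3 := h1.div h2 hr
  have e : (deriv c s * (rho c z s : ℂ) - (c s - z) * (chi c z s : ℂ)) / (rho c z s : ℂ) ^ 2 =
      -(I * (nn c z s / rho c z s : ℝ)) * uu c z s := by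
    have hb : conj (deriv c s) * uu c z s = (chi c z s : ℂ) + I * (nn c z s : ℂ) := by
      have : bb c z s = (chi c z s : ℂ) + (nn c z s : ℂ) * I := (Complex.re_add_im _).symm
      rw [mul_comm I]
      exact this
    have hb2 : deriv c s = ((chi c z s : ℂ) - I * (nn c z s : ℂ)) * uu c z s := by
      have h4 := congrArg conj hb
      rw [map_mul, Complex.conj_conj, map_add, map_mul, Complex.conj_I, Complex.conj_ofReal,
        Complex.conj_ofReal] at h4
      have h5 := hc.conj_mul_self_uu hz s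
      calc deriv c s = deriv c s * (conj (uu c z s) * uu c z s) := by rw [h5, mul_one]
        _ = (deriv c s * conj (uu c z s)) * uu c z s := by ring
        _ = _ := by rw [h4]; ring
    have hb3 : c s - z = (rho c z s : ℂ) * uu c z s := by
      rw [hc.eq_add hz s]; ring_nf
    rw [hb3]
    nth_rewrite 1 [hb2]
    push_cast
    field_simp
    ring
  rw [← e]
  exact h3

theorem Crv.hd_conj_uu (hc : Crv c T) {z : ℂ} (hz : z ∉ Set.range c) (s : ℝ) :
    HasDerivAt (fun s => conj (uu c z s))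
      ((I * (nn c z s / rho c z s : ℝ)) * conj (uu c z s)) s := by
  have h := (hc.hd_uu hz s).star
  have e : star (-(I * (nn c z s / rho c z s : ℝ)) * uu c z s) =
      (I * (nn c z s / rho c z s : ℝ)) * conj (uu c z s) := by
    rw [← starRingEnd_apply, map_mul, map_neg, map_mul, Complex.conj_I, Complex.conj_ofReal]
    ring
  rw [e] at h
  exact h

theorem Crv.hd_conj_deriv (hc : Crv c T) (s : ℝ) :
    HasDerivAt (fun s => conj (deriv c s)) (conj (qq c s) * conj (deriv c s)) s := by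
  have h := (hc.hd2 s).star
  rw [← starRingEnd_apply, map_mul] at h
  exact h

theorem Crv.hd_ee (hc : Crv c T) {z : ℂ} (hz : z ∉ Set.range c) (s : ℝ) :
    HasDerivAt (ee c z) (I * (om c z s : ℝ) * ee c z s) s := by
  have h1 := ((hc.hd2 s).div (hc.hd_conj_deriv s) (hc.conj_deriv_ne s)).mul (hc.hd_conj_uu hz s)
  refine h1.congr_deriv ?_
  have hn := hc.conj_deriv_ne s
  have hq : qq c s - conj (qq c s) = 2 * I * ((qq c s).im : ℂ) := by
    rw [Complex.sub_conj]; push_cast; ring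
  have e1 : (qq c s * deriv c s * conj (deriv c s) -
      deriv c s * (conj (qq c s) * conj (deriv c s))) / conj (deriv c s) ^ 2 * conj (uu c z s) +
      deriv c s / conj (deriv c s) * (I * (nn c z s / rho c z s : ℝ) * conj (uu c z s)) =
      (deriv c s / conj (deriv c s) * conj (uu c z s)) *
        ((qq c s - conj (qq c s)) + I * (nn c z s / rho c z s : ℝ)) := by
    field_simp
  refine e1.trans ?_
  rw [hq]
  unfold ee om
  push_cast
  ring

theorem Crv.hd_bb (hc : Crv c T) {z : ℂ} (hz : z ∉ Set.range c) (s : ℝ) :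
    HasDerivAt (bb c z) ((qq c s - I * (om c z s : ℝ)) * bb c z s) s := by
  have h1 := (hc.hd_conj_deriv s).mul (hc.hd_uu hz s)
  refine h1.congr_deriv ?_
  have hq : conj (qq c s) = qq c s - 2 * I * ((qq c s).im : ℂ) := by
    have : qq c s - conj (qq c s) = 2 * I * ((qq c s).im : ℂ) := by
      rw [Complex.sub_conj]; push_cast; ring
    rw [← this]; ring
  rw [hq]
  unfold bb om
  push_cast
  ring

theorem Crv.hd_chi (hc : Crv c T) {z : ℂ} (hz : z ∉ Set.range c) (s : ℝ) :
    HasDerivAt (chi c z) ((qq c s).re * chi c z s - ((qq c s).im - om c z s) * nn c z s) s := by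
  have h := (Complex.reCLM.hasFDerivAt (x := bb c z s)).comp_hasDerivAt s (hc.hd_bb hz s)
  refine h.congr_deriv ?_
  simp only [Complex.reCLM_apply, Complex.mul_re, Complex.sub_re, Complex.sub_im, Complex.mul_im,
    Complex.I_re, Complex.I_im, Complex.ofReal_re, Complex.ofReal_im, chi, nn]
  ring

theorem Crv.hd_nn (hc : Crv c T) {z : ℂ} (hz : z ∉ Set.range c) (s : ℝ) :
    HasDerivAt (nn c z) ((qq c s).re * nn c z s + ((qq c s).im - om c z s) * chi c z s) s := by
  have h := (Complex.imCLM.hasFDerivAt (x := bb c z s)).comp_hasDerivAt s (hc.hd_bb hz s)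
  refine h.congr_deriv ?_
  simp only [Complex.imCLM_apply, Complex.mul_im, Complex.sub_re, Complex.sub_im, Complex.mul_re,
    Complex.I_re, Complex.I_im, Complex.ofReal_re, Complex.ofReal_im, chi, nn]
  ring

theorem Crv.hd_mu (hc : Crv c T) {z : ℂ} (hz : z ∉ Set.range c) (s : ℝ) :
    HasDerivAt (mu c z) (nn c z s - om c z s * (conj (ee c z s) * c s).re) s := by
  have h1 := (hc.hd_ee hz s).star
  have h2 := h1.mul (hc.hd s)
  have h := (Complex.imCLM.hasFDerivAt (x := conj (ee c z s) * c s)).comp_hasDerivAt s h2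
  refine h.congr_deriv ?_
  rw [← starRingEnd_apply, ← starRingEnd_apply, map_mul, map_mul, Complex.conj_I,
    Complex.conj_ofReal, hc.conj_ee_mul]
  simp only [Complex.imCLM_apply, Complex.add_im, Complex.mul_im, Complex.mul_re,
    Complex.neg_re, Complex.neg_im,
    Complex.I_re, Complex.I_im, Complex.ofReal_re, Complex.ofReal_im, nn]
  ring

end Derivs

section Periodic

variable {c : ℝ → ℂ} {T : ℝ}

theorem Crv.pc (hc : Crv c T) : Function.Periodic c T := hc.per

theorem Crv.pd (hc : Crv c T) : Function.Periodic (deriv c) T := by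
  intro s
  have h : (fun s => c (s + T)) = c := funext hc.per
  rw [← deriv_comp_add_const, h]

theorem Crv.pq (hc : Crv c T) : Function.Periodic (qq c) T := by
  intro s
  have h : (fun s => deriv c (s + T)) = deriv c := funext hc.pd
  unfold qq
  rw [← deriv_comp_add_const, h, hc.pd s]

theorem Crv.prho (hc : Crv c T) (z : ℂ) : Function.Periodic (rho c z) T := by
  intro s; unfold rho; rw [hc.pc s]

theorem Crv.pu (hc : Crv c T) (z : ℂ) : Function.Periodic (uu c z) T := by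
  intro s; unfold uu; rw [hc.pc s, hc.prho z s]

theorem Crv.pe (hc : Crv c T) (z : ℂ) : Function.Periodic (ee c z) T := by
  intro s; unfold ee; rw [hc.pd s, hc.pu z s]

theorem Crv.pb (hc : Crv c T) (z : ℂ) : Function.Periodic (bb c z) T := by
  intro s; unfold bb; rw [hc.pd s, hc.pu z s]

theorem Crv.pn (hc : Crv c T) (z : ℂ) : Function.Periodic (nn c z) T := by
  intro s; unfold nn; rw [hc.pb z s]

theorem Crv.pchi (hc : Crv c T) (z : ℂ) : Function.Periodic (chi c z) T := by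
  intro s; unfold chi; rw [hc.pb z s]

theorem Crv.pom (hc : Crv c T) (z : ℂ) : Function.Periodic (om c z) T := by
  intro s; unfold om; rw [hc.pq s, hc.pn z s, hc.prho z s]

theorem Crv.pmu (hc : Crv c T) (z : ℂ) : Function.Periodic (mu c z) T := by
  intro s; unfold mu; rw [hc.pe z s, hc.pc s]

end Periodic

end Pool.Agent.Lib.MP3080d1
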