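import Mathlib

set_option autoImplicit false

namespace Pool.Agent.Lib.MP3080d1

open Filter Topology

/-- Analytic branch: two analytic curves which meet along an accumulating set of parameters near a
point where the second one is regular coincide up to an analytic change of parameter. -/
theorem analytic_branch {E : Type*} [NormedAddCommGroup E] [NormedSpace ℝ E]
    {α β : ℝ → E} {s₀ t₀ : ℝ} (hα : AnalyticAt ℝ α s₀) (hβ : AnalyticAt ℝ β t₀)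
    (hβ' : deriv β t₀ ≠ 0) (h0 : α s₀ = β t₀)
    (hfreq : ∃ᶠ p : ℝ × ℝ in 𝓝 (s₀, t₀), p.1 ≠ s₀ ∧ α p.1 = β p.2) :
    ∃ θ : ℝ → ℝ, AnalyticAt ℝ θ s₀ ∧ θ s₀ = t₀ ∧ (∀ᶠ s in 𝓝 s₀, α s = β (θ s)) ∧
      (∀ᶠ p : ℝ × ℝ in 𝓝 (s₀, t₀), α p.1 = β p.2 → p.2 = θ p.1) := by
  obtain ⟨ℓ, -, hℓ⟩ := exists_dual_vector ℝ (deriv β t₀) (norm_ne_zero_iff.mpr hβ')
  have hℓ0 : ℓ (deriv β t₀) ≠ 0 := by
    rw [hℓ]
    simpa using hβ'
  have hg : AnalyticAt ℝ (fun t => ℓ (β t)) t₀ := (ℓ.analyticAt (β t₀)).comp hβ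
  have hgd : HasDerivAt (fun t => ℓ (β t)) (ℓ (deriv β t₀)) t₀ :=
    (ℓ.hasFDerivAt (x := β t₀)).comp_hasDerivAt t₀ hβ.differentiableAt.hasDerivAt
  have hg' : deriv (fun t => ℓ (β t)) t₀ ≠ 0 := by
    rw [hgd.deriv]; exact hℓ0
  let inv := hg.hasStrictDerivAt.localInverse _ _ _ hg'
  have hinv : AnalyticAt ℝ inv (ℓ (β t₀)) := hg.analyticAt_localInverse hg'
  have hinv0 : inv (ℓ (β t₀)) = t₀ := HasStrictFDerivAt.localInverse_apply_image ..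
  have hleft : ∀ᶠ t in 𝓝 t₀, inv (ℓ (β t)) = t :=
    HasStrictFDerivAt.eventually_left_inverse (hg.hasStrictDerivAt.hasStrictFDerivAt_equiv hg')
  have hα2 : AnalyticAt ℝ (fun s => ℓ (α s)) s₀ := (ℓ.analyticAt (α s₀)).comp hα
  have hθ : AnalyticAt ℝ (fun s => inv (ℓ (α s))) s₀ := by
    have h1 : AnalyticAt ℝ inv (ℓ (α s₀)) := by rw [h0]; exact hinv
    exact AnalyticAt.comp (g := inv) (f := fun s => ℓ (α s)) h1 hα2
  have hθ0 : (fun s => inv (ℓ (α s))) s₀ = t₀ := by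
    simp only [h0, hinv0]
  have huniq : ∀ᶠ p : ℝ × ℝ in 𝓝 (s₀, t₀), α p.1 = β p.2 → p.2 = inv (ℓ (α p.1)) := by
    have h2 : ∀ᶠ p : ℝ × ℝ in 𝓝 (s₀, t₀), inv (ℓ (β p.2)) = p.2 :=
      (continuous_snd.tendsto' (s₀, t₀) t₀ rfl).eventually hleft
    filter_upwards [h2] with p hp hpe
    rw [hpe, hp]
  refine ⟨fun s => inv (ℓ (α s)), hθ, hθ0, ?_, huniq⟩
  have hβθ : AnalyticAt ℝ (fun s => β (inv (ℓ (α s)))) s₀ := by
    have h1 : AnalyticAt ℝ β ((fun s => inv (ℓ (α s))) s₀) := by rw [hθ0]; exact hβ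
    exact AnalyticAt.comp (g := β) (f := fun s => inv (ℓ (α s))) h1 hθ
  rw [← hα.frequently_eq_iff_eventually_eq hβθ]
  have h3 : ∃ᶠ p : ℝ × ℝ in 𝓝 (s₀, t₀), p.1 ≠ s₀ ∧ α p.1 = β (inv (ℓ (α p.1))) := by
    refine (hfreq.and_eventually huniq).mono ?_
    rintro p ⟨⟨hp1, hp2⟩, hp3⟩
    refine ⟨hp1, ?_⟩
    rw [← hp3 hp2]
    exact hp2
  have h4 : ∃ᶠ s in 𝓝 s₀, s ≠ s₀ ∧ α s = β (inv (ℓ (α s))) :=
    (continuous_fst.tendsto' (s₀, t₀) s₀ rfl).frequently h3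
  rw [frequently_nhdsWithin_iff]
  exact h4.mono fun s hs => ⟨hs.2, hs.1⟩

end Pool.Agent.Lib.MP3080d1
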