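import Pool.Agent.Lib.MP_3080d1_gt.Basic
import Pool.Agent.Lib.MP_3080d1_gt.Tools

set_option autoImplicit false

namespace Pool.Agent.Lib.MP3080d1

open Complex ComplexConjugate Filter Topology

/-- The line reflected at `c s` from `x` is the line which, reflected at `c t`, goes to `y`. -/
def Rel (c : ℝ → ℂ) (x y : ℂ) (s t : ℝ) : Prop :=
  ee c x s = - ee c y t ∧ mu c x s = - mu c y t

/-- signed distance from `c s` to `c t` along the reflected ray. -/
noncomputable def lam (c : ℝ → ℂ) (x : ℂ) (s t : ℝ) : ℝ := (conj (ee c x s) * (c t - c s)).re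

/-- signed length of the unfolded path. -/
noncomputable def Lam (c : ℝ → ℂ) (x y : ℂ) (s t : ℝ) : ℝ := rho c x s + lam c x s t + rho c y t

section Basics

variable {c : ℝ → ℂ} {T : ℝ} {x y : ℂ} {s t : ℝ}

theorem Rel.symm (h : Rel c x y s t) : Rel c y x t s := by
  obtain ⟨h1, h2⟩ := h
  exact ⟨by rw [h1, neg_neg], by rw [h2, neg_neg]⟩

theorem Crv.rel_sub (hc : Crv c T) (hx : x ∉ Set.range c) (h : Rel c x y s t) :
    c t - c s = (lam c x s t : ℂ) * ee c x s := by
  obtain ⟨h1, h2⟩ := h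
  have h3 : (conj (ee c x s) * (c t - c s)).im = 0 := by
    have e1 : (conj (ee c x s) * c s).im = mu c x s := rfl
    have e2 : (conj (ee c y t) * c t).im = mu c y t := rfl
    have h4 : (conj (ee c x s) * c t).im = - mu c y t := by
      rw [h1, map_neg, neg_mul, Complex.neg_im, e2]
    rw [mul_sub, Complex.sub_im, h4, e1, h2, sub_self]
  have h5 : conj (ee c x s) * (c t - c s) = (lam c x s t : ℂ) := by
    apply Complex.ext
    · rfl
    · rw [h3, Complex.ofReal_im]
  calc c t - c s = (conj (ee c x s) * ee c x s) * (c t - c s) := by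
        rw [hc.conj_mul_self_ee hx, one_mul]
    _ = (conj (ee c x s) * (c t - c s)) * ee c x s := by ring
    _ = _ := by rw [h5]

theorem Rel.lam_symm (h : Rel c x y s t) : lam c x s t = lam c y t s := by
  unfold lam
  rw [h.1, map_neg]
  congr 1
  ring

theorem Rel.Lam_symm (h : Rel c x y s t) : Lam c x y s t = Lam c y x t s := by
  unfold Lam
  rw [h.lam_symm]
  ring

/-- derivative identities along a branch of the relation. -/
theorem Crv.branch_deriv (hc : Crv c T) (hx : x ∉ Set.range c) (hy : y ∉ Set.range c)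
    {θ : ℝ → ℝ} {θ' : ℝ} (hθ : HasDerivAt θ θ' s)
    (hrel : ∀ᶠ s' in 𝓝 s, Rel c x y s' (θ s')) :
    om c x s = θ' * om c y (θ s) ∧
      nn c x s + θ' * nn c y (θ s) + lam c x s (θ s) * om c x s = 0 := by
  have hr := hrel.self_of_nhds
  have h1 : HasDerivAt (fun s => -ee c y (θ s)) (-((θ' : ℂ) * (I * (om c y (θ s) : ℝ) * ee c y (θ s)))) s := by
    have h := ((hc.hd_ee hy (θ s)).scomp s hθ).fun_neg
    refine HasDerivAt.congr_deriv h ?_
    rw [Complex.real_smul]
  have h2 : (fun s => -ee c y (θ s)) =ᶠ[𝓝 s] ee c x := hrel.mono (fun s' h => h.1.symm)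
  have h3 := (hc.hd_ee hx s).unique (h1.congr_of_eventuallyEq h2.symm)
  have he : ee c x s ≠ 0 := by
    intro h0
    have := hc.norm_ee hx s
    rw [h0, norm_zero] at this
    exact zero_ne_one this
  have e1 : om c x s = θ' * om c y (θ s) := by
    have h4 : (I * ee c x s) * ((om c x s : ℂ) - (θ' : ℂ) * (om c y (θ s) : ℂ)) = 0 := by
      have h5 : ee c y (θ s) = - ee c x s := by rw [hr.1, neg_neg]
      rw [h5] at h3
      linear_combination h3
    rcases mul_eq_zero.mp h4 with h | h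
    · exact absurd h (mul_ne_zero I_ne_zero he)
    · have := sub_eq_zero.mp h
      exact_mod_cast this
  refine ⟨e1, ?_⟩
  have h5 : HasDerivAt (fun s => - mu c y (θ s))
      (-((nn c y (θ s) - om c y (θ s) * (conj (ee c y (θ s)) * c (θ s)).re) * θ')) s :=
    ((hc.hd_mu hy (θ s)).comp s hθ).neg
  have h6 : (fun s => - mu c y (θ s)) =ᶠ[𝓝 s] mu c x := hrel.mono (fun s' h => h.2.symm)
  have h7 := (hc.hd_mu hx s).unique (h5.congr_of_eventuallyEq h6.symm)
  have h8 : (conj (ee c y (θ s)) * c (θ s)).re = -(conj (ee c x s) * c (θ s)).re := by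
    rw [hr.1, map_neg, neg_mul, Complex.neg_re, neg_neg]
  have h9 : lam c x s (θ s) = (conj (ee c x s) * c (θ s)).re - (conj (ee c x s) * c s).re := by
    unfold lam
    rw [mul_sub, Complex.sub_re]
  rw [h8] at h7
  rw [h9]
  have h10 : θ' * om c y (θ s) = om c x s := e1.symm
  linear_combination h7 - (conj (ee c x s) * c (θ s)).re * h10

theorem Crv.hd_lam (hc : Crv c T) (hx : x ∉ Set.range c)
    {θ : ℝ → ℝ} {θ' : ℝ} (hθ : HasDerivAt θ θ' s) (hr : Rel c x y s (θ s)) :
    HasDerivAt (fun s => lam c x s (θ s)) (-θ' * chi c y (θ s) - chi c x s) s := by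
  have h1 := (hc.hd_ee hx s).star
  have h2 := ((hc.hd (θ s)).scomp s hθ).sub (hc.hd s)
  have h := (Complex.reCLM.hasFDerivAt (x := conj (ee c x s) * (c (θ s) - c s))).comp_hasDerivAt s
    (h1.mul h2)
  refine h.congr_deriv ?_
  have e1 : c (θ s) - c s = (lam c x s (θ s) : ℂ) * ee c x s := hc.rel_sub hx hr
  have e2 := hc.conj_mul_self_ee hx s
  have e3 : conj (ee c x s) * deriv c (θ s) = - bb c y (θ s) := by
    rw [hr.1, map_neg, neg_mul, hc.conj_ee_mul]
  have e4 : conj (ee c x s) * deriv c s = bb c x s := hc.conj_ee_mul x s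
  rw [← starRingEnd_apply, ← starRingEnd_apply, map_mul, map_mul, Complex.conj_I,
    Complex.conj_ofReal]
  have e5 : -I * (om c x s : ℂ) * conj (ee c x s) * ((c ∘ θ) s - c s) +
      conj (ee c x s) * (θ' • deriv c (θ s) - deriv c s) =
      -I * (om c x s : ℂ) * (lam c x s (θ s) : ℂ) - θ' * bb c y (θ s) - bb c x s := by
    rw [Function.comp_apply, e1, Complex.real_smul]
    linear_combination (-I * (om c x s : ℂ) * (lam c x s (θ s) : ℂ)) * e2 + θ' * e3 - e4
  have e6 : Complex.reCLM (-I * (om c x s : ℂ) * conj (ee c x s) * ((c ∘ θ) s - c s) +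
      conj (ee c x s) * (θ' • deriv c (θ s) - deriv c s)) =
      -θ' * chi c y (θ s) - chi c x s := by
    rw [e5]
    simp only [Complex.reCLM_apply, Complex.sub_re, Complex.mul_re, Complex.mul_im, Complex.neg_re,
      Complex.neg_im, Complex.I_re, Complex.I_im, Complex.ofReal_re, Complex.ofReal_im, chi]
    ring
  exact e6

theorem Crv.hd_Lam (hc : Crv c T) (hx : x ∉ Set.range c) (hy : y ∉ Set.range c)
    {θ : ℝ → ℝ} {θ' : ℝ} (hθ : HasDerivAt θ θ' s) (hr : Rel c x y s (θ s)) :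
    HasDerivAt (fun s => Lam c x y s (θ s)) 0 s := by
  have h := ((hc.hd_rho hx s).add (hc.hd_lam hx hθ hr)).add ((hc.hd_rho hy (θ s)).comp s hθ)
  refine h.congr_deriv ?_
  ring

end Basics

section Nonconst

variable {c : ℝ → ℂ} {T : ℝ} {z : ℂ}

theorem Crv.bb_ne (hc : Crv c T) (hz : z ∉ Set.range c) (s : ℝ) : bb c z s ≠ 0 := by
  rw [← norm_ne_zero_iff, hc.norm_bb hz, norm_ne_zero_iff]
  exact hc.reg s

theorem Crv.chi_ne_of_nn (hc : Crv c T) (hz : z ∉ Set.range c) {s : ℝ} (h : nn c z s = 0) :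
    chi c z s ≠ 0 := by
  intro h2
  apply hc.bb_ne hz s
  apply Complex.ext
  · exact h2
  · exact h

theorem Crv.nn_not_zero (hc : Crv c T) (hz : z ∉ Set.range c) (s₀ : ℝ) :
    ¬ ∀ᶠ s in 𝓝 s₀, nn c z s = 0 := by
  intro h
  have h1 : AnalyticOnNhd ℝ (nn c z) Set.univ := fun s _ => hc.an_nn hz s
  have h2 := h1.eqOn_zero_of_preconnected_of_eventuallyEq_zero isPreconnected_univ
    (Set.mem_univ s₀) h
  have h3 : rho c z 0 = rho c z T := by
    have := hc.prho z 0
    rw [zero_add] at this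
    exact this.symm
  obtain ⟨s, -, hs⟩ := exists_hasDerivAt_eq_zero (f := rho c z) (f' := chi c z) hc.hT
    (fun s _ => (hc.hd_rho hz s).continuousAt.continuousWithinAt) h3
    (fun s _ => hc.hd_rho hz s)
  exact hc.chi_ne_of_nn hz (h2 (Set.mem_univ s)) hs

/-- a line of the reflected family is attained discretely. -/
theorem Crv.line_isolated (hc : Crv c T) (hz : z ∉ Set.range c) (t₀ : ℝ) (e : ℂ) (m : ℝ) :
    ∀ᶠ t in 𝓝[≠] t₀, ¬ (ee c z t = e ∧ mu c z t = m) := by
  by_contra hcon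
  rw [not_eventually] at hcon
  simp only [not_not] at hcon
  have h1 : ∀ᶠ t in 𝓝 t₀, ee c z t = e :=
    ((hc.an_ee hz t₀).frequently_eq_iff_eventually_eq analyticAt_const).mp
      (hcon.mono fun t ht => ht.1)
  have h2 : ∀ᶠ t in 𝓝 t₀, mu c z t = m :=
    ((hc.an_mu hz t₀).frequently_eq_iff_eventually_eq analyticAt_const).mp
      (hcon.mono fun t ht => ht.2)
  apply hc.nn_not_zero hz t₀
  filter_upwards [h1.eventually_nhds, h2.eventually_nhds] with t ht1 ht2
  have h3 : I * (om c z t : ℂ) * ee c z t = 0 :=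
    ((hc.hd_ee hz t).congr_of_eventuallyEq (f₁ := fun _ => e)
      (ht1.mono fun t h => h.symm)).unique (hasDerivAt_const t e)
  have h4 : nn c z t - om c z t * (conj (ee c z t) * c t).re = 0 :=
    ((hc.hd_mu hz t).congr_of_eventuallyEq (f₁ := fun _ => m)
      (ht2.mono fun t h => h.symm)).unique (hasDerivAt_const t m)
  have he : ee c z t ≠ 0 := by
    intro h0
    have := hc.norm_ee hz t
    rw [h0, norm_zero] at this
    exact zero_ne_one this
  have h5 : om c z t = 0 := by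
    have : (om c z t : ℂ) = 0 := by
      rcases mul_eq_zero.mp h3 with h | h
      · rcases mul_eq_zero.mp h with h | h
        · exact absurd h I_ne_zero
        · exact h
      · exact absurd h he
    exact_mod_cast this
  rw [h5, zero_mul, sub_zero] at h4
  exact h4

/-- `2 n' = - chi om + b n`. -/
theorem Crv.hd_nn' (hc : Crv c T) (hz : z ∉ Set.range c) (s : ℝ) :
    HasDerivAt (nn c z) ((-(chi c z s * om c z s) +
      (2 * (qq c s).re - chi c z s / rho c z s) * nn c z s) / 2) s := by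
  refine (hc.hd_nn hz s).congr_deriv ?_
  have hr := (hc.rho_pos hz s).ne'
  have : (qq c s).im = (om c z s - nn c z s / rho c z s) / 2 := by
    unfold om; ring
  rw [this]
  field_simp
  ring

end Nonconst

section Singular

variable {c : ℝ → ℂ} {T : ℝ} {x y : ℂ}

theorem hasDerivAt_sub_pow (s₀ s : ℝ) (j : ℕ) :
    HasDerivAt (fun s : ℝ => (s - s₀) ^ (j + 1)) ((j + 1 : ℕ) * (s - s₀) ^ j) s := by
  have h := ((hasDerivAt_id s).sub_const s₀).fun_pow (j + 1)
  refine h.congr_deriv ?_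
  simp

theorem Crv.an_lam (hc : Crv c T) (hx : x ∉ Set.range c) {θ : ℝ → ℝ} {s₀ : ℝ}
    (hθ : AnalyticAt ℝ θ s₀) : AnalyticAt ℝ (fun s => lam c x s (θ s)) s₀ :=
  analyticAt_re_comp ((analyticAt_conj_comp (hc.an_ee hx s₀)).mul
    (((hc.an (θ s₀)).comp hθ).sub (hc.an s₀)))

/-- A branch cannot start at a parameter which is singular on one side only. -/
theorem Crv.half_singular (hc : Crv c T) (hx : x ∉ Set.range c) (hy : y ∉ Set.range c)
    {s₀ t₀ : ℝ} (h1 : om c x s₀ = 0) (h2 : nn c x s₀ = 0)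
    (h3 : ¬ (om c y t₀ = 0 ∧ nn c y t₀ = 0)) {θ : ℝ → ℝ} (hθ : AnalyticAt ℝ θ s₀)
    (hθ0 : θ s₀ = t₀) (hrel : ∀ᶠ s in 𝓝 s₀, Rel c x y s (θ s)) : False := by
  subst hθ0
  have hd0 : deriv θ s₀ = 0 := by
    obtain ⟨e1, e2⟩ := hc.branch_deriv hx hy hθ.differentiableAt.hasDerivAt hrel
    rw [h1] at e1
    rw [h1, h2, mul_zero, add_zero, zero_add] at e2
    by_contra hne
    exact h3 ⟨(mul_eq_zero.mp e1.symm).resolve_left hne, (mul_eq_zero.mp e2).resolve_left hne⟩
  have hθan : ∀ᶠ s in 𝓝 s₀, AnalyticAt ℝ θ s := hθ.eventually_analyticAt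
  have E : ∀ᶠ s in 𝓝 s₀, om c x s = deriv θ s * om c y (θ s) ∧
      nn c x s + deriv θ s * nn c y (θ s) + lam c x s (θ s) * om c x s = 0 := by
    filter_upwards [hθan, hrel.eventually_nhds] with s hs hr
    exact hc.branch_deriv hx hy hs.differentiableAt.hasDerivAt hr
  have hnz : ¬ ∀ᶠ s in 𝓝 s₀, deriv θ s = 0 := by
    intro hz
    apply hc.nn_not_zero hx s₀
    filter_upwards [hz, E] with s hs hE
    obtain ⟨e1, e2⟩ := hE
    rw [hs, zero_mul] at e1
    rw [hs, e1] at e2
    simpa using e2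
  obtain ⟨i, G, hG, hG0, hGe⟩ := hθ.deriv.exists_eventuallyEq_pow_smul_nonzero_iff.mpr hnz
  obtain ⟨j, rfl⟩ : ∃ j, i = j + 1 := by
    rcases i with _ | j
    · exfalso
      have := hGe.self_of_nhds
      rw [hd0] at this
      apply hG0
      simpa using this.symm
    · exact ⟨j, rfl⟩
  let H : ℝ → ℝ := fun s => nn c y (θ s) + lam c x s (θ s) * om c y (θ s)
  have hH : AnalyticAt ℝ H s₀ :=
    ((hc.an_nn hy (θ s₀)).comp hθ).add ((hc.an_lam hx hθ).mul ((hc.an_om hy (θ s₀)).comp hθ))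
  let b : ℝ → ℝ := fun s => 2 * (qq c s).re - chi c x s / rho c x s
  have hb : AnalyticAt ℝ b s₀ :=
    (analyticAt_const.mul (analyticAt_re_comp (hc.an_qq s₀))).sub
      ((hc.an_chi hx s₀).div (hc.an_rho hx s₀) (hc.rho_pos hx s₀).ne')
  let B : ℝ → ℝ := fun s => chi c x s * om c y (θ s) + b s * H s - 2 * deriv H s
  have hB : AnalyticAt ℝ B s₀ :=
    (((hc.an_chi hx s₀).mul ((hc.an_om hy (θ s₀)).comp hθ)).add (hb.mul hH)).sub
      (analyticAt_const.mul hH.deriv)
  have hn : ∀ᶠ s in 𝓝 s₀, nn c x s = -(deriv θ s * H s) := by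
    filter_upwards [E] with s hs
    obtain ⟨e1, e2⟩ := hs
    simp only [H]
    rw [e1] at e2
    linear_combination e2
  have hkey : ∀ᶠ s in 𝓝 s₀, 2 * H s * deriv (deriv θ) s = deriv θ s * B s := by
    filter_upwards [hn.eventually_nhds, hθ.deriv.eventually_analyticAt, hH.eventually_analyticAt, E]
      with s hs hs1 hs2 hE
    have d1 : HasDerivAt (fun s => -(deriv θ s * H s))
        (-(deriv (deriv θ) s * H s + deriv θ s * deriv H s)) s :=
      (hs1.differentiableAt.hasDerivAt.mul hs2.differentiableAt.hasDerivAt).fun_neg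
    have d2 := (hc.hd_nn' hx s).unique (d1.congr_of_eventuallyEq hs)
    have hs0 := hs.self_of_nhds
    have e1 := hE.1
    simp only [B, b]
    rw [hs0, e1] at d2
    linear_combination 2 * d2
  let F : ℝ → ℝ := fun s => 2 * H s * ((j + 1) * G s + (s - s₀) * deriv G s) -
    (s - s₀) * (G s * B s)
  have hidan : AnalyticAt ℝ (fun s : ℝ => s - s₀) s₀ := analyticAt_id.sub analyticAt_const
  have hF : AnalyticAt ℝ F s₀ :=
    ((analyticAt_const.mul hH).mul ((analyticAt_const.mul hG).add (hidan.mul hG.deriv))).sub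
      (hidan.mul (hG.mul hB))
  have hF0 : ∀ᶠ s in 𝓝 s₀, F s = 0 := by
    rw [← hF.frequently_zero_iff_eventually_zero]
    apply Filter.Eventually.frequently
    rw [eventually_nhdsWithin_iff]
    filter_upwards [hkey, hGe.eventually_nhds, hG.eventually_analyticAt] with s hs hs1 hs2 hne
    have hne' : s - s₀ ≠ 0 := sub_ne_zero.mpr hne
    have hp : HasDerivAt (fun s : ℝ => (s - s₀) ^ (j + 1)) ((j + 1 : ℕ) * (s - s₀) ^ j) s :=
      hasDerivAt_sub_pow s₀ s j
    have d1 : HasDerivAt (fun s => (s - s₀) ^ (j + 1) • G s)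
        (((j + 1 : ℕ) * (s - s₀) ^ j) * G s + (s - s₀) ^ (j + 1) * deriv G s) s :=
      hp.mul hs2.differentiableAt.hasDerivAt
    have d2 : deriv (deriv θ) s =
        ((j + 1 : ℕ) * (s - s₀) ^ j) * G s + (s - s₀) ^ (j + 1) * deriv G s :=
      (d1.congr_of_eventuallyEq hs1).deriv
    have hs1' := hs1.self_of_nhds
    rw [d2, hs1', smul_eq_mul] at hs
    have hpow : (s - s₀) ^ j ≠ 0 := pow_ne_zero _ hne'
    apply mul_left_cancel₀ hpow
    simp only [F]
    push_cast at hs
    linear_combination hs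
  have hF1 : HasDerivAt F 0 s₀ :=
    (hasDerivAt_const s₀ (0 : ℝ)).congr_of_eventuallyEq hF0
  have hFs := hF0.self_of_nhds
  have hj : (j : ℝ) + 1 ≠ 0 := by positivity
  have hHs : H s₀ = 0 := by
    simp only [F, sub_self, zero_mul, add_zero, sub_zero] at hFs
    rcases mul_eq_zero.mp hFs with h | h
    · linarith [(mul_eq_zero.mp h).resolve_left two_ne_zero]
    · exact absurd h (mul_ne_zero hj hG0)
  have hHd : HasDerivAt H (-(chi c x s₀) * om c y (θ s₀)) s₀ := by
    have hθd : HasDerivAt θ 0 s₀ := by rw [← hd0]; exact hθ.differentiableAt.hasDerivAt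
    have d1 := (hc.hd_nn hy (θ s₀)).comp s₀ hθd
    have d2 := hc.hd_lam hx hθd hrel.self_of_nhds
    have d3 := ((hc.an_om hy (θ s₀)).differentiableAt.hasDerivAt).comp s₀ hθd
    have d4 := d1.add (d2.mul d3)
    refine d4.congr_deriv ?_
    simp
  have hHd' : deriv H s₀ = -(chi c x s₀) * om c y (θ s₀) := hHd.deriv
  have hFd : HasDerivAt F (2 * (-(chi c x s₀) * om c y (θ s₀)) * ((j + 1) * G s₀) -
      G s₀ * B s₀) s₀ := by
    have i1 : HasDerivAt (fun s : ℝ => s - s₀) 1 s₀ := (hasDerivAt_id s₀).sub_const s₀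
    have g1 := hG.differentiableAt.hasDerivAt
    have g2 := hG.deriv.differentiableAt.hasDerivAt
    have b1 := hB.differentiableAt.hasDerivAt
    have d := ((hHd.const_mul 2).mul ((g1.const_mul ((j : ℝ) + 1)).add (i1.mul g2))).sub
      (i1.mul (g1.mul b1))
    refine d.congr_deriv ?_
    simp [hHs]
  have hfin := hF1.unique hFd
  have hchi := hc.chi_ne_of_nn hx h2
  have hy0 : om c y (θ s₀) ≠ 0 := by
    intro h0
    apply h3
    refine ⟨h0, ?_⟩
    have := hHs
    simp only [H, h0, mul_zero, add_zero] at this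
    exact this
  have hBs : B s₀ = 3 * chi c x s₀ * om c y (θ s₀) := by
    simp only [B, hHs, hHd', mul_zero, add_zero]
    ring
  rw [hBs] at hfin
  have : (2 * (j : ℝ) + 5) * (chi c x s₀ * om c y (θ s₀) * G s₀) = 0 := by
    linear_combination hfin
  rcases mul_eq_zero.mp this with h | h
  · have : (0 : ℝ) ≤ j := Nat.cast_nonneg j
    linarith
  · exact mul_ne_zero (mul_ne_zero hchi hy0) hG0 h

/-- near a zero of the normal component, it is negligible with respect to the angular speed. -/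
theorem Crv.ratio_tendsto (hc : Crv c T) {z : ℂ} (hz : z ∉ Set.range c) {s₀ : ℝ}
    (h0 : nn c z s₀ = 0) : (∀ᶠ s in 𝓝[≠] s₀, om c z s ≠ 0) ∧
      Tendsto (fun s => nn c z s / om c z s) (𝓝[≠] s₀) (𝓝 0) := by
  obtain ⟨i, G, hG, hG0, hGe⟩ :=
    (hc.an_nn hz s₀).exists_eventuallyEq_pow_smul_nonzero_iff.mpr (hc.nn_not_zero hz s₀)
  obtain ⟨j, rfl⟩ : ∃ j, i = j + 1 := by
    rcases i with _ | j
    · exfalso
      have := hGe.self_of_nhds
      rw [h0] at this
      apply hG0
      simpa using this.symm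
    · exact ⟨j, rfl⟩
  let b : ℝ → ℝ := fun s => 2 * (qq c s).re - chi c z s / rho c z s
  have hb : AnalyticAt ℝ b s₀ :=
    (analyticAt_const.mul (analyticAt_re_comp (hc.an_qq s₀))).sub
      ((hc.an_chi hz s₀).div (hc.an_rho hz s₀) (hc.rho_pos hz s₀).ne')
  let R : ℝ → ℝ := fun s => -2 * ((j + 1) * G s + (s - s₀) * deriv G s) + b s * ((s - s₀) * G s)
  have hidan : AnalyticAt ℝ (fun s : ℝ => s - s₀) s₀ := analyticAt_id.sub analyticAt_const
  have hR : AnalyticAt ℝ R s₀ :=
    (analyticAt_const.mul ((analyticAt_const.mul hG).add (hidan.mul hG.deriv))).add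
      (hb.mul (hidan.mul hG))
  have hj : (j : ℝ) + 1 ≠ 0 := by positivity
  have hR0 : R s₀ ≠ 0 := by
    simp only [R, sub_self, zero_mul, mul_zero, add_zero]
    exact mul_ne_zero (by norm_num) (mul_ne_zero hj hG0)
  have hkey : ∀ᶠ s in 𝓝 s₀, chi c z s * om c z s = (s - s₀) ^ j * R s := by
    filter_upwards [hGe.eventually_nhds, hG.eventually_analyticAt] with s hs1 hs2
    have hp : HasDerivAt (fun s : ℝ => (s - s₀) ^ (j + 1)) ((j + 1 : ℕ) * (s - s₀) ^ j) s :=
      hasDerivAt_sub_pow s₀ s j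
    have d1 : HasDerivAt (fun s => (s - s₀) ^ (j + 1) • G s)
        (((j + 1 : ℕ) * (s - s₀) ^ j) * G s + (s - s₀) ^ (j + 1) * deriv G s) s :=
      hp.mul hs2.differentiableAt.hasDerivAt
    have d2 := (hc.hd_nn' hz s).unique (d1.congr_of_eventuallyEq hs1)
    have hs1' := hs1.self_of_nhds
    rw [hs1', smul_eq_mul] at d2
    simp only [R, b]
    push_cast at d2
    linear_combination -2 * d2
  have hchi0 : chi c z s₀ ≠ 0 := hc.chi_ne_of_nn hz h0
  have hchi : ∀ᶠ s in 𝓝 s₀, chi c z s ≠ 0 :=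
    (hc.an_chi hz s₀).continuousAt.eventually_ne hchi0
  have hRe : ∀ᶠ s in 𝓝 s₀, R s ≠ 0 := hR.continuousAt.eventually_ne hR0
  have hom : ∀ᶠ s in 𝓝[≠] s₀, om c z s ≠ 0 := by
    rw [eventually_nhdsWithin_iff]
    filter_upwards [hkey, hRe] with s hs hs2 hne h
    rw [h, mul_zero] at hs
    exact mul_ne_zero (pow_ne_zero _ (sub_ne_zero.mpr hne)) hs2 hs.symm
  refine ⟨hom, ?_⟩
  have hlim : Tendsto (fun s => (s - s₀) * (G s * chi c z s / R s)) (𝓝[≠] s₀) (𝓝 0) := by
    have h1 : ContinuousAt (fun s => (s - s₀) * (G s * chi c z s / R s)) s₀ :=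
      hidan.continuousAt.mul ((hG.continuousAt.mul (hc.an_chi hz s₀).continuousAt).div
        hR.continuousAt hR0)
    have h2 := h1.tendsto
    simp only [sub_self, zero_mul] at h2
    exact h2.mono_left nhdsWithin_le_nhds
  refine hlim.congr' ?_
  rw [EventuallyEq, eventually_nhdsWithin_iff]
  filter_upwards [hkey, hRe, hchi, hGe] with s hs hs2 hs3 hs4 hne
  have hne' : s - s₀ ≠ 0 := sub_ne_zero.mpr hne
  have hpow : (s - s₀) ^ j ≠ 0 := pow_ne_zero _ hne'
  have hom' : om c z s = (s - s₀) ^ j * R s / chi c z s := by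
    rw [← hs]; field_simp
  rw [hs4, smul_eq_mul, hom', pow_succ]
  field_simp

end Singular

end Pool.Agent.Lib.MP3080d1
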