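import Pool.Agent.Lib.MP_3080d1_gt.Gp

set_option autoImplicit false

namespace Pool.Agent.Lib.MP3080d1

open Complex ComplexConjugate Filter Topology

theorem strict_sides {G G' : ℝ → ℝ} {m a : ℝ} (hG : ∀ t, HasDerivAt G (G' t) t)
    (h0 : G' m = 0) (h1 : HasDerivAt G' a m) (ha : 0 < a) :
    (∃ ε > 0, ∀ t, m < t → t < m + ε → G m < G t) ∧
      (∃ ε > 0, ∀ t, m - ε < t → t < m → G m < G t) := by
  have hs := (hasDerivAt_iff_tendsto_slope.mp h1).eventually_const_lt ha
  rw [eventually_nhdsWithin_iff] at hs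
  obtain ⟨ε, hε, hball⟩ := Metric.eventually_nhds_iff_ball.mp hs
  have hball' : ∀ t, |t - m| < ε → t ≠ m → 0 < slope G' m t := fun t ht hne =>
    hball t (by rw [Metric.mem_ball, Real.dist_eq]; exact ht) hne
  constructor
  · refine ⟨ε, hε, fun t h2 h3 => ?_⟩
    obtain ⟨ξ, hξ, hξ'⟩ := exists_hasDerivAt_eq_slope G G' h2
      (fun s _ => (hG s).continuousAt.continuousWithinAt) (fun s _ => hG s)
    have h4 := hball' ξ (by rw [abs_lt]; constructor <;> linarith [hξ.1, hξ.2]) hξ.1.ne'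
    rw [slope_def_field, h0, sub_zero, div_pos_iff_of_pos_right (sub_pos.mpr hξ.1)] at h4
    rw [eq_div_iff (sub_pos.mpr h2).ne'] at hξ'
    have := mul_pos h4 (sub_pos.mpr h2)
    linarith
  · refine ⟨ε, hε, fun t h2 h3 => ?_⟩
    obtain ⟨ξ, hξ, hξ'⟩ := exists_hasDerivAt_eq_slope G G' h3
      (fun s _ => (hG s).continuousAt.continuousWithinAt) (fun s _ => hG s)
    have h4 := hball' ξ (by rw [abs_lt]; constructor <;> linarith [hξ.1, hξ.2]) hξ.2.ne
    rw [slope_def_field, h0, sub_zero, div_pos_iff] at h4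
    have h5 : G' ξ < 0 := by
      rcases h4 with h4 | h4
      · linarith [hξ.2, h4.2]
      · exact h4.1
    rw [eq_div_iff (sub_pos.mpr h3).ne'] at hξ'
    have := mul_neg_of_neg_of_pos h5 (sub_pos.mpr h3)
    linarith

section

variable {c : ℝ → ℂ} {T : ℝ} {Ω N : Set ℂ} {x y : ℂ}

/-- height of the point `c t` over the direction of the tangent at `s₀`, relative to `x`. -/
noncomputable def GG (c : ℝ → ℂ) (x : ℂ) (s₀ t : ℝ) : ℝ := (conj (deriv c s₀) * (c t - x)).im

theorem Crv.hd_GG (hc : Crv c T) (x : ℂ) (s₀ t : ℝ) :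
    HasDerivAt (GG c x s₀) (conj (deriv c s₀) * deriv c t).im t := by
  have h1 := ((hc.hd t).sub_const x).const_mul (conj (deriv c s₀))
  exact (Complex.imCLM.hasFDerivAt (x := conj (deriv c s₀) * (c t - x))).comp_hasDerivAt t h1

theorem Crv.hd2_GG (hc : Crv c T) (s₀ t : ℝ) :
    HasDerivAt (fun t => (conj (deriv c s₀) * deriv c t).im)
      (conj (deriv c s₀) * (qq c t * deriv c t)).im t := by
  have h1 := (hc.hd2 t).const_mul (conj (deriv c s₀))
  exact (Complex.imCLM.hasFDerivAt (x := conj (deriv c s₀) * deriv c t)).comp_hasDerivAt t h1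

/-- the values at critical points. -/
theorem Foc.crit (h : Foc c T Ω x y N) (s₀ t : ℝ)
    (h0 : (conj (deriv c s₀) * deriv c t).im = 0) :
    (conj (deriv c s₀) * deriv c t).re ≠ 0 ∧
    (conj (deriv c s₀) * (qq c t * deriv c t)).im =
      (conj (deriv c s₀) * deriv c t).re * (qq c t).im ∧
    GG c x s₀ t = (conj (deriv c s₀) * deriv c t).re / Complex.normSq (deriv c t) *
      (rho c x t * nn c x t) := by
  have hc := h.std.crv
  have hne : conj (deriv c s₀) * deriv c t ≠ 0 := mul_ne_zero (hc.conj_deriv_ne s₀) (hc.reg t)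
  have h1 : conj (deriv c s₀) * deriv c t = ((conj (deriv c s₀) * deriv c t).re : ℂ) := by
    apply Complex.ext
    · rw [Complex.ofReal_re]
    · rw [h0, Complex.ofReal_im]
  set κ := (conj (deriv c s₀) * deriv c t).re with hκ
  refine ⟨?_, ?_, ?_⟩
  · intro h2
    rw [h2, Complex.ofReal_zero] at h1
    exact hne h1
  · have h2 : conj (deriv c s₀) * (qq c t * deriv c t) = (κ : ℂ) * qq c t := by
      rw [← h1]; ring
    rw [h2, Complex.im_ofReal_mul]
  · unfold GG
    have h3 := h.std.sub_eq h.hx t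
    have hpos : 0 < Complex.normSq (deriv c t) := Complex.normSq_pos.mpr (hc.reg t)
    have hpos' : (Complex.normSq (deriv c t) : ℂ) ≠ 0 := by exact_mod_cast hpos.ne'
    have h4 : conj (deriv c s₀) * (c t - x) =
        ((κ / Complex.normSq (deriv c t) * rho c x t : ℝ) : ℂ) * bb c x t := by
      have h5 : conj (deriv c t) * deriv c t = (Complex.normSq (deriv c t) : ℂ) := by
        rw [Complex.normSq_eq_conj_mul_self]
      have h6 : conj (deriv c s₀) * (Complex.normSq (deriv c t) : ℂ) =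
          κ * conj (deriv c t) := by
        rw [← h5, ← h1]; ring
      rw [h3]
      unfold bb
      push_cast
      have h7 : conj (deriv c s₀) = κ * conj (deriv c t) / (Complex.normSq (deriv c t) : ℂ) := by
        rw [eq_div_iff hpos']; exact h6
      rw [h7]
      ring
    rw [h4, Complex.im_ofReal_mul]
    unfold nn
    ring

/-- at an interior local maximum of the height the value is positive. -/
theorem Foc.max_pos (h : Foc c T Ω x y N) (s₀ : ℝ) {a b m : ℝ} (ham : a < m) (hmb : m < b)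
    (hmax : ∀ t ∈ Set.Icc a b, GG c x s₀ t ≤ GG c x s₀ m) : 0 < GG c x s₀ m := by
  have hc := h.std.crv
  have hloc : IsLocalMax (GG c x s₀) m := by
    filter_upwards [Icc_mem_nhds ham hmb] with t ht
    exact hmax t ht
  have h0 : (conj (deriv c s₀) * deriv c m).im = 0 :=
    hloc.hasDerivAt_eq_zero (hc.hd_GG x s₀ m)
  obtain ⟨h1, h2, h3⟩ := h.crit s₀ m h0
  have hr := hc.rho_pos (h.std.range_not h.hx) m
  have hn := h.nn_neg m
  have hk := h.curv_pos m
  have hpos : 0 < Complex.normSq (deriv c m) := Complex.normSq_pos.mpr (hc.reg m)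
  rcases lt_or_gt_of_ne h1 with h4 | h4
  · rw [h3]
    exact mul_pos_of_neg_of_neg (div_neg_of_neg_of_pos h4 hpos)
      (mul_neg_of_pos_of_neg hr hn)
  · exfalso
    have hd2 := hc.hd2_GG s₀ m
    rw [h2] at hd2
    obtain ⟨⟨ε, hε, hlt⟩, -⟩ := strict_sides (hc.hd_GG x s₀) h0 hd2 (mul_pos h4 hk)
    have h5 : m < m + min (ε / 2) (b - m) := by
      have : 0 < min (ε / 2) (b - m) := lt_min (by linarith) (by linarith)
      linarith
    have h6 := hlt _ h5 (by have := min_le_left (ε / 2) (b - m); linarith)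
    have h7 := hmax (m + min (ε / 2) (b - m))
      ⟨by linarith, by have := min_le_right (ε / 2) (b - m); linarith⟩
    linarith

theorem Foc.GG_self (h : Foc c T Ω x y N) (s₀ : ℝ) :
    GG c x s₀ s₀ = rho c x s₀ * nn c x s₀ := by
  unfold GG
  rw [h.std.sub_eq h.hx s₀]
  have : conj (deriv c s₀) * ((rho c x s₀ : ℂ) * uu c x s₀) = (rho c x s₀ : ℂ) * bb c x s₀ := by
    unfold bb; ring
  rw [this, Complex.im_ofReal_mul]
  rfl

theorem Crv.GG_periodic (hc : Crv c T) (x : ℂ) (s₀ : ℝ) : Function.Periodic (GG c x s₀) T := by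
  intro s
  unfold GG
  rw [hc.pc s]

/-- distinct parameters inside a period give distinct points. -/
theorem Crv.inj_Ioo (hc : Crv c T) {s₀ a b : ℝ} (ha : a ∈ Set.Ioo s₀ (s₀ + T))
    (hb : b ∈ Set.Ioo s₀ (s₀ + T)) (hab : c a = c b) : a = b := by
  obtain ⟨m, hm⟩ := hc.inj a b hab
  have hT := hc.hT
  have h1 : (-1 : ℝ) < m := by
    by_contra hneg
    push Not at hneg
    nlinarith [ha.1, ha.2, hb.1, hb.2]
  have h2 : (m : ℝ) < 1 := by
    by_contra hneg
    push Not at hneg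
    nlinarith [ha.1, ha.2, hb.1, hb.2]
  have h1' : -1 < m := by exact_mod_cast h1
  have h2' : m < 1 := by exact_mod_cast h2
  have : m = 0 := by omega
  rw [this] at hm
  simp only [Int.cast_zero, zero_mul, add_zero] at hm
  exact hm.symm

/-- key step: the height over the tangent at `s₀` is minimal only at `s₀`. -/
theorem Foc.height (h : Foc c T Ω x y N) {s₀ t₁ : ℝ} (ht : t₁ ∈ Set.Ioo s₀ (s₀ + T)) :
    GG c x s₀ s₀ < GG c x s₀ t₁ := by
  have hc := h.std.crv
  have hx' := h.std.range_not h.hx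
  by_contra hcon
  push Not at hcon
  have hcont : Continuous (GG c x s₀) :=
    continuous_iff_continuousAt.mpr fun t => (hc.hd_GG x s₀ t).continuousAt
  have hneg0 : GG c x s₀ s₀ < 0 := by
    rw [h.GG_self]
    exact mul_neg_of_pos_of_neg (hc.rho_pos hx' s₀) (h.nn_neg s₀)
  have hper := hc.GG_periodic x s₀
  -- strict local minimum at the base point
  have h0 : (conj (deriv c s₀) * deriv c s₀).im = 0 := by
    rw [← Complex.normSq_eq_conj_mul_self, Complex.ofReal_im]
  obtain ⟨h1, h2, -⟩ := h.crit s₀ s₀ h0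
  have hre : 0 < (conj (deriv c s₀) * deriv c s₀).re := by
    rw [← Complex.normSq_eq_conj_mul_self, Complex.ofReal_re]
    exact Complex.normSq_pos.mpr (hc.reg s₀)
  have hd2 := hc.hd2_GG s₀ s₀
  rw [h2] at hd2
  obtain ⟨⟨ε, hε, hlt⟩, ⟨ε', hε', hlt'⟩⟩ :=
    strict_sides (hc.hd_GG x s₀) h0 hd2 (mul_pos hre (h.curv_pos s₀))
  -- maximum to the left of t₁
  obtain ⟨m₁, hm₁, hmax₁⟩ := isCompact_Icc.exists_isMaxOn
    (Set.nonempty_Icc.mpr ht.1.le) hcont.continuousOn
  have hmax₁' : ∀ t ∈ Set.Icc s₀ t₁, GG c x s₀ t ≤ GG c x s₀ m₁ := fun t ht => hmax₁ ht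
  have hgt₁ : GG c x s₀ s₀ < GG c x s₀ m₁ := by
    have a1 : 0 < min (ε / 2) (t₁ - s₀) := lt_min (by linarith) (by linarith [ht.1])
    have a2 := min_le_left (ε / 2) (t₁ - s₀)
    have a3 := min_le_right (ε / 2) (t₁ - s₀)
    have a4 := hlt (s₀ + min (ε / 2) (t₁ - s₀)) (by linarith) (by linarith)
    have a5 := hmax₁' (s₀ + min (ε / 2) (t₁ - s₀)) ⟨by linarith, by linarith⟩
    linarith
  have hm₁a : s₀ < m₁ := by
    rcases hm₁.1.eq_or_lt with h3 | h3
    · rw [← h3] at hgt₁; exact absurd hgt₁ (lt_irrefl _)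
    · exact h3
  have hm₁b : m₁ < t₁ := by
    rcases hm₁.2.eq_or_lt with h3 | h3
    · rw [h3] at hgt₁; linarith
    · exact h3
  have hpos₁ := h.max_pos s₀ hm₁a hm₁b hmax₁'
  -- maximum to the right of t₁
  obtain ⟨m₂, hm₂, hmax₂⟩ := isCompact_Icc.exists_isMaxOn
    (Set.nonempty_Icc.mpr ht.2.le) hcont.continuousOn
  have hmax₂' : ∀ t ∈ Set.Icc t₁ (s₀ + T), GG c x s₀ t ≤ GG c x s₀ m₂ := fun t ht => hmax₂ ht
  have hgt₂ : GG c x s₀ s₀ < GG c x s₀ m₂ := by
    have a1 : 0 < min (ε' / 2) (s₀ + T - t₁) := lt_min (by linarith) (by linarith [ht.2])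
    have a2 := min_le_left (ε' / 2) (s₀ + T - t₁)
    have a3 := min_le_right (ε' / 2) (s₀ + T - t₁)
    have a4 := hlt' (s₀ - min (ε' / 2) (s₀ + T - t₁)) (by linarith) (by linarith)
    have a5 := hmax₂' (s₀ + T - min (ε' / 2) (s₀ + T - t₁)) ⟨by linarith, by linarith⟩
    have a6 : GG c x s₀ (s₀ + T - min (ε' / 2) (s₀ + T - t₁)) =
        GG c x s₀ (s₀ - min (ε' / 2) (s₀ + T - t₁)) := by
      rw [← hper (s₀ - min (ε' / 2) (s₀ + T - t₁))]
      congr 1
      ring
    linarith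
  have hm₂a : t₁ < m₂ := by
    rcases hm₂.1.eq_or_lt with h3 | h3
    · rw [← h3] at hgt₂; linarith
    · exact h3
  have hm₂b : m₂ < s₀ + T := by
    rcases hm₂.2.eq_or_lt with h3 | h3
    · rw [h3, hper s₀] at hgt₂; exact absurd hgt₂ (lt_irrefl _)
    · exact h3
  have hpos₂ := h.max_pos s₀ hm₂a hm₂b hmax₂'
  have hneg1 : GG c x s₀ t₁ < 0 := by linarith
  -- three zeros
  obtain ⟨z₁, hz₁, hz₁'⟩ := intermediate_value_Ioo hm₁a.le hcont.continuousOn
    (show (0 : ℝ) ∈ Set.Ioo (GG c x s₀ s₀) (GG c x s₀ m₁) from ⟨hneg0, hpos₁⟩)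
  obtain ⟨z₂, hz₂, hz₂'⟩ := intermediate_value_Ioo' hm₁b.le hcont.continuousOn
    (show (0 : ℝ) ∈ Set.Ioo (GG c x s₀ t₁) (GG c x s₀ m₁) from ⟨hneg1, hpos₁⟩)
  obtain ⟨z₃, hz₃, hz₃'⟩ := intermediate_value_Ioo hm₂a.le hcont.continuousOn
    (show (0 : ℝ) ∈ Set.Ioo (GG c x s₀ t₁) (GG c x s₀ m₂) from ⟨hneg1, hpos₂⟩)
  have i₁ : z₁ ∈ Set.Ioo s₀ (s₀ + T) := ⟨hz₁.1, by linarith [hz₁.2]⟩
  have i₂ : z₂ ∈ Set.Ioo s₀ (s₀ + T) := ⟨by linarith [hz₂.1], by linarith [hz₂.2]⟩
  have i₃ : z₃ ∈ Set.Ioo s₀ (s₀ + T) := ⟨by linarith [hz₃.1], by linarith [hz₃.2]⟩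
  -- directions at zeros
  have hdir : ∀ z, GG c x s₀ z = 0 →
      conj (deriv c s₀) * uu c x z = (‖deriv c s₀‖ : ℂ) ∨
      conj (deriv c s₀) * uu c x z = -(‖deriv c s₀‖ : ℂ) := by
    intro z hz
    have hrz := hc.rho_pos hx' z
    have e1 : (conj (deriv c s₀) * uu c x z).im = 0 := by
      unfold GG at hz
      rw [h.std.sub_eq h.hx z] at hz
      have : conj (deriv c s₀) * ((rho c x z : ℂ) * uu c x z) =
        (rho c x z : ℂ) * (conj (deriv c s₀) * uu c x z) := by ring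
      rw [this, Complex.im_ofReal_mul] at hz
      exact (mul_eq_zero.mp hz).resolve_left hrz.ne'
    have e2 : ‖conj (deriv c s₀) * uu c x z‖ = ‖deriv c s₀‖ := by
      rw [norm_mul, hc.norm_uu hx', mul_one, Complex.norm_conj]
    have e3 : conj (deriv c s₀) * uu c x z = ((conj (deriv c s₀) * uu c x z).re : ℂ) := by
      apply Complex.ext
      · rw [Complex.ofReal_re]
      · rw [e1, Complex.ofReal_im]
    rw [e3, Complex.norm_real, Real.norm_eq_abs] at e2
    rcases abs_choice (conj (deriv c s₀) * uu c x z).re with e4 | e4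
    · left; rw [e3, ← e2, e4]
    · right; rw [e3, ← e2, e4]; push_cast; ring
  have heq : ∀ a b, a ∈ Set.Ioo s₀ (s₀ + T) → b ∈ Set.Ioo s₀ (s₀ + T) → a < b →
      conj (deriv c s₀) * uu c x a = conj (deriv c s₀) * uu c x b → False := by
    intro a b ha hb hab he
    have hu := mul_left_cancel₀ (hc.conj_deriv_ne s₀) he
    have := h.std.vis_unique h.hx (h.vis_univ a) (h.vis_univ b) hu
    exact hab.ne (hc.inj_Ioo ha hb this)
  have l₁₂ : z₁ < z₂ := hz₁.2.trans hz₂.1
  have l₂₃ : z₂ < z₃ := hz₂.2.trans hz₃.1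
  rcases hdir z₁ hz₁' with k₁ | k₁ <;> rcases hdir z₂ hz₂' with k₂ | k₂ <;>
    rcases hdir z₃ hz₃' with k₃ | k₃
  · exact heq z₁ z₂ i₁ i₂ l₁₂ (k₁.trans k₂.symm)
  · exact heq z₁ z₂ i₁ i₂ l₁₂ (k₁.trans k₂.symm)
  · exact heq z₁ z₃ i₁ i₃ (l₁₂.trans l₂₃) (k₁.trans k₃.symm)
  · exact heq z₂ z₃ i₂ i₃ l₂₃ (k₂.trans k₃.symm)
  · exact heq z₂ z₃ i₂ i₃ l₂₃ (k₂.trans k₃.symm)
  · exact heq z₁ z₃ i₁ i₃ (l₁₂.trans l₂₃) (k₁.trans k₃.symm)
  · exact heq z₁ z₂ i₁ i₂ l₁₂ (k₁.trans k₂.symm)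
  · exact heq z₁ z₂ i₁ i₂ l₁₂ (k₁.trans k₂.symm)

/-- strict convexity. -/
theorem Foc.convex (h : Foc c T Ω x y N) {s t : ℝ} (hne : c t ≠ c s) :
    0 < (conj (deriv c s) * (c t - c s)).im := by
  have hc := h.std.crv
  obtain ⟨m, hm⟩ := hc.shift s t
  have hct : c (t + m * T) = c t := hc.pc_int t m
  have h1 : t + m * T ∈ Set.Ioo s (s + T) := by
    refine ⟨lt_of_le_of_ne hm.1 ?_, hm.2⟩
    intro h0
    rw [← h0] at hct
    exact hne hct.symm
  have h2 := h.height h1
  unfold GG at h2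
  rw [hct] at h2
  have h3 : (conj (deriv c s) * (c t - c s)).im =
      (conj (deriv c s) * (c t - x)).im - (conj (deriv c s) * (c s - x)).im := by
    rw [← Complex.sub_im]; congr 1; ring
  rw [h3]
  linarith

/-- the second focus is also on the inner side of all tangents. -/
theorem Foc.nn_neg' (h : Foc c T Ω x y N) (hxy : x ≠ y) (s : ℝ) : nn c y s < 0 := by
  have hc := h.std.crv
  obtain ⟨r, hr, s₁, hs₁, -⟩ := h.std.hit h.hy (sub_ne_zero.mpr hxy.symm)
  have h1 : 0 ≤ (conj (deriv c s) * (c s₁ - c s)).im := by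
    by_cases hne : c s₁ = c s
    · rw [hne, sub_self, mul_zero, Complex.zero_im]
    · exact (h.convex hne).le
  have h2 : (conj (deriv c s) * (x - c s)).im = - (rho c x s * nn c x s) := by
    have := h.GG_self s
    unfold GG at this
    rw [← this, ← Complex.neg_im]
    congr 1; ring
  have h3 : (conj (deriv c s) * (y - c s)).im = - (rho c y s * nn c y s) := by
    have e := h.std.sub_eq h.hy s
    have e2 : y - c s = - ((rho c y s : ℂ) * uu c y s) := by rw [← e]; ring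
    rw [e2]
    have : conj (deriv c s) * (-((rho c y s : ℂ) * uu c y s)) =
      ((-rho c y s : ℝ) : ℂ) * bb c y s := by unfold bb; push_cast; ring
    rw [this, Complex.im_ofReal_mul]
    unfold nn
    ring
  have h4 : (1 + r) * (conj (deriv c s) * (y - c s)).im =
      (conj (deriv c s) * (c s₁ - c s)).im + r * (conj (deriv c s) * (x - c s)).im := by
    rw [← Complex.im_ofReal_mul, ← Complex.im_ofReal_mul, ← Complex.add_im]
    congr 1
    rw [hs₁]
    push_cast
    ring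
  have hrx := hc.rho_pos (h.std.range_not h.hx) s
  have hry := hc.rho_pos (h.std.range_not h.hy) s
  have hnx := h.nn_neg s
  have h5 : 0 < (1 + r) * (conj (deriv c s) * (y - c s)).im := by
    rw [h4, h2]
    have : 0 < r * -(rho c x s * nn c x s) := by
      have := mul_neg_of_pos_of_neg hrx hnx
      exact mul_pos hr (by linarith)
    linarith
  rw [h3] at h5
  by_contra hcon
  push Not at hcon
  have h6 : 0 ≤ rho c y s * nn c y s := mul_nonneg hry.le hcon
  have h7 : (1 + r) * -(rho c y s * nn c y s) ≤ 0 := by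
    have : 0 < 1 + r := by linarith
    nlinarith
  linarith

end

end Pool.Agent.Lib.MP3080d1
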