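import Pool.Agent.Lib.MP_3080d1_gt.Conv

set_option autoImplicit false

namespace Pool.Agent.Lib.MP3080d1

open Complex ComplexConjugate Filter Topology

section

variable {c : ℝ → ℂ} {T : ℝ} {Ω N : Set ℂ} {x y : ℂ}

theorem Crv.Lam_const (hc : Crv c T) (hx : x ∉ Set.range c) (hy : y ∉ Set.range c)
    {s : ℝ} {θ : ℝ → ℝ} (h1 : AnalyticAt ℝ θ s)
    (h2 : ∀ᶠ s' in 𝓝 s, Rel c x y s' (θ s')) :
    ∀ᶠ s' in 𝓝 s, Lam c x y s' (θ s') = Lam c x y s (θ s) := by
  have h8 : ∀ᶠ s' in 𝓝 s, HasDerivAt (fun s => Lam c x y s (θ s)) 0 s' := by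
    filter_upwards [h1.eventually_analyticAt, h2] with s' h hr
    exact hc.hd_Lam hx hy h.differentiableAt.hasDerivAt hr
  obtain ⟨ε, hε, hball⟩ := Metric.eventually_nhds_iff_ball.mp h8
  filter_upwards [Metric.ball_mem_nhds s hε] with s' hs'
  have h9 := (convex_ball s ε).is_const_of_fderivWithin_eq_zero (𝕜 := ℝ)
    (f := fun s => Lam c x y s (θ s))
    (fun p hp => (hball p hp).differentiableAt.differentiableWithinAt)
    (fun p hp => by
      rw [fderivWithin_of_isOpen Metric.isOpen_ball hp]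
      have := (hball p hp).hasFDerivAt.fderiv
      rw [this]
      ext
      simp)
    hs' (Metric.mem_ball_self hε)
  exact h9

/-- every boundary point is the first reflection point of a trajectory. -/
theorem Foc.partner (h : Foc c T Ω x y N) (hxy : x ≠ y) (s : ℝ) :
    ∃ t, Rel c x y s t ∧ 0 < lam c x s t ∧
      ∃ᶠ p : ℝ × ℝ in 𝓝 (s, t), p.1 ≠ s ∧ Rel c x y p.1 p.2 := by
  have hc := h.std.crv
  have hx' := h.std.range_not h.hx
  have hy' := h.std.range_not h.hy
  obtain ⟨t, hr, hl, -, hfr⟩ := h.limit (s₁ := s) (Filter.Eventually.of_forall h.vis_univ)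
  refine ⟨t, hr, ?_, hfr.mono fun p hp => ⟨hp.1, hp.2.1⟩⟩
  exact lt_of_le_of_ne hl (hc.lam_ne_of_nn hx' hy' hr (h.nn_neg s) (h.nn_neg' hxy t)).symm

/-- the second reflection point is unique. -/
theorem Foc.unique (h : Foc c T Ω x y N) {s t t' : ℝ} (h1 : Rel c x y s t)
    (h2 : 0 < lam c x s t) (h3 : Rel c x y s t') (h4 : 0 < lam c x s t') : c t = c t' := by
  have hc := h.std.crv
  have hx' := h.std.range_not h.hx
  have key : ∀ t t' : ℝ, Rel c x y s t → 0 < lam c x s t → Rel c x y s t' →
      ¬ lam c x s t < lam c x s t' := by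
    intro t t' h1 h2 h3 hlt
    have e1 := hc.rel_sub hx' h1
    have e2 := hc.rel_sub hx' h3
    have hne1 : c s ≠ c t := by
      intro h0
      rw [h0, sub_self] at e1
      have := mul_eq_zero.mp e1.symm
      rcases this with h5 | h5
      · exact h2.ne' (by exact_mod_cast h5)
      · exact hc.ee_ne hx' s h5
    have e3 : c t' - c t = ((lam c x s t' - lam c x s t : ℝ) : ℂ) * ee c x s := by
      push_cast
      linear_combination e2 - e1
    have hne2 : c t' ≠ c t := by
      intro h0
      rw [h0, sub_self] at e3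
      rcases mul_eq_zero.mp e3.symm with h5 | h5
      · have : lam c x s t' - lam c x s t = 0 := by exact_mod_cast h5
        linarith
      · exact hc.ee_ne hx' s h5
    have p1 := h.convex hne1
    have p2 := h.convex hne2
    have e4 : conj (deriv c t) * (c s - c t) =
        ((-lam c x s t : ℝ) : ℂ) * (conj (deriv c t) * ee c x s) := by
      have : c s - c t = -((lam c x s t : ℂ) * ee c x s) := by rw [← e1]; ring
      rw [this]; push_cast; ring
    have e5 : conj (deriv c t) * (c t' - c t) =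
        ((lam c x s t' - lam c x s t : ℝ) : ℂ) * (conj (deriv c t) * ee c x s) := by
      rw [e3]; ring
    rw [e4, Complex.im_ofReal_mul] at p1
    rw [e5, Complex.im_ofReal_mul] at p2
    have p3 : 0 < (conj (deriv c t) * ee c x s).im := by
      by_contra hneg
      push Not at hneg
      nlinarith
    nlinarith
  have hle : lam c x s t = lam c x s t' :=
    le_antisymm (not_lt.mp (key t' t h3 h4 h1)) (not_lt.mp (key t t' h1 h2 h3))
  have e1 := hc.rel_sub hx' h1
  have e2 := hc.rel_sub hx' h3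
  rw [hle, ← e2] at e1
  linear_combination e1

theorem Lam_congr {s t t' : ℝ} (ht : c t = c t') : Lam c x y s t = Lam c x y s t' := by
  unfold Lam lam rho
  rw [ht]

/-- all trajectories have the same length. -/
theorem Foc.const (h : Foc c T Ω x y N) (hxy : x ≠ y) :
    ∃ L : ℝ, ∀ s t, Rel c x y s t → 0 < lam c x s t → Lam c x y s t = L := by
  have hc := h.std.crv
  have hx' := h.std.range_not h.hx
  have hy' := h.std.range_not h.hy
  choose p hp1 hp2 hp3 using h.partner hxy
  have hloc : IsLocallyConstant (fun s => Lam c x y s (p s)) := by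
    rw [IsLocallyConstant.iff_eventually_eq]
    intro s₁
    have hreg : Reg c y (p s₁) := fun h0 => (h.nn_neg' hxy (p s₁)).ne h0.2
    obtain ⟨θ, hθ, hθ0, hθr, -⟩ := analytic_branch (hc.an_LL hx' s₁)
      (hc.an_LL hy' (p s₁)).neg (hc.deriv_LL_ne hy' hreg) (rel_iff_LL.mp (hp1 s₁))
      ((hp3 s₁).mono fun q hq => ⟨hq.1, rel_iff_LL.mp hq.2⟩)
    have hrel : ∀ᶠ s in 𝓝 s₁, Rel c x y s (θ s) := hθr.mono fun s hs => rel_iff_LL.mpr hs
    have hL := hc.Lam_const hx' hy' hθ hrel
    have hl : ∀ᶠ s in 𝓝 s₁, 0 < lam c x s (θ s) := by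
      have hcont : ContinuousAt (fun s => lam c x s (θ s)) s₁ := (hc.an_lam hx' hθ).continuousAt
      refine hcont.eventually_const_lt ?_
      simp only [hθ0]
      exact hp2 s₁
    filter_upwards [hrel, hL, hl] with s a1 a2 a3
    have e1 : Lam c x y s (p s) = Lam c x y s (θ s) :=
      Lam_congr (h.unique (hp1 s) (hp2 s) a1 a3)
    rw [e1, a2, hθ0]
  refine ⟨Lam c x y 0 (p 0), fun s t hr hl => ?_⟩
  have e1 : Lam c x y s t = Lam c x y s (p s) := Lam_congr (h.unique hr hl (hp1 s) (hp2 s))
  rw [e1]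
  exact hloc.apply_eq_of_isPreconnected isPreconnected_univ (Set.mem_univ _) (Set.mem_univ _)

/-- length of the broken line `x, c s, c t, y`. -/
noncomputable def MM (c : ℝ → ℂ) (x y : ℂ) (s t : ℝ) : ℝ := ‖c s - x‖ + ‖c t - c s‖ + ‖c t - y‖

theorem Crv.MM_eq (hc : Crv c T) (hx : x ∉ Set.range c) {s t : ℝ} (hr : Rel c x y s t)
    (hl : 0 < lam c x s t) : MM c x y s t = Lam c x y s t := by
  have h1 := hc.rel_sub hx hr
  unfold MM Lam
  rw [h1, norm_mul, hc.norm_ee hx, mul_one, Complex.norm_real, Real.norm_of_nonneg hl.le]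
  rfl

/-- derivative of the distance to a fixed point. -/
theorem Crv.hd_norm (hc : Crv c T) {z : ℂ} {s : ℝ} (hz : c s ≠ z) :
    HasDerivAt (fun s => ‖c s - z‖)
      ((conj (deriv c s) * ((c s - z) / (‖c s - z‖ : ℂ))).re) s := by
  have h0 : c s - z ≠ 0 := sub_ne_zero.mpr hz
  have h1 : HasDerivAt (fun s => c s - z) (deriv c s) s := (hc.hd s).sub_const z
  have h2 := h1.norm_sq
  have h3 := h2.sqrt (by positivity)
  have e1 : (fun s => √(‖c s - z‖ ^ 2)) = fun s => ‖c s - z‖ := by
    funext s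
    rw [Real.sqrt_sq (norm_nonneg _)]
  have e2 : 2 * inner ℝ (c s - z) (deriv c s) / (2 * √(‖c s - z‖ ^ 2)) =
      (conj (deriv c s) * ((c s - z) / (‖c s - z‖ : ℂ))).re := by
    rw [Real.sqrt_sq (norm_nonneg _), Complex.inner]
    have hr : ‖c s - z‖ ≠ 0 := norm_ne_zero_iff.mpr h0
    have : conj (deriv c s) * ((c s - z) / (‖c s - z‖ : ℂ)) =
        (conj (deriv c s) * (c s - z)) / (‖c s - z‖ : ℂ) := by ring
    rw [this, Complex.div_ofReal_re]
    have e3 : (conj (deriv c s) * (c s - z)).re = (deriv c s * conj (c s - z)).re := by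
      simp only [Complex.mul_re, Complex.conj_re, Complex.conj_im]; ring
    rw [e3]
    field_simp
  rw [e1, e2] at h3
  exact h3

/-- a unit vector on the inner side with the same tangential component is the reflected one. -/
theorem Foc.refl_unique (h : Foc c T Ω x y N) {z w : ℂ} {s : ℝ} (hz : z ∉ Set.range c)
    (hn : nn c z s < 0) (hw : ‖w‖ = 1) (hre : (conj (deriv c s) * w).re = chi c z s)
    (him : 0 < (conj (deriv c s) * w).im) : w = ee c z s := by
  have hc := h.std.crv
  have e1 : (conj (deriv c s) * w).re ^ 2 + (conj (deriv c s) * w).im ^ 2 =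
      chi c z s ^ 2 + nn c z s ^ 2 := by
    have a1 : ‖conj (deriv c s) * w‖ = ‖bb c z s‖ := by
      rw [norm_mul, hw, mul_one, Complex.norm_conj, hc.norm_bb hz]
    have a2 : Complex.normSq (conj (deriv c s) * w) = Complex.normSq (bb c z s) := by
      rw [Complex.normSq_eq_norm_sq, Complex.normSq_eq_norm_sq, a1]
    rw [Complex.normSq_apply, Complex.normSq_apply] at a2
    unfold chi nn
    linarith
  rw [hre] at e1
  have e2 : (conj (deriv c s) * w).im = - nn c z s := by
    have : ((conj (deriv c s) * w).im - (- nn c z s)) *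
        ((conj (deriv c s) * w).im + (- nn c z s)) = 0 := by linear_combination e1
    rcases mul_eq_zero.mp this with h1 | h1
    · linarith
    · linarith
  have e3 : conj (deriv c s) * w = conj (bb c z s) := by
    apply Complex.ext
    · rw [hre, Complex.conj_re]; rfl
    · rw [e2, Complex.conj_im]; rfl
  have hn' := hc.conj_deriv_ne s
  unfold ee
  unfold bb at e3
  rw [map_mul, Complex.conj_conj] at e3
  field_simp
  linear_combination e3

/-- a maximum of the length of broken lines is a trajectory. -/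
theorem Foc.max_rel (h : Foc c T Ω x y N) (hxy : x ≠ y) {a b : ℝ}
    (hmax : ∀ s t, MM c x y s t ≤ MM c x y a b) : Rel c x y a b ∧ 0 < lam c x a b := by
  have hc := h.std.crv
  have hx' := h.std.range_not h.hx
  have hy' := h.std.range_not h.hy
  have hab : c b ≠ c a := by
    intro hab
    -- move the second point
    have hny := h.nn_neg' hxy b
    have h1 : HasDerivAt (fun t => ‖c t - y‖) (chi c y b) b := hc.hd_rho hy' b
    have h2 : Tendsto (fun t => slope (fun t => ‖c t - y‖) b t) (𝓝[>] b) (𝓝 (chi c y b)) :=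
      (hasDerivWithinAt_iff_tendsto_slope' (by simp)).mp h1.hasDerivWithinAt
    have h3 : Tendsto (fun t => ‖slope c b t‖) (𝓝[>] b) (𝓝 ‖deriv c b‖) :=
      ((hasDerivWithinAt_iff_tendsto_slope' (by simp)).mp (hc.hd b).hasDerivWithinAt).norm
    have h4 : -‖deriv c b‖ < chi c y b := by
      have a1 : chi c y b ^ 2 + nn c y b ^ 2 = ‖deriv c b‖ ^ 2 := by
        have a2 := hc.norm_bb hy' b
        rw [← a2, ← Complex.normSq_eq_norm_sq, Complex.normSq_apply]
        unfold chi nn
        ring
      have a3 : 0 < nn c y b ^ 2 := by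
        have := mul_pos_of_neg_of_neg hny hny
        rw [sq]; exact this
      have a4 : |chi c y b| < ‖deriv c b‖ := by
        apply lt_of_pow_lt_pow_left₀ 2 (norm_nonneg _)
        rw [sq_abs]
        linarith
      exact (abs_lt.mp a4).1
    have h5 : 0 < ‖deriv c b‖ + chi c y b := by linarith
    have h6 := (h3.add h2).eventually_const_lt h5
    obtain ⟨t, ht1, ht2⟩ := (h6.and self_mem_nhdsWithin).exists
    have ht3 : b < t := ht2
    have h7 := hmax a t
    unfold MM at h7
    rw [hab, sub_self, norm_zero] at h7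
    have h8 : ‖slope c b t‖ = ‖c t - c a‖ / (t - b) := by
      rw [slope_def_module, norm_smul, norm_inv, Real.norm_of_nonneg (sub_pos.mpr ht3).le, hab]
      field_simp
    rw [h8, slope_def_field, ← add_div, div_pos_iff_of_pos_right (sub_pos.mpr ht3), hab] at ht1
    linarith
  -- critical point equations
  have hℓ : 0 < ‖c b - c a‖ := norm_pos_iff.mpr (sub_ne_zero.mpr hab)
  have hℓ' : ((‖c b - c a‖ : ℝ) : ℂ) ≠ 0 := by exact_mod_cast hℓ.ne'
  set w : ℂ := (c b - c a) / (‖c b - c a‖ : ℂ) with hw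
  have hwn : ‖w‖ = 1 := by
    rw [hw, norm_div, Complex.norm_real, norm_norm, div_self hℓ.ne']
  have hws : (c a - c b) / (‖c a - c b‖ : ℂ) = -w := by
    rw [hw, norm_sub_rev (c a) (c b), ← neg_div, neg_sub]
  have hma : IsLocalMax (fun s => MM c x y s b) a :=
    Filter.Eventually.of_forall fun s => hmax s b
  have hmb : IsLocalMax (fun t => MM c x y a t) b :=
    Filter.Eventually.of_forall fun t => hmax a t
  have d1 : HasDerivAt (fun s => MM c x y s b) (chi c x a + (conj (deriv c a) * (-w)).re) a := by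
    have e1 := hc.hd_norm hab.symm
    rw [hws] at e1
    have e2 : (fun s => MM c x y s b) = fun s => (rho c x s + ‖c s - c b‖) + ‖c b - y‖ := by
      funext s
      unfold MM rho
      rw [norm_sub_rev (c s) (c b)]
    rw [e2]
    exact ((hc.hd_rho hx' a).add e1).add_const _
  have d2 : HasDerivAt (fun t => MM c x y a t) ((conj (deriv c b) * w).re + chi c y b) b := by
    have e1 := hc.hd_norm hab
    have e2 : (fun t => MM c x y a t) = fun t => (‖c a - x‖ + ‖c t - c a‖) + rho c y t := by
      funext t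
      rfl
    rw [e2]
    exact (e1.const_add _).add (hc.hd_rho hy' b)
  have f1 := hma.hasDerivAt_eq_zero d1
  have f2 := hmb.hasDerivAt_eq_zero d2
  have i1 : 0 < (conj (deriv c a) * w).im := by
    have e1 : conj (deriv c a) * (c b - c a) = ((‖c b - c a‖ : ℝ) : ℂ) * (conj (deriv c a) * w) := by
      rw [hw]; field_simp
    have e2 := h.convex hab
    rw [e1, Complex.im_ofReal_mul] at e2
    exact pos_of_mul_pos_right e2 hℓ.le |> fun h => h
  have i2 : 0 < (conj (deriv c b) * (-w)).im := by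
    have e1 : conj (deriv c b) * (c a - c b) =
        ((‖c b - c a‖ : ℝ) : ℂ) * (conj (deriv c b) * (-w)) := by
      rw [hw]; field_simp; ring
    have e2 := h.convex hab.symm
    rw [e1, Complex.im_ofReal_mul] at e2
    exact pos_of_mul_pos_right e2 hℓ.le |> fun h => h
  have w1 : w = ee c x a := by
    apply h.refl_unique hx' (h.nn_neg a) hwn _ i1
    rw [mul_neg, Complex.neg_re] at f1
    linarith
  have w2 : -w = ee c y b := by
    apply h.refl_unique hy' (h.nn_neg' hxy b) (by rw [norm_neg, hwn]) _ i2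
    rw [mul_neg, Complex.neg_re]
    linarith
  have hdiff : c b - c a = ((‖c b - c a‖ : ℝ) : ℂ) * w := by
    rw [hw]; field_simp
  have hww : conj w * w = 1 := by
    rw [w1]; exact hc.conj_mul_self_ee hx' a
  refine ⟨⟨?_, ?_⟩, ?_⟩
  · rw [← w1, ← w2, neg_neg]
  · unfold mu
    rw [← w1, ← w2, map_neg, neg_mul, Complex.neg_im, neg_neg]
    have : conj w * c b = conj w * c a + ((‖c b - c a‖ : ℝ) : ℂ) := by
      linear_combination conj w * hdiff + ((‖c b - c a‖ : ℝ) : ℂ) * hww
    rw [this, Complex.add_im, Complex.ofReal_im, add_zero]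
  · unfold lam
    rw [← w1]
    have : conj w * (c b - c a) = ((‖c b - c a‖ : ℝ) : ℂ) := by
      linear_combination conj w * hdiff + ((‖c b - c a‖ : ℝ) : ℂ) * hww
    rw [this, Complex.ofReal_re]
    exact hℓ

/-- the focusing data is contradictory. -/
theorem Foc.false (h : Foc c T Ω x y N) (hxy : x ≠ y) : False := by
  have hc := h.std.crv
  have hx' := h.std.range_not h.hx
  have hy' := h.std.range_not h.hy
  obtain ⟨L, hL⟩ := h.const hxy
  -- maximum of the length
  have hcont : Continuous (fun p : ℝ × ℝ => MM c x y p.1 p.2) := by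
    have := hc.cont
    unfold MM
    fun_prop
  obtain ⟨⟨a, b⟩, -, hmax⟩ := ((isCompact_Icc (a := (0:ℝ)) (b := T)).prod
    (isCompact_Icc (a := (0:ℝ)) (b := T))).exists_isMaxOn
    ⟨(0, 0), ⟨⟨le_refl _, hc.hT.le⟩, ⟨le_refl _, hc.hT.le⟩⟩⟩ hcont.continuousOn
  have hmax' : ∀ s t, MM c x y s t ≤ MM c x y a b := by
    intro s t
    obtain ⟨m, hm⟩ := hc.shift 0 s
    obtain ⟨n, hn⟩ := hc.shift 0 t
    rw [zero_add] at hm hn
    have h1 : MM c x y (s + m * T) (t + n * T) ≤ MM c x y a b :=
      hmax (show ((s + m * T, t + n * T) : ℝ × ℝ) ∈ _ from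
        ⟨⟨hm.1, hm.2.le⟩, ⟨hn.1, hn.2.le⟩⟩)
    unfold MM at h1 ⊢
    rwa [hc.pc_int, hc.pc_int] at h1
  obtain ⟨hr, hl⟩ := h.max_rel hxy hmax'
  have hLmax : ∀ s t, MM c x y s t ≤ L := by
    intro s t
    refine (hmax' s t).trans ?_
    rw [hc.MM_eq hx' hr hl, hL a b hr hl]
  -- the ray pointing away from `y`
  obtain ⟨r, hr0, s, hs, -⟩ := h.std.hit h.hx (sub_ne_zero.mpr hxy)
  obtain ⟨t, ht, hlt, -⟩ := h.partner hxy s
  have e1 : MM c x y s t = L := by rw [hc.MM_eq hx' ht hlt, hL s t ht hlt]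
  have e2 := hLmax t s
  rw [← e1] at e2
  unfold MM at e2
  have e3 : ‖c s - x‖ = r * ‖x - y‖ := by
    rw [hs, add_sub_cancel_left, norm_mul, Complex.norm_real, Real.norm_of_nonneg hr0.le]
  have e4 : ‖c s - y‖ = (1 + r) * ‖x - y‖ := by
    have : c s - y = ((1 + r : ℝ) : ℂ) * (x - y) := by rw [hs]; push_cast; ring
    rw [this, norm_mul, Complex.norm_real, Real.norm_of_nonneg (by linarith)]
  have e5 : ‖c t - c s‖ = ‖c s - c t‖ := norm_sub_rev _ _
  have e6 : ‖(c t - x) + (x - y)‖ = ‖c t - x‖ + ‖x - y‖ := by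
    apply le_antisymm (norm_add_le _ _)
    have : (c t - x) + (x - y) = c t - y := by ring
    rw [this]
    rw [e3, e4, e5] at e2
    linarith
  have e7 := sameRay_iff_norm_add.mpr e6
  have hctx : c t - x ≠ 0 := by
    rw [sub_ne_zero]
    intro h0
    exact hx' ⟨t, h0⟩
  have e8 := (sameRay_iff_inv_norm_smul_eq_of_ne hctx (sub_ne_zero.mpr hxy)).mp e7
  have e9 : uu c x t = uu c x s := by
    have a1 : uu c x t = (‖c t - x‖)⁻¹ • (c t - x) := by
      unfold uu rho
      rw [Complex.real_smul, Complex.ofReal_inv]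
      ring
    have hd : ‖x - y‖ ≠ 0 := norm_ne_zero_iff.mpr (sub_ne_zero.mpr hxy)
    have a2 : uu c x s = (‖x - y‖)⁻¹ • (x - y) := by
      unfold uu rho
      rw [e3, Complex.real_smul, Complex.ofReal_inv, hs]
      have hd' : ((‖x - y‖ : ℝ) : ℂ) ≠ 0 := by exact_mod_cast hd
      have hr' : (r : ℂ) ≠ 0 := by exact_mod_cast hr0.ne'
      push_cast
      field_simp
      ring
    rw [a1, a2, e8]
  have e10 := h.std.vis_unique h.hx (h.vis_univ t) (h.vis_univ s) e9
  unfold lam at hlt
  rw [e10, sub_self, mul_zero, Complex.zero_re] at hlt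
  exact lt_irrefl _ hlt

end

end Pool.Agent.Lib.MP3080d1
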