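import Pool.Agent.Lib.MP_3080d1_gt.Branch

set_option autoImplicit false

namespace Pool.Agent.Lib.MP3080d1

open Complex ComplexConjugate Filter Topology

/-- the family of reflected lines is immersed at `s`. -/
def Reg (c : ℝ → ℂ) (z : ℂ) (s : ℝ) : Prop := ¬ (om c z s = 0 ∧ nn c z s = 0)

/-- `(s, t)` lies on an analytic branch of the relation with negative slope. -/
def Good (c : ℝ → ℂ) (x y : ℂ) (L s t : ℝ) : Prop :=
  ∃ θ : ℝ → ℝ, AnalyticAt ℝ θ s ∧ θ s = t ∧ (∀ᶠ s' in 𝓝 s, Rel c x y s' (θ s')) ∧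
    deriv θ s < 0 ∧ Reg c x s ∧ Lam c x y s t = L

/-- the reflected line. -/
noncomputable def LL (c : ℝ → ℂ) (z : ℂ) (s : ℝ) : ℂ × ℝ := (ee c z s, mu c z s)

section

variable {c : ℝ → ℂ} {T : ℝ} {x y : ℂ}

theorem rel_iff_LL {s t : ℝ} : Rel c x y s t ↔ LL c x s = - LL c y t := by
  unfold Rel LL
  rw [Prod.neg_mk, Prod.mk.injEq]

theorem Crv.an_LL (hc : Crv c T) {z : ℂ} (hz : z ∉ Set.range c) (s : ℝ) :
    AnalyticAt ℝ (LL c z) s := (hc.an_ee hz s).prod (hc.an_mu hz s)

theorem Crv.ee_ne (hc : Crv c T) {z : ℂ} (hz : z ∉ Set.range c) (s : ℝ) : ee c z s ≠ 0 := by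
  intro h0
  have := hc.norm_ee hz s
  rw [h0, norm_zero] at this
  exact zero_ne_one this

theorem Crv.deriv_LL_ne (hc : Crv c T) {z : ℂ} (hz : z ∉ Set.range c) {s : ℝ}
    (hr : Reg c z s) : deriv (fun t => - LL c z t) s ≠ 0 := by
  have h1 : HasDerivAt (fun t => - LL c z t)
      (-(I * (om c z s : ℝ) * ee c z s, nn c z s - om c z s * (conj (ee c z s) * c s).re)) s :=
    ((hc.hd_ee hz s).prodMk (hc.hd_mu hz s)).fun_neg
  rw [h1.deriv]
  intro h
  rw [neg_eq_zero, Prod.mk_eq_zero] at h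
  obtain ⟨h2, h3⟩ := h
  have h5 : om c z s = 0 := by
    have : (om c z s : ℂ) = 0 := by
      rcases mul_eq_zero.mp h2 with h | h
      · exact (mul_eq_zero.mp h).resolve_left I_ne_zero
      · exact absurd h (hc.ee_ne hz s)
    exact_mod_cast this
  rw [h5, zero_mul, sub_zero] at h3
  exact hr ⟨h5, h3⟩

theorem Crv.isOpen_reg (hc : Crv c T) {z : ℂ} (hz : z ∉ Set.range c) {s : ℝ}
    (hr : Reg c z s) : ∀ᶠ s' in 𝓝 s, Reg c z s' := by
  unfold Reg at *
  by_cases h : om c z s = 0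
  · have h2 : nn c z s ≠ 0 := fun h2 => hr ⟨h, h2⟩
    filter_upwards [(hc.an_nn hz s).continuousAt.eventually_ne h2] with s' hs' h3
    exact hs' h3.2
  · filter_upwards [(hc.an_om hz s).continuousAt.eventually_ne h] with s' hs' h3
    exact hs' h3.1

/-- if the middle leg degenerates, the path is the segment from `x` to `y`. -/
theorem Crv.Lam_of_lam_zero (hc : Crv c T) (hx : x ∉ Set.range c) (hy : y ∉ Set.range c)
    {s t : ℝ} (hr : Rel c x y s t) (h0 : lam c x s t = 0) : Lam c x y s t = ‖x - y‖ := by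
  have h1 := hc.rel_sub hx hr
  rw [h0, Complex.ofReal_zero, zero_mul, sub_eq_zero] at h1
  obtain ⟨m, hm⟩ := hc.inj s t h1.symm
  have he : ee c y t = ee c y s := by
    rw [hm]; exact (hc.pe y).int_mul m s
  have hrho : rho c y t = rho c y s := by
    rw [hm]; exact (hc.prho y).int_mul m s
  have h2 := hr.1
  rw [he] at h2
  have h3 : uu c x s = - uu c y s := by
    have hn := hc.conj_deriv_ne s
    have hn' := hc.reg s
    have h4 : conj (uu c x s) = - conj (uu c y s) := by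
      unfold ee at h2
      have h5 : deriv c s / conj (deriv c s) ≠ 0 := div_ne_zero hn' hn
      apply mul_left_cancel₀ h5
      rw [h2]; ring
    have h6 := congrArg conj h4
    rwa [map_neg, Complex.conj_conj, Complex.conj_conj] at h6
  have h7 := hc.eq_add hx s
  have h8 := hc.eq_add hy s
  have h9 : x - y = ((rho c x s + rho c y s : ℝ) : ℂ) * uu c y s := by
    rw [h3] at h7
    push_cast
    linear_combination h8 - h7
  unfold Lam
  rw [h0, hrho, add_zero, h9, norm_mul, hc.norm_uu hy, mul_one, Complex.norm_real,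
    Real.norm_of_nonneg (add_nonneg (hc.rho_pos hx s).le (hc.rho_pos hy s).le)]

theorem Good.rel {L s t : ℝ} (h : Good c x y L s t) : Rel c x y s t := by
  obtain ⟨θ, -, rfl, h2, -⟩ := h
  exact h2.self_of_nhds

theorem Good.Lam_eq {L s t : ℝ} (h : Good c x y L s t) : Lam c x y s t = L := by
  obtain ⟨θ, -, rfl, -, -, -, h2⟩ := h
  exact h2

/-- the branch through a good pair consists of good pairs. -/
theorem Crv.good_branch (hc : Crv c T) (hx : x ∉ Set.range c) (hy : y ∉ Set.range c)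
    {L s : ℝ} {θ : ℝ → ℝ} (h1 : AnalyticAt ℝ θ s)
    (h2 : ∀ᶠ s' in 𝓝 s, Rel c x y s' (θ s')) (h3 : deriv θ s < 0) (h4 : Reg c x s)
    (h5 : Lam c x y s (θ s) = L) :
    ∀ᶠ s' in 𝓝 s, Good c x y L s' (θ s') := by
  have h6 : ∀ᶠ s' in 𝓝 s, deriv θ s' < 0 := h1.deriv.continuousAt.eventually_lt_const h3
  have h7 : ∀ᶠ s' in 𝓝 s, Lam c x y s' (θ s') = L := by
    have h8 : ∀ᶠ s' in 𝓝 s, HasDerivAt (fun s => Lam c x y s (θ s)) 0 s' := by
      filter_upwards [h1.eventually_analyticAt, h2] with s' h hr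
      exact hc.hd_Lam hx hy h.differentiableAt.hasDerivAt hr
    obtain ⟨ε, hε, hball⟩ := Metric.eventually_nhds_iff_ball.mp h8
    filter_upwards [Metric.ball_mem_nhds s hε] with s' hs'
    rw [← h5]
    have h9 := (convex_ball s ε).is_const_of_fderivWithin_eq_zero (𝕜 := ℝ)
      (f := fun s => Lam c x y s (θ s))
      (fun p hp => (hball p hp).differentiableAt.differentiableWithinAt)
      (fun p hp => by
        rw [fderivWithin_of_isOpen Metric.isOpen_ball hp]
        have := (hball p hp).hasFDerivAt.fderiv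
        rw [this]
        ext
        simp)
      hs' (Metric.mem_ball_self hε)
    exact h9
  filter_upwards [h1.eventually_analyticAt, h2.eventually_nhds, h6, h7, hc.isOpen_reg hx h4]
    with s' g1 g2 g3 g4 g5
  exact ⟨θ, g1, rfl, g2, g3, g5, g4⟩

/-- near a good pair there are good pairs avoiding given coordinates. -/
theorem Crv.good_move (hc : Crv c T) (hx : x ∉ Set.range c) (hy : y ∉ Set.range c)
    {L s t : ℝ} (h : Good c x y L s t) (a b : ℝ) :
    ∃ᶠ p : ℝ × ℝ in 𝓝 (s, t), p.1 ≠ a ∧ p.2 ≠ b ∧ Good c x y L p.1 p.2 := by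
  obtain ⟨θ, h1, rfl, h2, h3, h4, h5⟩ := h
  have h6 := hc.good_branch hx hy h1 h2 h3 h4 h5
  have h7 : Tendsto (fun s' => (s', θ s')) (𝓝[≠] s) (𝓝 (s, θ s)) :=
    (continuousAt_id.prodMk h1.continuousAt).tendsto.mono_left nhdsWithin_le_nhds
  apply h7.frequently
  apply Filter.Eventually.frequently
  have h8 : ∀ᶠ s' in 𝓝[≠] s, θ s' ≠ b :=
    h1.differentiableAt.hasDerivAt.eventually_ne h3.ne
  have h9 : ∀ᶠ s' in 𝓝[≠] s, s' ≠ a := by
    have := (hasDerivAt_id s).eventually_ne (c := a) one_ne_zero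
    exact this
  filter_upwards [h8, h9, h6.filter_mono nhdsWithin_le_nhds] with s' g1 g2 g3
  exact ⟨g2, g1, g3⟩

theorem frequently_frequently {X : Type*} [TopologicalSpace X] {a : X} {P Q : X → Prop}
    (h : ∃ᶠ p in 𝓝 a, P p) (h2 : ∀ p, P p → ∃ᶠ q in 𝓝 p, Q q) : ∃ᶠ q in 𝓝 a, Q q := by
  rw [frequently_nhds_iff] at h ⊢
  intro U hU hUo
  obtain ⟨p, hp, hP⟩ := h U hU hUo
  have h3 := h2 p hP
  rw [frequently_nhds_iff] at h3
  exact h3 U hp hUo

/-- the set of good pairs is closed. -/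
theorem Crv.good_closed (hc : Crv c T) (hx : x ∉ Set.range c) (hy : y ∉ Set.range c)
    {L : ℝ} (hL : ‖x - y‖ < L) {s₀ t₀ : ℝ}
    (h : ∃ᶠ p : ℝ × ℝ in 𝓝 (s₀, t₀), Good c x y L p.1 p.2) : Good c x y L s₀ t₀ := by
  have hcr : ∀ {z : ℂ}, z ∉ Set.range c → Continuous (rho c z) := fun hz =>
    continuous_iff_continuousAt.mpr fun s => (hc.an_rho hz s).continuousAt
  have hce : ∀ {z : ℂ}, z ∉ Set.range c → Continuous (ee c z) := fun hz =>
    continuous_iff_continuousAt.mpr fun s => (hc.an_ee hz s).continuousAt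
  have hcm : ∀ {z : ℂ}, z ∉ Set.range c → Continuous (mu c z) := fun hz =>
    continuous_iff_continuousAt.mpr fun s => (hc.an_mu hz s).continuousAt
  have hcc : Continuous c := continuous_iff_continuousAt.mpr fun s => (hc.an s).continuousAt
  have hclam : Continuous (fun p : ℝ × ℝ => lam c x p.1 p.2) := by
    exact Complex.continuous_re.comp ((Complex.continuous_conj.comp
      ((hce hx).comp continuous_fst)).mul ((hcc.comp continuous_snd).sub (hcc.comp continuous_fst)))
  have hcLam : Continuous (fun p : ℝ × ℝ => Lam c x y p.1 p.2) := by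
    exact (((hcr hx).comp continuous_fst).add hclam).add ((hcr hy).comp continuous_snd)
  have hrel0 : Rel c x y s₀ t₀ := by
    have hcl : IsClosed {p : ℝ × ℝ | Rel c x y p.1 p.2} := by
      have e1 := hce hx
      have e2 := hce hy
      have e3 := hcm hx
      have e4 := hcm hy
      exact (isClosed_eq (by fun_prop) (by fun_prop)).and
        (isClosed_eq (by fun_prop) (by fun_prop))
    exact isClosed_iff_frequently.mp hcl _ (h.mono fun p hp => hp.rel)
  have hLam0 : Lam c x y s₀ t₀ = L := by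
    have hcl : IsClosed {p : ℝ × ℝ | Lam c x y p.1 p.2 = L} :=
      isClosed_eq hcLam continuous_const
    exact isClosed_iff_frequently.mp hcl _ (h.mono fun p hp => hp.Lam_eq)
  have hlam0 : lam c x s₀ t₀ ≠ 0 := by
    intro h0
    have := hc.Lam_of_lam_zero hx hy hrel0 h0
    linarith
  have hfr : ∃ᶠ p : ℝ × ℝ in 𝓝 (s₀, t₀), p.1 ≠ s₀ ∧ p.2 ≠ t₀ ∧ Good c x y L p.1 p.2 :=
    frequently_frequently h fun p hp => hc.good_move hx hy hp s₀ t₀
  by_cases hry : Reg c y t₀
  · -- the second family is immersed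
    obtain ⟨θ, hθ, hθ0, hθr, hθu⟩ := analytic_branch (hc.an_LL hx s₀)
      (hc.an_LL hy t₀).neg (hc.deriv_LL_ne hy hry) (rel_iff_LL.mp hrel0)
      (hfr.mono fun p hp => ⟨hp.1, rel_iff_LL.mp hp.2.2.rel⟩)
    have hrel : ∀ᶠ s in 𝓝 s₀, Rel c x y s (θ s) := hθr.mono fun s hs => rel_iff_LL.mpr hs
    by_cases hrx : Reg c x s₀
    · refine ⟨θ, hθ, hθ0, hrel, ?_, hrx, hLam0⟩
      have hne : deriv θ s₀ ≠ 0 := by
        intro h0
        obtain ⟨e1, e2⟩ := hc.branch_deriv hx hy hθ.differentiableAt.hasDerivAt hrel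
        rw [h0, zero_mul] at e1
        rw [h0, e1, zero_mul, mul_zero, add_zero, add_zero] at e2
        exact hrx ⟨e1, e2⟩
      have hle : ∃ᶠ s in 𝓝 s₀, deriv θ s < 0 := by
        have h1 : ∃ᶠ p : ℝ × ℝ in 𝓝 (s₀, t₀), deriv θ p.1 < 0 := by
          refine (h.and_eventually (hθu.eventually_nhds)).mono ?_
          rintro p ⟨⟨φ, g1, g2, g3, g4, -, -⟩, hp⟩
          have h2 : φ =ᶠ[𝓝 p.1] θ := by
            have h3 : Tendsto (fun s => (s, φ s)) (𝓝 p.1) (𝓝 p) := by
              have := (continuousAt_id (x := p.1)).prodMk g1.continuousAt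
              have h4 := this.tendsto
              simp only [id, g2] at h4
              exact h4
            filter_upwards [h3.eventually hp, g3] with s hs1 hs2
            exact hs1 (rel_iff_LL.mp hs2)
          rw [← h2.deriv_eq]
          exact g4
        exact (continuous_fst.tendsto' (s₀, t₀) s₀ rfl).frequently h1
      rcases lt_or_gt_of_ne hne with h1 | h1
      · exact h1
      · exfalso
        have h2 : ∀ᶠ s in 𝓝 s₀, 0 < deriv θ s := hθ.deriv.continuousAt.eventually_const_lt h1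
        obtain ⟨s, hs1, hs2⟩ := (hle.and_eventually h2).exists
        exact lt_asymm hs1 hs2
    · exfalso
      unfold Reg at hrx
      rw [not_not] at hrx
      exact hc.half_singular hx hy hrx.1 hrx.2 hry hθ hθ0 hrel
  · exfalso
    by_cases hrx : Reg c x s₀
    · have hfr' : ∃ᶠ p : ℝ × ℝ in 𝓝 (t₀, s₀), p.1 ≠ t₀ ∧ LL c y p.1 = - LL c x p.2 := by
        have h1 : Tendsto (Prod.swap : ℝ × ℝ → ℝ × ℝ) (𝓝 (s₀, t₀)) (𝓝 (t₀, s₀)) :=
          continuous_swap.tendsto' _ _ rfl
        apply h1.frequently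
        exact hfr.mono fun p hp => ⟨hp.2.1, rel_iff_LL.mp hp.2.2.rel.symm⟩
      obtain ⟨θ, hθ, hθ0, hθr, -⟩ := analytic_branch (hc.an_LL hy t₀)
        (hc.an_LL hx s₀).neg (hc.deriv_LL_ne hx hrx) (rel_iff_LL.mp hrel0.symm) hfr'
      have hrel : ∀ᶠ s in 𝓝 t₀, Rel c y x s (θ s) := hθr.mono fun s hs => rel_iff_LL.mpr hs
      unfold Reg at hry
      rw [not_not] at hry
      exact hc.half_singular hy hx hry.1 hry.2 hrx hθ hθ0 hrel
    · unfold Reg at hrx hry
      rw [not_not] at hrx hry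
      obtain ⟨a1, a2⟩ := hc.ratio_tendsto hx hrx.2
      obtain ⟨b1, b2⟩ := hc.ratio_tendsto hy hry.2
      -- on good pairs the sum vanishes
      have hX : ∀ p : ℝ × ℝ, Good c x y L p.1 p.2 →
          nn c x p.1 * om c y p.2 + nn c y p.2 * om c x p.1 +
            lam c x p.1 p.2 * om c x p.1 * om c y p.2 = 0 := by
        rintro ⟨s, t⟩ ⟨φ, g1, g2, g3, g4, -, -⟩
        simp only at g1 g2 g3 g4 ⊢
        obtain ⟨e1, e2⟩ := hc.branch_deriv hx hy g1.differentiableAt.hasDerivAt g3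
        rw [g2] at e1 e2
        linear_combination om c y t * e2 + nn c y t * e1
      let l : Filter (ℝ × ℝ) := 𝓝 (s₀, t₀) ⊓ 𝓟 {p | p.1 ≠ s₀ ∧ p.2 ≠ t₀}
      have hl1 : Tendsto (fun p : ℝ × ℝ => p.1) l (𝓝[≠] s₀) := by
        apply tendsto_nhdsWithin_iff.mpr
        refine ⟨(continuous_fst.tendsto' (s₀, t₀) s₀ rfl).mono_left inf_le_left, ?_⟩
        exact (mem_inf_of_right (mem_principal_self _)) |> fun h =>
          Filter.mem_of_superset h fun p hp => hp.1
      have hl2 : Tendsto (fun p : ℝ × ℝ => p.2) l (𝓝[≠] t₀) := by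
        apply tendsto_nhdsWithin_iff.mpr
        refine ⟨(continuous_snd.tendsto' (s₀, t₀) t₀ rfl).mono_left inf_le_left, ?_⟩
        exact (mem_inf_of_right (mem_principal_self _)) |> fun h =>
          Filter.mem_of_superset h fun p hp => hp.2
      have hlim : Tendsto (fun p : ℝ × ℝ => nn c x p.1 / om c x p.1 + nn c y p.2 / om c y p.2 +
          lam c x p.1 p.2) l (𝓝 (0 + 0 + lam c x s₀ t₀)) :=
        ((a2.comp hl1).add (b2.comp hl2)).add
          ((hclam.tendsto (s₀, t₀)).mono_left inf_le_left)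
      rw [add_zero, zero_add] at hlim
      have hne : ∀ᶠ p in l, nn c x p.1 / om c x p.1 + nn c y p.2 / om c y p.2 +
          lam c x p.1 p.2 ≠ 0 := hlim.eventually_ne hlam0
      have hne2 := hne.and ((hl1.eventually a1).and (hl2.eventually b1))
      rw [Filter.eventually_inf_principal] at hne2
      obtain ⟨p, ⟨hp1, hp2, hp3⟩, hp4⟩ := (hfr.and_eventually hne2).exists
      obtain ⟨q1, q2, q3⟩ := hp4 ⟨hp1, hp2⟩
      apply q1
      have := hX p hp3
      field_simp
      linear_combination this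

/-- Lemma N: no branch of negative slope. -/
theorem Crv.no_good (hc : Crv c T) (hx : x ∉ Set.range c) (hy : y ∉ Set.range c)
    {L : ℝ} (hL : ‖x - y‖ < L) (s t : ℝ) : ¬ Good c x y L s t := by
  intro h
  -- periodicity
  obtain ⟨t', hst, h⟩ : ∃ t', s ≤ t' ∧ Good c x y L s t' := by
    obtain ⟨m, hm⟩ : ∃ m : ℤ, (s - t) / T ≤ m := ⟨_, Int.le_ceil _⟩
    refine ⟨t + m * T, ?_, ?_⟩
    · rw [div_le_iff₀ hc.hT] at hm
      linarith
    · obtain ⟨θ, h1, rfl, h2, h3, h4, h5⟩ := h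
      refine ⟨fun s => θ s + m * T, h1.add analyticAt_const, rfl, ?_, ?_, h4, ?_⟩
      · filter_upwards [h2] with s' hs'
        refine ⟨?_, ?_⟩
        · rw [hs'.1, (hc.pe y).int_mul m]
        · rw [hs'.2, (hc.pmu y).int_mul m]
      · rw [deriv_add_const]; exact h3
      · rw [← h5]
        unfold Lam lam
        rw [(hc.prho y).int_mul m, hc.pc.int_mul m]
  let K : Set (ℝ × ℝ) := Set.Icc s t' ×ˢ Set.Icc s t' ∩ {p | p.1 ≤ p.2}
  have hKc : IsCompact K :=
    (isCompact_Icc.prod isCompact_Icc).inter_right (isClosed_le continuous_fst continuous_snd)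
  let S : Set (ℝ × ℝ) := K ∩ {p | Good c x y L p.1 p.2}
  have hScl : IsClosed {p : ℝ × ℝ | Good c x y L p.1 p.2} := by
    rw [isClosed_iff_frequently]
    rintro ⟨a, b⟩ hab
    exact hc.good_closed hx hy hL hab
  have hS : IsCompact S := hKc.inter_right hScl
  have hne : S.Nonempty := ⟨(s, t'), ⟨⟨⟨le_refl s, hst⟩, ⟨hst, le_refl t'⟩⟩, hst⟩, h⟩
  obtain ⟨⟨a, b⟩, ⟨⟨⟨ha, hb⟩, hab⟩, hgood⟩, hmin⟩ :=
    hS.exists_isMinOn hne (f := fun p : ℝ × ℝ => p.2 - p.1) (by fun_prop)
  simp only [Set.mem_ofPred_eq] at hab hgood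
  have hab' : a < b := by
    rcases hab.lt_or_eq with h1 | h1
    · exact h1
    · exfalso
      subst h1
      have h2 : lam c x a a = 0 := by
        unfold lam
        simp
      have h3 := hc.Lam_of_lam_zero hx hy hgood.rel h2
      rw [hgood.Lam_eq] at h3
      linarith
  obtain ⟨θ, h1, rfl, h2, h3, h4, h5⟩ := hgood
  have h6 := hc.good_branch hx hy h1 h2 h3 h4 h5
  have hda := h1.differentiableAt.hasDerivAt
  have h7 : ∀ᶠ s' in 𝓝[>] a, θ s' < θ a := by
    have := hda.hasDerivWithinAt (s := Set.Ioi a)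
    have h8 := (hasDerivWithinAt_iff_tendsto_slope' (by simp)).mp this
    have h9 := h8.eventually_lt_const h3
    filter_upwards [h9, self_mem_nhdsWithin] with s' g1 g2
    rw [slope_def_field, div_lt_iff₀ (sub_pos.mpr g2), zero_mul] at g1
    linarith
  have h8 : ∀ᶠ s' in 𝓝 a, s' < θ s' :=
    (continuousAt_id.prodMk h1.continuousAt).eventually
      (isOpen_lt continuous_fst continuous_snd |>.mem_nhds hab')
  obtain ⟨s', ⟨g1, g2⟩, g3, g4⟩ := ((h7.and (h6.filter_mono nhdsWithin_le_nhds)).and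
    ((h8.filter_mono nhdsWithin_le_nhds).and self_mem_nhdsWithin)).exists
  have hmem : (s', θ s') ∈ S := by
    refine ⟨⟨⟨⟨?_, ?_⟩, ⟨?_, ?_⟩⟩, ?_⟩, g2⟩
    · exact ha.1.trans g4.le
    · exact (g3.le.trans g1.le).trans hb.2
    · exact (ha.1.trans g4.le).trans g3.le
    · exact g1.le.trans hb.2
    · exact g3.le
  have hm : θ a - a ≤ θ s' - s' := hmin hmem
  linarith

end

end Pool.Agent.Lib.MP3080d1
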