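import Pool.Agent.Lib.MP_3080d1_gt.Vis

set_option autoImplicit false

namespace Pool.Agent.Lib.MP3080d1

open Complex ComplexConjugate Filter Topology

theorem countable_of_isolated_pts {S : Set ℝ} (h : ∀ s₀ ∈ S, ∀ᶠ s in 𝓝[≠] s₀, s ∉ S) :
    S.Countable := by
  obtain ⟨t, -, htc, hcov⟩ := TopologicalSpace.countable_cover_nhdsWithin
    (f := fun x : ℝ => ({x} : Set ℝ)) (s := S) (by
      intro x hx
      have h1 := h x hx
      rw [eventually_nhdsWithin_iff] at h1
      rw [← Filter.eventually_mem_set, eventually_nhdsWithin_iff]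
      filter_upwards [h1] with s hs hs2
      by_contra hne
      exact hs hne hs2)
  refine htc.mono ?_
  intro s hs
  have := hcov hs
  rw [Set.mem_iUnion₂] at this
  obtain ⟨i, hi, hi2⟩ := this
  rw [Set.mem_singleton_iff] at hi2
  rw [hi2]; exact hi

section

variable {c : ℝ → ℂ} {T : ℝ} {Ω N : Set ℂ} {x y : ℂ}

theorem Crv.countable_dir (hc : Crv c T) (hx : x ∉ Set.range c) (hN : N.Countable) :
    {s | uu c x s ∈ N}.Countable := by
  have h1 : {s | uu c x s ∈ N} = ⋃ u ∈ N, {s | uu c x s = u} := by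
    ext s; simp
  rw [h1]
  refine hN.biUnion fun u _ => ?_
  apply countable_of_isolated_pts
  intro s₀ _
  by_contra hcon
  rw [not_eventually] at hcon
  simp only [not_not, Set.mem_ofPred_eq] at hcon
  have h2 : ∀ᶠ t in 𝓝 s₀, uu c x t = u :=
    ((hc.an_uu hx s₀).frequently_eq_iff_eventually_eq analyticAt_const).mp hcon
  apply hc.nn_not_zero hx s₀
  filter_upwards [h2.eventually_nhds] with t ht
  have h3 : -(I * (nn c x t / rho c x t : ℝ)) * uu c x t = 0 :=
    ((hc.hd_uu hx t).congr_of_eventuallyEq (f₁ := fun _ => u)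
      (ht.mono fun t h => h.symm)).unique (hasDerivAt_const t u)
  have hu : uu c x t ≠ 0 := by
    intro h0
    have := hc.norm_uu hx t
    rw [h0, norm_zero] at this
    exact zero_ne_one this
  have h4 := (mul_eq_zero.mp h3).resolve_right hu
  rw [neg_eq_zero] at h4
  have h5 := (mul_eq_zero.mp h4).resolve_left I_ne_zero
  have h6 : nn c x t / rho c x t = 0 := by exact_mod_cast h5
  rw [div_eq_zero_iff] at h6
  exact h6.resolve_right (hc.rho_pos hx t).ne'

theorem Crv.countable_nn (hc : Crv c T) (hx : x ∉ Set.range c) :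
    {s | nn c x s = 0}.Countable := by
  apply countable_of_isolated_pts
  intro s₀ _
  rcases (hc.an_nn hx s₀).eventually_eq_zero_or_eventually_ne_zero with h3 | h3
  · exact absurd h3 (hc.nn_not_zero hx s₀)
  · exact h3

theorem Crv.countable_line (hc : Crv c T) (hx : x ∉ Set.range c) (hy : y ∉ Set.range c) :
    {s | ∃ t, nn c y t = 0 ∧ Rel c x y s t}.Countable := by
  have h1 : {s | ∃ t, nn c y t = 0 ∧ Rel c x y s t} =
      ⋃ t ∈ {t | nn c y t = 0}, {s | Rel c x y s t} := by
    ext s; simp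
  rw [h1]
  refine (hc.countable_nn hy).biUnion fun t _ => ?_
  apply countable_of_isolated_pts
  intro s₀ _
  exact hc.line_isolated hx s₀ (- ee c y t) (- mu c y t)

theorem Crv.rel_shift (hc : Crv c T) {s t : ℝ} (m : ℤ) (h : Rel c x y s t) :
    Rel c x y s (t + m * T) := by
  refine ⟨?_, ?_⟩
  · rw [(hc.pe y).int_mul m t]; exact h.1
  · rw [(hc.pmu y).int_mul m t]; exact h.2

theorem Crv.lam_shift (hc : Crv c T) (s t : ℝ) (m : ℤ) :
    lam c x s (t + m * T) = lam c x s t := by
  unfold lam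
  rw [hc.pc_int]

theorem Crv.nn_shift (hc : Crv c T) (t : ℝ) (m : ℤ) : nn c y (t + m * T) = nn c y t :=
  (hc.pn y).int_mul m t

theorem Crv.cont_rho (hc : Crv c T) (hx : x ∉ Set.range c) : Continuous (rho c x) :=
  continuous_iff_continuousAt.mpr fun s => (hc.an_rho hx s).continuousAt

theorem Crv.cont_ee (hc : Crv c T) (hx : x ∉ Set.range c) : Continuous (ee c x) :=
  continuous_iff_continuousAt.mpr fun s => (hc.an_ee hx s).continuousAt

theorem Crv.cont_mu (hc : Crv c T) (hx : x ∉ Set.range c) : Continuous (mu c x) :=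
  continuous_iff_continuousAt.mpr fun s => (hc.an_mu hx s).continuousAt

theorem Crv.cont_nn (hc : Crv c T) (hx : x ∉ Set.range c) : Continuous (nn c x) :=
  continuous_iff_continuousAt.mpr fun s => (hc.an_nn hx s).continuousAt

theorem Crv.cont_om (hc : Crv c T) (hx : x ∉ Set.range c) : Continuous (om c x) :=
  continuous_iff_continuousAt.mpr fun s => (hc.an_om hx s).continuousAt

theorem Crv.cont_lam (hc : Crv c T) (hx : x ∉ Set.range c) :
    Continuous (fun p : ℝ × ℝ => lam c x p.1 p.2) :=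
  Complex.continuous_re.comp ((Complex.continuous_conj.comp
      ((hc.cont_ee hx).comp continuous_fst)).mul
        ((hc.cont.comp continuous_snd).sub (hc.cont.comp continuous_fst)))

theorem Crv.closed_rel (hc : Crv c T) (hx : x ∉ Set.range c) (hy : y ∉ Set.range c) :
    IsClosed {p : ℝ × ℝ | Rel c x y p.1 p.2} :=
  (isClosed_eq ((hc.cont_ee hx).comp continuous_fst)
    ((hc.cont_ee hy).comp continuous_snd).neg).inter
    (isClosed_eq ((hc.cont_mu hx).comp continuous_fst)
    ((hc.cont_mu hy).comp continuous_snd).neg)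

/-- real part of the cosine between incoming and reflected direction. -/
theorem Crv.cos_refl (hc : Crv c T) (hx : x ∉ Set.range c) (s : ℝ) :
    (conj (uu c x s) * ee c x s).re = 1 - 2 * nn c x s ^ 2 / Complex.normSq (deriv c s) := by
  have hpos : 0 < Complex.normSq (deriv c s) := Complex.normSq_pos.mpr (hc.reg s)
  have h1 : conj (uu c x s) * ee c x s = conj (bb c x s) * conj (bb c x s) /
      (Complex.normSq (deriv c s) : ℂ) := by
    have hn := hc.conj_deriv_ne s
    have hn' := hc.reg s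
    rw [← Complex.mul_conj]
    unfold ee bb
    rw [map_mul, Complex.conj_conj]
    field_simp
  rw [h1, Complex.div_ofReal_re]
  have h2 : chi c x s ^ 2 + nn c x s ^ 2 = Complex.normSq (deriv c s) := by
    have h3 := hc.norm_bb hx s
    rw [Complex.normSq_eq_norm_sq, ← h3, ← Complex.normSq_eq_norm_sq, Complex.normSq_apply]
    unfold chi nn
    ring
  have h4 : (conj (bb c x s) * conj (bb c x s)).re = chi c x s ^ 2 - nn c x s ^ 2 := by
    rw [Complex.mul_re, Complex.conj_re, Complex.conj_im]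
    unfold chi nn
    ring
  rw [h4, ← h2]
  have : chi c x s ^ 2 + nn c x s ^ 2 ≠ 0 := by rw [h2]; exact hpos.ne'
  field_simp
  ring

/-- a bent path is longer than the straight one. -/
theorem Crv.Lam_gt (hc : Crv c T) (hx : x ∉ Set.range c) (_ : y ∉ Set.range c) {s t : ℝ}
    (hr : Rel c x y s t) (hl : 0 < lam c x s t) (hn : nn c x s ≠ 0) :
    ‖x - y‖ < Lam c x y s t := by
  have h1 := hc.rel_sub hx hr
  have hrx := hc.rho_pos hx s
  have h2 : c t - x = (rho c x s : ℂ) * uu c x s + (lam c x s t : ℂ) * ee c x s := by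
    have := hc.eq_add hx s
    linear_combination h1 + this
  have h3 : ‖c t - x‖ < rho c x s + lam c x s t := by
    have hpos : 0 < Complex.normSq (deriv c s) := Complex.normSq_pos.mpr (hc.reg s)
    have h4 : (conj (uu c x s) * ee c x s).re < 1 := by
      rw [hc.cos_refl hx s]
      have : 0 < 2 * nn c x s ^ 2 / Complex.normSq (deriv c s) := by positivity
      linarith
    have h5 : ‖c t - x‖ ^ 2 = rho c x s ^ 2 + lam c x s t ^ 2 +
        2 * rho c x s * lam c x s t * (conj (uu c x s) * ee c x s).re := by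
      have hu : (uu c x s).re ^ 2 + (uu c x s).im ^ 2 = 1 := by
        have := hc.norm_uu hx s
        have h6 : Complex.normSq (uu c x s) = 1 := by
          rw [Complex.normSq_eq_norm_sq, this]; norm_num
        rw [Complex.normSq_apply] at h6
        linarith
      have he : (ee c x s).re ^ 2 + (ee c x s).im ^ 2 = 1 := by
        have := hc.norm_ee hx s
        have h6 : Complex.normSq (ee c x s) = 1 := by
          rw [Complex.normSq_eq_norm_sq, this]; norm_num
        rw [Complex.normSq_apply] at h6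
        linarith
      rw [h2, ← Complex.normSq_eq_norm_sq, Complex.normSq_apply]
      simp only [Complex.add_re, Complex.add_im, Complex.ofReal_re, Complex.ofReal_im,
        Complex.mul_re, Complex.mul_im, Complex.conj_re, Complex.conj_im]
      linear_combination rho c x s ^ 2 * hu + lam c x s t ^ 2 * he
    have h6 : ‖c t - x‖ ^ 2 < (rho c x s + lam c x s t) ^ 2 := by
      rw [h5]
      have : 0 < rho c x s * lam c x s t := mul_pos hrx hl
      nlinarith
    exact lt_of_pow_lt_pow_left₀ 2 (by positivity) h6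
  unfold Lam
  have h4 : ‖x - y‖ ≤ ‖c t - x‖ + rho c y t := by
    have : x - y = (c t - y) - (c t - x) := by ring
    rw [this]
    refine (norm_sub_le _ _).trans ?_
    unfold rho
    linarith
  linarith

end

/-- focusing data, in terms of the parameters. -/
structure Foc (c : ℝ → ℂ) (T : ℝ) (Ω : Set ℂ) (x y : ℂ) (N : Set ℂ) : Prop where
  std : Std c T Ω
  hx : x ∈ Ω
  hy : y ∈ Ω
  hN : N.Countable
  star : ∀ s ∈ Vis c Ω x, uu c x s ∉ N → ∃ t, nn c y t ≤ 0 ∧ Rel c x y s t ∧ 0 < lam c x s t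

section

variable {c : ℝ → ℂ} {T : ℝ} {Ω N : Set ℂ} {x y : ℂ}

/-- limits of trajectories. -/
theorem Foc.limit (h : Foc c T Ω x y N) {s₁ : ℝ} (hs : ∀ᶠ s in 𝓝 s₁, s ∈ Vis c Ω x) :
    ∃ t, Rel c x y s₁ t ∧ 0 ≤ lam c x s₁ t ∧ nn c y t ≤ 0 ∧
      ∃ᶠ p : ℝ × ℝ in 𝓝 (s₁, t), p.1 ≠ s₁ ∧ Rel c x y p.1 p.2 ∧ 0 < lam c x p.1 p.2 ∧
        nn c y p.2 ≤ 0 := by
  have hc := h.std.crv
  have hx' := h.std.range_not h.hx
  have hy' := h.std.range_not h.hy
  have hcount : ({s | uu c x s ∈ N} ∪ {s₁}).Countable :=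
    (hc.countable_dir hx' h.hN).union (Set.countable_singleton s₁)
  have hdense := hcount.dense_compl ℝ
  have hmem : s₁ ∈ closure {s | s ≠ s₁ ∧ s ∈ Vis c Ω x ∧ uu c x s ∉ N} := by
    rw [mem_closure_iff_frequently]
    have h1 : ∃ᶠ s in 𝓝 s₁, s ∈ ({s | uu c x s ∈ N} ∪ {s₁})ᶜ :=
      mem_closure_iff_frequently.mp (hdense s₁)
    refine (h1.and_eventually hs).mono ?_
    rintro s ⟨h2, h3⟩
    rw [Set.mem_compl_iff, Set.mem_union, not_or] at h2
    exact ⟨h2.2, h3, h2.1⟩
  obtain ⟨σ, hσ, hσt⟩ := mem_closure_iff_seq_limit.mp hmem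
  have hex : ∀ n, ∃ t ∈ Set.Icc 0 T, Rel c x y (σ n) t ∧ 0 < lam c x (σ n) t ∧ nn c y t ≤ 0 := by
    intro n
    obtain ⟨h1, h2, h3⟩ := hσ n
    obtain ⟨t, ht, hr, hl⟩ := h.star (σ n) h2 h3
    obtain ⟨m, hm⟩ := hc.shift 0 t
    rw [zero_add] at hm
    refine ⟨t + m * T, ⟨hm.1, hm.2.le⟩, hc.rel_shift m hr, ?_, ?_⟩
    · rw [hc.lam_shift]; exact hl
    · rw [hc.nn_shift]; exact ht
  choose t ht1 ht2 ht3 ht4 using hex
  obtain ⟨t₁, -, φ, hφ, htt⟩ := isCompact_Icc.tendsto_subseq ht1
  have hlim : Tendsto (fun n => (σ (φ n), t (φ n))) atTop (𝓝 (s₁, t₁)) :=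
    (hσt.comp hφ.tendsto_atTop).prodMk_nhds htt
  have hfr : ∃ᶠ p : ℝ × ℝ in 𝓝 (s₁, t₁), p.1 ≠ s₁ ∧ Rel c x y p.1 p.2 ∧
      0 < lam c x p.1 p.2 ∧ nn c y p.2 ≤ 0 := by
    apply hlim.frequently
    apply Filter.Frequently.of_forall
    intro n
    exact ⟨(hσ (φ n)).1, ht2 (φ n), ht3 (φ n), ht4 (φ n)⟩
  refine ⟨t₁, ?_, ?_, ?_, hfr⟩
  · exact isClosed_iff_frequently.mp (hc.closed_rel hx' hy') (s₁, t₁)
      (hfr.mono fun p hp => hp.2.1)
  · have hcl : IsClosed {p : ℝ × ℝ | 0 ≤ lam c x p.1 p.2} :=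
      isClosed_le continuous_const (hc.cont_lam hx')
    exact isClosed_iff_frequently.mp hcl (s₁, t₁) (hfr.mono fun p hp => hp.2.2.1.le)
  · have hcl : IsClosed {p : ℝ × ℝ | nn c y p.2 ≤ 0} :=
      isClosed_le ((hc.cont_nn hy').comp continuous_snd) continuous_const
    exact isClosed_iff_frequently.mp hcl (s₁, t₁) (hfr.mono fun p hp => hp.2.2.2)

/-- degenerate middle legs do not occur at transversal points. -/
theorem Crv.lam_ne_of_nn (hc : Crv c T) (hx : x ∉ Set.range c) (_ : y ∉ Set.range c)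
    {s t : ℝ} (hr : Rel c x y s t) (h1 : nn c x s < 0) (h2 : nn c y t < 0) :
    lam c x s t ≠ 0 := by
  intro h0
  have h3 := hc.rel_sub hx hr
  rw [h0, Complex.ofReal_zero, zero_mul, sub_eq_zero] at h3
  obtain ⟨m, hm⟩ := hc.inj s t h3.symm
  have he : ee c y t = ee c y s := by
    rw [hm]; exact (hc.pe y).int_mul m s
  have hnn : nn c y t = nn c y s := by
    rw [hm]; exact (hc.pn y).int_mul m s
  have h4 := hr.1
  rw [he] at h4
  have h5 : bb c x s = - bb c y s := by
    rw [← hc.conj_ee_mul, ← hc.conj_ee_mul, h4, map_neg, neg_mul]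
  have h6 : nn c x s = - nn c y s := by
    unfold nn
    rw [h5, Complex.neg_im]
  linarith

/-- the angular speed is nonnegative in the interior of the visible set. -/
theorem Foc.gp (h : Foc c T Ω x y N) {s₀ : ℝ} (hs : ∀ᶠ s in 𝓝 s₀, s ∈ Vis c Ω x) :
    0 ≤ om c x s₀ := by
  have hc := h.std.crv
  have hx' := h.std.range_not h.hx
  have hy' := h.std.range_not h.hy
  by_contra hcon
  push Not at hcon
  have h1 : ∀ᶠ s in 𝓝 s₀, om c x s < 0 :=
    (hc.an_om hx' s₀).continuousAt.eventually_lt_const hcon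
  have hcount : ({s | nn c x s = 0} ∪ {s | ∃ t, nn c y t = 0 ∧ Rel c x y s t}).Countable :=
    (hc.countable_nn hx').union (hc.countable_line hx' hy')
  have h2 : ∃ᶠ s in 𝓝 s₀,
      s ∈ ({s | nn c x s = 0} ∪ {s | ∃ t, nn c y t = 0 ∧ Rel c x y s t})ᶜ :=
    mem_closure_iff_frequently.mp (hcount.dense_compl ℝ s₀)
  obtain ⟨s₁, h3, h4, h5⟩ := (h2.and_eventually (h1.and hs.eventually_nhds)).exists
  rw [Set.mem_compl_iff, Set.mem_union, not_or] at h3
  obtain ⟨h6, h7⟩ := h3
  obtain ⟨t, hr, hl, hnt, hfr⟩ := h.limit h5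
  have hns : nn c x s₁ < 0 :=
    lt_of_le_of_ne (h.std.vis_nn h.hx h5.self_of_nhds) h6
  have hnt' : nn c y t < 0 := by
    refine lt_of_le_of_ne hnt ?_
    intro h0
    exact h7 ⟨t, h0, hr⟩
  have hl' : 0 < lam c x s₁ t :=
    lt_of_le_of_ne hl (hc.lam_ne_of_nn hx' hy' hr hns hnt').symm
  have hreg : Reg c y t := fun h0 => hnt'.ne h0.2
  obtain ⟨θ, hθ, hθ0, hθr, -⟩ := analytic_branch (hc.an_LL hx' s₁)
    (hc.an_LL hy' t).neg (hc.deriv_LL_ne hy' hreg) (rel_iff_LL.mp hr)
    (hfr.mono fun p hp => ⟨hp.1, rel_iff_LL.mp hp.2.1⟩)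
  have hrel : ∀ᶠ s in 𝓝 s₁, Rel c x y s (θ s) := hθr.mono fun s hs => rel_iff_LL.mpr hs
  obtain ⟨e1, e2⟩ := hc.branch_deriv hx' hy' hθ.differentiableAt.hasDerivAt hrel
  have hnn : 0 ≤ deriv θ s₁ := by
    by_contra hneg
    push Not at hneg
    apply hc.no_good hx' hy' (hc.Lam_gt hx' hy' hr hl' hns.ne) s₁ t
    exact ⟨θ, hθ, hθ0, hrel, hneg, fun h0 => hns.ne h0.2, rfl⟩
  rw [hθ0] at e2
  have : 0 < lam c x s₁ t * om c x s₁ := by nlinarith
  nlinarith

/-- Claim 1: visible points are transversal. -/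
theorem Foc.claim1 (h : Foc c T Ω x y N) {s₀ : ℝ} (hs : s₀ ∈ Vis c Ω x) : nn c x s₀ < 0 := by
  have hc := h.std.crv
  have hx' := h.std.range_not h.hx
  refine lt_of_le_of_ne (h.std.vis_nn h.hx hs) ?_
  intro hn
  have hchi := hc.chi_ne_of_nn hx' hn
  have h1 := h.std.near_side h.hx hs hn
  obtain ⟨h2, h3⟩ := hc.ratio_tendsto hx' hn
  rw [eventually_nhdsWithin_iff] at h2
  -- the quantity controlling the sign of the derivative
  have h4 : Tendsto (fun s => (-chi c x s + (2 * (qq c s).re - chi c x s / rho c x s) *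
      (nn c x s / om c x s)) * chi c x s₀) (𝓝[≠] s₀)
      (𝓝 ((-chi c x s₀ + (2 * (qq c s₀).re - chi c x s₀ / rho c x s₀) * 0) * chi c x s₀)) := by
    have a1 := (hc.an_chi hx' s₀).continuousAt.tendsto.mono_left
      (nhdsWithin_le_nhds (s := ({s₀}ᶜ : Set ℝ)))
    have a2 := (analyticAt_re_comp (hc.an_qq s₀)).continuousAt.tendsto.mono_left
      (nhdsWithin_le_nhds (s := ({s₀}ᶜ : Set ℝ)))
    have a3 := (hc.an_rho hx' s₀).continuousAt.tendsto.mono_left
      (nhdsWithin_le_nhds (s := ({s₀}ᶜ : Set ℝ)))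
    exact (a1.neg.add (((tendsto_const_nhds.mul a2).sub
      (a1.div a3 (hc.rho_pos hx' s₀).ne')).mul h3)).mul tendsto_const_nhds
  have h5 : (-chi c x s₀ + (2 * (qq c s₀).re - chi c x s₀ / rho c x s₀) * 0) * chi c x s₀ < 0 := by
    have := mul_self_pos.mpr hchi
    nlinarith
  have h6 := h4.eventually_lt_const h5
  rw [eventually_nhdsWithin_iff] at h6
  obtain ⟨ε, hε, hball⟩ := Metric.eventually_nhds_iff_ball.mp (h1.and (h2.and h6))
  have hball' : ∀ s, |s - s₀| < ε → (s - s₀) * chi c x s₀ < 0 → s ∈ Vis c Ω x ∧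
      om c x s ≠ 0 ∧ (-chi c x s + (2 * (qq c s).re - chi c x s / rho c x s) *
      (nn c x s / om c x s)) * chi c x s₀ < 0 := by
    intro s hs1 hs2
    obtain ⟨a1, a2, a3⟩ := hball s (by rw [Metric.mem_ball, Real.dist_eq]; exact hs1)
    have hne : s ∈ ({s₀}ᶜ : Set ℝ) := by
      rw [Set.mem_compl_singleton_iff]
      rintro rfl
      rw [sub_self, zero_mul] at hs2
      exact lt_irrefl _ hs2
    exact ⟨a1 hs2, a2 hne, a3 hne⟩
  -- sign of the derivative on the near side
  have hder : ∀ s, |s - s₀| < ε → (s - s₀) * chi c x s₀ < 0 →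
      ((-(chi c x s * om c x s) +
      (2 * (qq c s).re - chi c x s / rho c x s) * nn c x s) / 2) * chi c x s₀ < 0 := by
    intro s hs1 hs2
    obtain ⟨a1, a2, a3⟩ := hball' s hs1 hs2
    have hev : ∀ᶠ s' in 𝓝 s, s' ∈ Vis c Ω x := by
      have b1 : ∀ᶠ s' in 𝓝 s, |s' - s₀| < ε :=
        (isOpen_lt (by fun_prop : Continuous fun s' : ℝ => |s' - s₀|)
          continuous_const).mem_nhds hs1
      have b2 : ∀ᶠ s' in 𝓝 s, (s' - s₀) * chi c x s₀ < 0 :=
        (isOpen_lt (by fun_prop : Continuous fun s' : ℝ => (s' - s₀) * chi c x s₀)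
          continuous_const).mem_nhds hs2
      filter_upwards [b1, b2] with s' c1 c2
      exact (hball' s' c1 c2).1
    have hom : 0 < om c x s := lt_of_le_of_ne (h.gp hev) a2.symm
    have : ((-(chi c x s * om c x s) +
      (2 * (qq c s).re - chi c x s / rho c x s) * nn c x s) / 2) * chi c x s₀ =
      (om c x s / 2) * ((-chi c x s + (2 * (qq c s).re - chi c x s / rho c x s) *
      (nn c x s / om c x s)) * chi c x s₀) := by
      field_simp
    rw [this]
    exact mul_neg_of_pos_of_neg (by positivity) a3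
  rcases lt_or_gt_of_ne hchi with h7 | h7
  · -- near side to the right
    obtain ⟨ξ, hξ, hξ'⟩ := exists_hasDerivAt_eq_slope (nn c x)
      (fun s => (-(chi c x s * om c x s) +
      (2 * (qq c s).re - chi c x s / rho c x s) * nn c x s) / 2)
      (show s₀ < s₀ + ε / 2 by linarith)
      (fun s _ => (hc.hd_nn' hx' s).continuousAt.continuousWithinAt)
      (fun s _ => hc.hd_nn' hx' s)
    have h8 := hder ξ (by rw [abs_lt]; constructor <;> linarith [hξ.1, hξ.2])
      (by nlinarith [hξ.1])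
    obtain ⟨h9, -, -⟩ := hball' (s₀ + ε / 2) (by rw [add_sub_cancel_left, abs_of_pos (by linarith)]; linarith)
      (by nlinarith)
    have h10 := h.std.vis_nn h.hx h9
    rw [hξ', hn, sub_zero, add_sub_cancel_left] at h8
    have h11 : 0 < nn c x (s₀ + ε / 2) / (ε / 2) := by
      by_contra hneg
      push Not at hneg
      nlinarith
    have h12 : 0 < nn c x (s₀ + ε / 2) := by
      have := mul_pos h11 (show 0 < ε / 2 by linarith)
      rwa [div_mul_cancel₀ _ (by linarith : ε / 2 ≠ 0)] at this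
    linarith
  · -- near side to the left
    obtain ⟨ξ, hξ, hξ'⟩ := exists_hasDerivAt_eq_slope (nn c x)
      (fun s => (-(chi c x s * om c x s) +
      (2 * (qq c s).re - chi c x s / rho c x s) * nn c x s) / 2)
      (show s₀ - ε / 2 < s₀ by linarith)
      (fun s _ => (hc.hd_nn' hx' s).continuousAt.continuousWithinAt)
      (fun s _ => hc.hd_nn' hx' s)
    have h8 := hder ξ (by rw [abs_lt]; constructor <;> linarith [hξ.1, hξ.2])
      (by nlinarith [hξ.2])
    obtain ⟨h9, -, -⟩ := hball' (s₀ - ε / 2) (by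
      rw [sub_sub_cancel_left, abs_neg, abs_of_pos (by linarith)]; linarith)
      (by nlinarith)
    have h10 := h.std.vis_nn h.hx h9
    rw [hξ', hn, zero_sub, sub_sub_cancel] at h8
    have h11 : -nn c x (s₀ - ε / 2) / (ε / 2) < 0 := by
      by_contra hneg
      push Not at hneg
      nlinarith
    have h12 : -nn c x (s₀ - ε / 2) < 0 := by
      have := mul_neg_of_neg_of_pos h11 (show 0 < ε / 2 by linarith)
      rwa [div_mul_cancel₀ _ (by linarith : ε / 2 ≠ 0)] at this
    linarith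

/-- every ray from an interior point has a first hitting point. -/
theorem Std.hit (h : Std c T Ω) (hx : x ∈ Ω) {d : ℂ} (hd : d ≠ 0) :
    ∃ r : ℝ, 0 < r ∧ ∃ s, c s = x + r * d ∧ ∀ r' : ℝ, 0 ≤ r' → r' < r → x + r' * d ∈ Ω := by
  let A : Set ℝ := {r | 0 ≤ r ∧ x + r * d ∉ Ω}
  have hcont : Continuous (fun r : ℝ => x + r * d) := by fun_prop
  have hA : IsClosed A := by
    have h1 : IsClosed {r : ℝ | x + r * d ∉ Ω} := (h.op.preimage hcont).isClosed_compl
    exact isClosed_Ici.inter h1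
  have hne : A.Nonempty := by
    obtain ⟨R, hR⟩ := h.bd.subset_ball x
    refine ⟨|R| / ‖d‖, by positivity, ?_⟩
    intro hmem
    have h1 := hR hmem
    rw [Metric.mem_ball, Complex.dist_eq, add_sub_cancel_left, norm_mul, Complex.norm_real,
      Real.norm_of_nonneg (by positivity), div_mul_cancel₀ _ (norm_ne_zero_iff.mpr hd)] at h1
    exact absurd (le_abs_self R) (not_le.mpr h1)
  have hbb : BddBelow A := ⟨0, fun r hr => hr.1⟩
  have hmem := hA.csInf_mem hne hbb
  set r := sInf A with hr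
  have hlt : ∀ r' : ℝ, 0 ≤ r' → r' < r → x + r' * d ∈ Ω := by
    intro r' h1 h2
    by_contra h3
    exact absurd (csInf_le hbb ⟨h1, h3⟩) (not_le.mpr h2)
  have hr0 : 0 < r := by
    rcases hmem.1.eq_or_lt with h1 | h1
    · exfalso
      apply hmem.2
      rw [← h1]
      simpa using hx
    · exact h1
  have hcl : x + r * d ∈ closure Ω := by
    have h1 : Tendsto (fun r : ℝ => x + r * d) (𝓝[<] r) (𝓝 (x + r * d)) :=
      (hcont.tendsto r).mono_left nhdsWithin_le_nhds
    apply mem_closure_of_tendsto h1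
    have h2 : ∀ᶠ r' in 𝓝[<] r, r' ∈ Set.Ioo 0 r := Ioo_mem_nhdsLT hr0
    filter_upwards [h2] with r' h3
    exact hlt r' h3.1.le h3.2
  have hf : x + r * d ∈ frontier Ω := by
    rw [h.op.frontier_eq]; exact ⟨hcl, hmem.2⟩
  rw [h.fr] at hf
  obtain ⟨s, hs⟩ := hf
  exact ⟨r, hr0, s, hs, hlt⟩

theorem Std.hit_vis (_h : Std c T Ω) {d : ℂ} {r s : ℝ} (hr : 0 < r)
    (hs : c s = x + r * d) (hlt : ∀ r' : ℝ, 0 ≤ r' → r' < r → x + r' * d ∈ Ω) :
    s ∈ Vis c Ω x := by
  intro τ h1 h2
  have := hlt (τ * r) (by positivity) (by nlinarith)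
  rw [hs, add_sub_cancel_left]
  have e : x + (τ : ℂ) * (r * d) = x + ((τ * r : ℝ) : ℂ) * d := by push_cast; ring
  rw [e]
  exact this

/-- Claim 3: all boundary points are visible. -/
theorem Foc.vis_univ (h : Foc c T Ω x y N) (s : ℝ) : s ∈ Vis c Ω x := by
  have hc := h.std.crv
  have hop : IsOpen (Vis c Ω x) := by
    rw [isOpen_iff_mem_nhds]
    intro s hs
    exact h.std.vis_open h.hx hs (h.claim1 hs).ne
  have hcl : IsClosed (Vis c Ω x) := by
    rw [isClosed_iff_frequently]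
    intro s₁ hfr
    -- points of the segment are in the closure
    have hclos : ∀ τ : ℝ, 0 ≤ τ → τ ≤ 1 → x + τ * (c s₁ - x) ∈ closure Ω := by
      have hlt : ∀ τ : ℝ, 0 < τ → τ < 1 → x + τ * (c s₁ - x) ∈ closure Ω := by
        intro τ h1 h2
        have hcont : Continuous (fun s => x + (τ : ℂ) * (c s - x)) := by
          have := hc.cont
          fun_prop
        rw [mem_closure_iff_frequently]
        have h3 := (hcont.tendsto s₁).frequently (p := fun z => z ∈ Ω)
          (hfr.mono fun s hs => hs τ h1 h2)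
        exact h3
      intro τ h1 h2
      rcases h1.eq_or_lt with h3 | h3
      · rw [← h3]; simpa using subset_closure h.hx
      · rcases h2.eq_or_lt with h4 | h4
        · rw [h4]; simpa using h.std.mem_closure s₁
        · exact hlt τ h3 h4
    have hd : c s₁ - x ≠ 0 := by
      rw [sub_ne_zero]
      intro h0
      exact h.std.range_not h.hx ⟨s₁, h0⟩
    obtain ⟨r, hr, s', hs', hlt⟩ := h.std.hit h.hx hd
    by_cases hr1 : r < 1
    · exfalso
      have hv := h.std.hit_vis hr hs' hlt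
      have hn := h.claim1 hv
      have h1 : (conj (deriv c s') * (c s₁ - x)).im < 0 := by
        have h2 : c s' - x = r * (c s₁ - x) := by rw [hs']; ring
        have h3 := h.std.sub_eq h.hx s'
        have hrho := hc.rho_pos (h.std.range_not h.hx) s'
        have h4 : c s₁ - x = ((rho c x s' / r : ℝ) : ℂ) * uu c x s' := by
          have hr' : (r : ℂ) ≠ 0 := by exact_mod_cast hr.ne'
          have h5 : (r : ℂ) * (c s₁ - x) = (rho c x s' : ℂ) * uu c x s' := by rw [← h2, h3]
          push_cast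
          field_simp
          linear_combination h5
        rw [h4]
        have h5 : conj (deriv c s') * (((rho c x s' / r : ℝ) : ℂ) * uu c x s') =
            ((rho c x s' / r : ℝ) : ℂ) * bb c x s' := by unfold bb; ring
        rw [h5, Complex.im_ofReal_mul]
        exact mul_neg_of_pos_of_neg (div_pos hrho hr) hn
      have h2 := h.std.right s' _ h1
      have h3 : ∀ᶠ ε : ℝ in 𝓝[>] 0, ε < 1 - r :=
        mem_of_superset (Ioo_mem_nhdsGT (sub_pos.mpr hr1)) fun ε hε => hε.2
      obtain ⟨ε, ⟨h4, h5⟩, h6⟩ := ((h2.and h3).and self_mem_nhdsWithin).exists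
      apply h4
      have h7 : (0 : ℝ) < ε := h6
      have h8 := hclos (r + ε) (by positivity) (by linarith)
      have h9 : x + ((r + ε : ℝ) : ℂ) * (c s₁ - x) = c s' + ε * (c s₁ - x) := by
        rw [hs']; push_cast; ring
      rwa [h9] at h8
    · push Not at hr1
      intro τ h1 h2
      exact hlt τ h1.le (by linarith)
  have hne : (Vis c Ω x).Nonempty := by
    obtain ⟨r, hr, s', hs', hlt⟩ := h.std.hit h.hx (one_ne_zero (α := ℂ))
    exact ⟨s', h.std.hit_vis hr hs' hlt⟩
  have := IsClopen.eq_univ ⟨hcl, hop⟩ hne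
  rw [this]
  trivial

theorem Foc.nn_neg (h : Foc c T Ω x y N) (s : ℝ) : nn c x s < 0 := h.claim1 (h.vis_univ s)

theorem Foc.om_nonneg (h : Foc c T Ω x y N) (s : ℝ) : 0 ≤ om c x s :=
  h.gp (Filter.Eventually.of_forall fun s => h.vis_univ s)

theorem Foc.curv_pos (h : Foc c T Ω x y N) (s : ℝ) : 0 < (qq c s).im := by
  have h1 := h.om_nonneg s
  have h2 := h.nn_neg s
  have h3 := h.std.crv.rho_pos (h.std.range_not h.hx) s
  unfold om at h1
  have h4 : nn c x s / rho c x s < 0 := div_neg_of_neg_of_pos h2 h3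
  linarith

end

end Pool.Agent.Lib.MP3080d1
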