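import Pool.Agent.Lib.MP_3080d1_gt.Fin

set_option autoImplicit false

namespace Pool.Agent.Lib.MP3080d1

open Complex ComplexConjugate Filter Topology

/-- reflection in the line spanned by `v`. -/
noncomputable def Rf (v u : ℂ) : ℂ := v / conj v * conj u

theorem Rf_Rf {v : ℂ} (hv : v ≠ 0) (u : ℂ) : Rf v (Rf v u) = u := by
  have hv' : conj v ≠ 0 := by rw [Ne, map_eq_zero]; exact hv
  unfold Rf
  rw [map_mul, map_div₀, Complex.conj_conj, Complex.conj_conj]
  field_simp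

theorem Rf_neg_right (v u : ℂ) : Rf v (-u) = - Rf v u := by
  unfold Rf
  rw [map_neg]
  ring

theorem Rf_neg_left (v u : ℂ) : Rf (-v) u = Rf v u := by
  unfold Rf
  rw [map_neg, neg_div_neg_eq]

theorem norm_Rf {v : ℂ} (hv : v ≠ 0) (u : ℂ) : ‖Rf v u‖ = ‖u‖ := by
  unfold Rf
  rw [norm_mul, norm_div, Complex.norm_conj, Complex.norm_conj,
    div_self (norm_ne_zero_iff.mpr hv), one_mul]

theorem reflection_eq_Rf {v : ℂ} (hv : v ≠ 0) (u : ℂ) :
    (Submodule.span ℝ {v}).reflection u = Rf v u := by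
  rw [Submodule.reflection_singleton_apply]
  have hv' : conj v ≠ 0 := by rw [Ne, map_eq_zero]; exact hv
  have h1 : ((inner ℝ v u : ℝ) : ℂ) = (conj v * u + v * conj u) / 2 := by
    have : inner ℝ v u = (conj v * u).re := by
      rw [Complex.inner]
      simp only [Complex.mul_re, Complex.conj_re, Complex.conj_im]
      ring
    rw [this, Complex.re_eq_add_conj, map_mul, Complex.conj_conj]
  have h2 : ((‖v‖ : ℝ) : ℂ) ^ 2 = conj v * v := by
    rw [← Complex.normSq_eq_conj_mul_self, Complex.normSq_eq_norm_sq]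
    push_cast
    rfl
  rw [two_smul, Complex.real_smul]
  unfold Rf
  have h3 : (((inner ℝ v u : ℝ) / ((‖v‖ : ℝ) : ℝ) ^ 2 : ℝ) : ℂ) =
      ((conj v * u + v * conj u) / 2) / (conj v * v) := by
    rw [Complex.ofReal_div, h1, Complex.ofReal_pow, h2]
  have h4 : (((inner ℝ v u : ℝ) / (RCLike.ofReal ‖v‖ : ℝ) ^ 2 : ℝ) : ℂ) =
      ((conj v * u + v * conj u) / 2) / (conj v * v) := h3
  rw [h4]
  field_simp
  ring

section

variable {c : ℝ → ℂ} {T : ℝ} {Ω N : Set ℂ} {x y : ℂ}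

/-- the light path from `x` to `y`, with the first reflection at `c s` and the second at `c t`. -/
def Path (c : ℝ → ℂ) (Ω : Set ℂ) (x y u : ℂ) : Prop :=
  ∃ s t r₁ r₂ r₃ : ℝ, 0 < r₁ ∧ 0 < r₂ ∧ 0 < r₃ ∧ c s = x + r₁ * u ∧
    (∀ τ : ℝ, 0 < τ → τ < 1 → x + τ * (c s - x) ∈ Ω) ∧
    c t = c s + r₂ * Rf (deriv c s) u ∧
    y = c t + r₃ * Rf (deriv c t) (Rf (deriv c s) u) ∧
    (∀ τ : ℝ, 0 < τ → τ < 1 → y + τ * (c t - y) ∈ closure Ω)

theorem Std.foc (h : Std c T Ω) (hx : x ∈ Ω) (hy : y ∈ Ω) (hN : N.Countable)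
    (H : ∀ u : ℂ, ‖u‖ = 1 → u ∉ N → Path c Ω x y u) : Foc c T Ω x y N := by
  have hc := h.crv
  have hx' := h.range_not hx
  have hy' := h.range_not hy
  refine ⟨h, hx, hy, hN, ?_⟩
  intro s hs huN
  set u := uu c x s with hu
  have hu1 : ‖u‖ = 1 := hc.norm_uu hx' s
  obtain ⟨s', t, r₁, r₂, r₃, hr₁, hr₂, hr₃, e1, e2, e3, e4, e5⟩ := H u hu1 huN
  have hr₁' : ((r₁ : ℝ) : ℂ) ≠ 0 := by exact_mod_cast hr₁.ne'
  have hr₃' : ((r₃ : ℝ) : ℂ) ≠ 0 := by exact_mod_cast hr₃.ne'
  have f1 : c s' - x = r₁ * u := by rw [e1]; ring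
  have f2 : rho c x s' = r₁ := by
    unfold rho
    rw [f1, norm_mul, hu1, Complex.norm_real, Real.norm_of_nonneg hr₁.le, mul_one]
  have f3 : uu c x s' = u := by
    rw [uu, f2, f1]
    field_simp
  have f4 : c s = c s' := h.vis_unique hx hs e2 (by rw [f3])
  obtain ⟨m, hm⟩ := hc.inj s s' f4
  have g1 : ee c x s' = ee c x s := by rw [hm]; exact (hc.pe x).int_mul m s
  have g2 : mu c x s' = mu c x s := by rw [hm]; exact (hc.pmu x).int_mul m s
  -- outgoing direction
  set e := Rf (deriv c s') u with he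
  have k1 : ee c x s' = e := by
    rw [ee, f3]; rfl
  have k2 : conj e * e = 1 := by rw [← k1]; exact hc.conj_mul_self_ee hx' s'
  have k3 : c t - y = r₃ * (- Rf (deriv c t) e) := by rw [e4]; ring
  have k4 : ‖-Rf (deriv c t) e‖ = 1 := by
    rw [norm_neg, norm_Rf (hc.reg t), he, norm_Rf (hc.reg s'), hu1]
  have k5 : rho c y t = r₃ := by
    unfold rho
    rw [k3, norm_mul, k4, Complex.norm_real, Real.norm_of_nonneg hr₃.le, mul_one]
  have k6 : uu c y t = - Rf (deriv c t) e := by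
    rw [uu, k5, k3]
    field_simp
  have k7 : ee c y t = - e := by
    have : ee c y t = Rf (deriv c t) (uu c y t) := rfl
    rw [this, k6, Rf_neg_right, Rf_Rf (hc.reg t)]
  have k8 : conj e * c t = conj e * c s' + (r₂ : ℂ) := by
    rw [e3]; linear_combination (r₂ : ℂ) * k2
  refine ⟨t, h.nn_of_closure hy e5, ⟨?_, ?_⟩, ?_⟩
  · rw [← g1, k1, k7, neg_neg]
  · rw [← g2]
    unfold mu
    rw [k1, k7, map_neg, neg_mul, Complex.neg_im, neg_neg, k8, Complex.add_im,
      Complex.ofReal_im, add_zero]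
  · unfold lam
    rw [← g1, k1, f4]
    have : conj e * (c t - c s') = (r₂ : ℂ) := by linear_combination k8
    rw [this, Complex.ofReal_re]
    exact hr₂

/-- reversal of the parametrization. -/
theorem Crv.reverse (hc : Crv c T) : Crv (fun s => c (-s)) T := by
  have hd : ∀ s, HasDerivAt (fun s => c (-s)) (-deriv c (-s)) s := by
    intro s
    have h1 : HasDerivAt (fun s : ℝ => -s) (-1) s := hasDerivAt_neg s
    have h2 := (hc.hd (-s)).scomp s h1
    refine h2.congr_deriv ?_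
    rw [neg_smul, one_smul]
  refine ⟨hc.hT, ?_, ?_, ?_, ?_⟩
  · intro s
    exact AnalyticAt.comp (g := c) (f := fun s : ℝ => -s) (hc.an (-s)) analyticAt_id.neg
  · intro s
    have h1 := hc.per (-(s + T))
    have h2 : -(s + T) + T = -s := by ring
    rw [h2] at h1
    exact h1.symm
  · intro s
    rw [(hd s).deriv]
    exact neg_ne_zero.mpr (hc.reg (-s))
  · intro s t hst
    obtain ⟨m, hm⟩ := hc.inj (-s) (-t) hst
    refine ⟨-m, ?_⟩
    push_cast
    linarith

theorem Crv.deriv_reverse (hc : Crv c T) (s : ℝ) :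
    deriv (fun s => c (-s)) s = -deriv c (-s) := by
  have h1 : HasDerivAt (fun s : ℝ => -s) (-1) s := hasDerivAt_neg s
  have h2 := (hc.hd (-s)).scomp s h1
  have h3 : HasDerivAt (fun s => c (-s)) (-deriv c (-s)) s := by
    refine h2.congr_deriv ?_
    rw [neg_smul, one_smul]
  exact h3.deriv

/-- main theorem in terms of parameters. -/
theorem Crv.main (hc : Crv c T) (hΩ : IsOpen Ω) (hb : Bornology.IsBounded Ω)
    (hfr : frontier Ω = Set.range c) (hx : x ∈ Ω) (hy : y ∈ Ω) (hxy : x ≠ y)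
    (hN : N.Countable) (H : ∀ u : ℂ, ‖u‖ = 1 → u ∉ N → Path c Ω x y u) : False := by
  rcases hc.orientation hΩ hb hfr with ho | ho
  · have hS : Std c T Ω := ⟨hc, hΩ, hb, hfr, ho⟩
    exact (hS.foc hx hy hN H).false hxy
  · have hS : Std (fun s => c (-s)) T Ω := by
      refine ⟨hc.reverse, hΩ, hb, ?_, ?_⟩
      · rw [hfr]
        ext z
        constructor
        · rintro ⟨s, hs⟩
          exact ⟨-s, by simpa using hs⟩
        · rintro ⟨s, hs⟩
          exact ⟨-s, hs⟩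
      · intro s v hv
        apply ho (-s) v
        rw [hc.deriv_reverse, map_neg, neg_mul, Complex.neg_im] at hv
        linarith
    refine (hS.foc hx hy hN ?_).false hxy
    intro u hu huN
    obtain ⟨s, t, r₁, r₂, r₃, hr₁, hr₂, hr₃, e1, e2, e3, e4, e5⟩ := H u hu huN
    refine ⟨-s, -t, r₁, r₂, r₃, hr₁, hr₂, hr₃, ?_, ?_, ?_, ?_, ?_⟩
    · simp only [neg_neg]; exact e1
    · simp only [neg_neg]; exact e2
    · simp only [hc.deriv_reverse, neg_neg, Rf_neg_left]; exact e3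
    · simp only [hc.deriv_reverse, neg_neg, Rf_neg_left]; exact e4
    · simp only [neg_neg]; exact e5

end

end Pool.Agent.Lib.MP3080d1
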