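import Pool.Agent.Lib.MP_3080d1_gt.Basic

set_option autoImplicit false

namespace Pool.Agent.Lib.MP3080d1

open Complex ComplexConjugate Filter Topology

section

variable {c : ℝ → ℂ} {T : ℝ}

theorem Crv.cont (hc : Crv c T) : Continuous c :=
  continuous_iff_continuousAt.mpr fun s => (hc.an s).continuousAt

theorem Crv.cont_deriv (hc : Crv c T) : Continuous (deriv c) :=
  continuous_iff_continuousAt.mpr fun s => (hc.an_deriv s).continuousAt

theorem Crv.pc_int (hc : Crv c T) (s : ℝ) (m : ℤ) : c (s + m * T) = c s := hc.pc.int_mul m s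

/-- a parameter can be moved to a given period. -/
theorem Crv.shift (hc : Crv c T) (a s : ℝ) : ∃ m : ℤ, s + m * T ∈ Set.Ico a (a + T) := by
  obtain ⟨m, hm, -⟩ := existsUnique_add_zsmul_mem_Ico hc.hT s a
  exact ⟨m, by simpa using hm⟩

/-- points of the curve near `c s₀` have parameters near `s₀`. -/
theorem Crv.prox (hc : Crv c T) (s₀ : ℝ) {ε : ℝ} (hε : 0 < ε) :
    ∀ᶠ z in 𝓝 (c s₀), ∀ s, c s = z → ∃ m : ℤ, |s + m * T - s₀| < ε := by
  let K : Set ℝ := Set.Icc s₀ (s₀ + T) ∩ {s | ε ≤ |s - s₀| ∧ ε ≤ |s - (s₀ + T)|}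
  have hK : IsCompact K := by
    refine isCompact_Icc.inter_right ?_
    exact (isClosed_le (f := fun _ : ℝ => ε) (g := fun s : ℝ => |s - s₀|)
        (by fun_prop) (by fun_prop)).inter
      (isClosed_le (f := fun _ : ℝ => ε) (g := fun s : ℝ => |s - (s₀ + T)|)
        (by fun_prop) (by fun_prop))
  have hcK : IsClosed (c '' K) := (hK.image hc.cont).isClosed
  have hnot : c s₀ ∉ c '' K := by
    rintro ⟨s, ⟨⟨h1, h2⟩, h3, h4⟩, h5⟩
    obtain ⟨m, hm⟩ := hc.inj s₀ s h5.symm
    have hT := hc.hT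
    have hm0 : (0 : ℝ) ≤ m := by
      by_contra hneg
      push Not at hneg
      nlinarith
    have hm1 : (m : ℝ) ≤ 1 := by
      by_contra hneg
      push Not at hneg
      nlinarith
    have hm0' : 0 ≤ m := by exact_mod_cast hm0
    have hm1' : m ≤ 1 := by exact_mod_cast hm1
    have hcases : m = 0 ∨ m = 1 := by omega
    rcases hcases with rfl | rfl
    · simp only [Int.cast_zero, zero_mul, add_zero] at hm
      rw [hm, sub_self, abs_zero] at h3
      linarith
    · simp only [Int.cast_one, one_mul] at hm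
      rw [hm, sub_self, abs_zero] at h4
      linarith
  filter_upwards [hcK.isOpen_compl.mem_nhds hnot] with z hz s hs
  obtain ⟨m, hm⟩ := hc.shift s₀ s
  have h1 : s + m * T ∉ K := by
    intro hmem
    apply hz
    exact ⟨s + m * T, hmem, by rw [hc.pc_int, hs]⟩
  have h2 : ¬ (ε ≤ |s + m * T - s₀| ∧ ε ≤ |s + m * T - (s₀ + T)|) := by
    intro h
    exact h1 ⟨⟨hm.1, hm.2.le⟩, h⟩
  rw [not_and_or, not_le, not_le] at h2
  rcases h2 with h2 | h2
  · exact ⟨m, h2⟩
  · refine ⟨m - 1, ?_⟩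
    push_cast
    have : s + (m - 1) * T - s₀ = s + m * T - (s₀ + T) := by ring
    rw [this]
    exact h2

/-- tubular coordinates. -/
noncomputable def PP (c : ℝ → ℂ) (w : ℂ) : ℂ := c w.re + (I * (w.im : ℂ)) * deriv c w.re

/-- multiplication by the velocity as a real-linear equivalence. -/
noncomputable def velo (v : ℂ) (hv : v ≠ 0) : ℂ ≃L[ℝ] ℂ :=
  (ContinuousLinearEquiv.unitsEquivAut ℂ (Units.mk0 v hv)).restrictScalars ℝ

theorem velo_apply (v : ℂ) (hv : v ≠ 0) (w : ℂ) : velo v hv w = w * v := by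
  simp [velo]

theorem velo_symm_apply (v : ℂ) (hv : v ≠ 0) (w : ℂ) : (velo v hv).symm w = w / v := by
  rw [ContinuousLinearEquiv.symm_apply_eq, velo_apply, div_mul_cancel₀ _ hv]

theorem Crv.PP_real (_ : Crv c T) (s : ℝ) : PP c (s : ℂ) = c s := by
  simp [PP]

theorem Crv.strict_PP (hc : Crv c T) (s₀ : ℝ) :
    HasStrictFDerivAt (PP c) (velo (deriv c s₀) (hc.reg s₀) : ℂ →L[ℝ] ℂ) (s₀ : ℂ) := by
  have hre : HasStrictFDerivAt (fun w : ℂ => w.re) Complex.reCLM (s₀ : ℂ) :=
    Complex.reCLM.hasStrictFDerivAt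
  have him : HasStrictFDerivAt (fun w : ℂ => (w.im : ℂ))
      (Complex.ofRealCLM.comp Complex.imCLM) (s₀ : ℂ) :=
    (Complex.ofRealCLM.comp Complex.imCLM).hasStrictFDerivAt
  have h1 : HasStrictDerivAt c (deriv c s₀) ((s₀ : ℂ).re) := by
    rw [Complex.ofReal_re]; exact (hc.an s₀).hasStrictDerivAt
  have h2 : HasStrictDerivAt (deriv c) (deriv (deriv c) s₀) ((s₀ : ℂ).re) := by
    rw [Complex.ofReal_re]; exact (hc.an_deriv s₀).hasStrictDerivAt
  have h3 := h1.hasStrictFDerivAt.comp (s₀ : ℂ) hre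
  have h4 := h2.hasStrictFDerivAt.comp (s₀ : ℂ) hre
  have h5 := h3.add ((him.const_mul I).mul h4)
  refine h5.congr_fderiv ?_
  ext w
  rw [ContinuousLinearEquiv.coe_coe, velo_apply]
  simp
  nth_rewrite 3 [← Complex.re_add_im w]
  ring

theorem preconn_dichotomy {S Ω : Set ℂ} (hS : IsPreconnected S) (hΩ : IsOpen Ω)
    (hd : ∀ z ∈ S, z ∉ frontier Ω) : S ⊆ Ω ∨ S ⊆ (closure Ω)ᶜ := by
  have h1 : S ⊆ Ω ∪ (closure Ω)ᶜ := by
    intro z hz
    by_cases h : z ∈ closure Ω
    · left
      by_contra h2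
      apply hd z hz
      rw [hΩ.frontier_eq]
      exact ⟨h, h2⟩
    · right; exact h
  have h2 : Disjoint Ω (closure Ω)ᶜ :=
    Set.disjoint_left.mpr fun z hz hz2 => hz2 (subset_closure hz)
  exact hS.subset_or_subset hΩ isClosed_closure.isOpen_compl h2 h1

/-- local description of the curve by a defining function. -/
theorem Crv.local_side (hc : Crv c T) {Ω : Set ℂ} (hΩ : IsOpen Ω)
    (hfr : frontier Ω = Set.range c) (s₀ : ℝ) :
    ∃ g : ℂ → ℝ, HasStrictFDerivAt g
      (Complex.imCLM.comp ((velo (deriv c s₀) (hc.reg s₀)).symm : ℂ →L[ℝ] ℂ)) (c s₀) ∧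
    g (c s₀) = 0 ∧
    (∀ᶠ w in 𝓝 (s₀ : ℂ), g (PP c w) = w.im) ∧
    (∀ᶠ z in 𝓝 (c s₀), z ∈ Set.range c ↔ g z = 0) ∧
    ((∀ᶠ z in 𝓝 (c s₀), 0 < g z → z ∈ Ω) ∨ (∀ᶠ z in 𝓝 (c s₀), 0 < g z → z ∉ closure Ω)) ∧
    ((∀ᶠ z in 𝓝 (c s₀), g z < 0 → z ∈ Ω) ∨ (∀ᶠ z in 𝓝 (c s₀), g z < 0 → z ∉ closure Ω)) := by
  have hP := hc.strict_PP s₀
  let inv := hP.localInverse (PP c) (velo (deriv c s₀) (hc.reg s₀)) (s₀ : ℂ)
  have hinv' : HasStrictFDerivAt inv
      ((velo (deriv c s₀) (hc.reg s₀)).symm : ℂ →L[ℝ] ℂ) (c s₀) := by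
    have := hP.to_localInverse
    rwa [hc.PP_real] at this
  have hleft : ∀ᶠ w in 𝓝 (s₀ : ℂ), inv (PP c w) = w := hP.eventually_left_inverse
  have hright : ∀ᶠ z in 𝓝 (c s₀), PP c (inv z) = z := by
    have := hP.eventually_right_inverse
    rwa [hc.PP_real] at this
  have hinv0 : inv (c s₀) = (s₀ : ℂ) := by
    have := hP.localInverse_apply_image
    rwa [hc.PP_real] at this
  have hinvt : Tendsto inv (𝓝 (c s₀)) (𝓝 (s₀ : ℂ)) := by
    have := hinv'.continuousAt.tendsto
    rwa [hinv0] at this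
  have hmem : ∀ᶠ z in 𝓝 (c s₀), z ∈ Set.range c ↔ (inv z).im = 0 := by
    obtain ⟨ε, hε, hball⟩ := Metric.eventually_nhds_iff_ball.mp hleft
    filter_upwards [hright, hc.prox s₀ hε] with z h1 h2
    constructor
    · rintro ⟨s, hs⟩
      obtain ⟨m, hm⟩ := h2 s hs
      have h3 : ((s + m * T : ℝ) : ℂ) ∈ Metric.ball (s₀ : ℂ) ε := by
        rw [Metric.mem_ball, Complex.dist_eq, ← Complex.ofReal_sub, Complex.norm_real,
          Real.norm_eq_abs]
        exact hm
      have h4 := hball _ h3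
      rw [hc.PP_real, hc.pc_int, hs] at h4
      rw [h4, Complex.ofReal_im]
    · intro h
      refine ⟨(inv z).re, ?_⟩
      calc c (inv z).re = PP c (inv z) := by
            unfold PP
            rw [h]
            simp
        _ = z := h1
  obtain ⟨ε, hε, hball⟩ := Metric.eventually_nhds_iff_ball.mp hleft
  -- shrink the ball so that images stay in the good region
  have hcont : ContinuousAt (PP c) (s₀ : ℂ) := hP.continuousAt
  have hPt : Tendsto (PP c) (𝓝 (s₀ : ℂ)) (𝓝 (c s₀)) := by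
    have := hcont.tendsto
    rwa [hc.PP_real] at this
  have hgood : ∀ᶠ w in 𝓝 (s₀ : ℂ), inv (PP c w) = w ∧ (PP c w ∈ Set.range c ↔ w.im = 0) := by
    filter_upwards [hleft, hPt.eventually hmem] with w h1 h2
    rw [h1] at h2
    exact ⟨h1, h2⟩
  obtain ⟨δ, hδ, hballδ⟩ := Metric.eventually_nhds_iff_ball.mp hgood
  have hPcont : Continuous (PP c) := by
    unfold PP
    exact (hc.cont.comp Complex.continuous_re).add ((continuous_const.mul
      (Complex.continuous_ofReal.comp Complex.continuous_im)).mul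
      (hc.cont_deriv.comp Complex.continuous_re))
  have hzin : ∀ᶠ z in 𝓝 (c s₀), inv z ∈ Metric.ball (s₀ : ℂ) δ ∧ PP c (inv z) = z :=
    (hinvt.eventually (Metric.ball_mem_nhds _ hδ)).and hright
  refine ⟨fun z => (inv z).im, Complex.imCLM.hasStrictFDerivAt.comp (c s₀) hinv', ?_, ?_, ?_,
    ?_, ?_⟩
  · simp only [hinv0, Complex.ofReal_im]
  · exact hleft.mono fun w hw => congrArg Complex.im hw
  · exact hmem
  · have hpre : IsPreconnected (PP c '' (Metric.ball (s₀ : ℂ) δ ∩ {w | 0 < w.im})) :=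
      ((convex_ball (s₀ : ℂ) δ).inter
        (convex_halfSpace_im_gt 0)).isPreconnected.image _ hPcont.continuousOn
    have hdis : ∀ z ∈ (PP c '' (Metric.ball (s₀ : ℂ) δ ∩ {w | 0 < w.im})), z ∉ frontier Ω := by
      rintro z ⟨w, ⟨hw1, hw2⟩, rfl⟩ hz
      rw [hfr, (hballδ w hw1).2] at hz
      exact hw2.ne' hz
    rcases preconn_dichotomy hpre hΩ hdis with h | h
    · left
      filter_upwards [hzin] with z hz hz2
      have := h ⟨inv z, ⟨hz.1, hz2⟩, rfl⟩
      rwa [hz.2] at this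
    · right
      filter_upwards [hzin] with z hz hz2
      have := h ⟨inv z, ⟨hz.1, hz2⟩, rfl⟩
      rwa [hz.2] at this
  · have hpre : IsPreconnected (PP c '' (Metric.ball (s₀ : ℂ) δ ∩ {w | w.im < 0})) :=
      ((convex_ball (s₀ : ℂ) δ).inter
        (convex_halfSpace_im_lt 0)).isPreconnected.image _ hPcont.continuousOn
    have hdis : ∀ z ∈ (PP c '' (Metric.ball (s₀ : ℂ) δ ∩ {w | w.im < 0})), z ∉ frontier Ω := by
      rintro z ⟨w, ⟨hw1, hw2⟩, rfl⟩ hz
      rw [hfr, (hballδ w hw1).2] at hz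
      exact hw2.ne hz
    rcases preconn_dichotomy hpre hΩ hdis with h | h
    · left
      filter_upwards [hzin] with z hz hz2
      have := h ⟨inv z, ⟨hz.1, hz2⟩, rfl⟩
      rwa [hz.2] at this
    · right
      filter_upwards [hzin] with z hz hz2
      have := h ⟨inv z, ⟨hz.1, hz2⟩, rfl⟩
      rwa [hz.2] at this

/-- an alternative between two disjoint locally constant properties of reals is global. -/
theorem all_or_all {P Q : ℝ → Prop} (h : ∀ s, (∀ᶠ t in 𝓝 s, P t) ∨ (∀ᶠ t in 𝓝 s, Q t))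
    (hd : ∀ s, P s → Q s → False) : (∀ s, P s) ∨ (∀ s, Q s) := by
  have hP : IsOpen {s | P s} := by
    rw [isOpen_iff_mem_nhds]
    intro s hs
    rcases h s with h1 | h1
    · exact h1
    · exact absurd h1.self_of_nhds (fun h2 => hd s hs h2)
  have hQ : IsOpen {s | Q s} := by
    rw [isOpen_iff_mem_nhds]
    intro s hs
    rcases h s with h1 | h1
    · exact absurd h1.self_of_nhds (fun h2 => hd s h2 hs)
    · exact h1
  have hcl : IsClopen {s | P s} := by
    refine ⟨?_, hP⟩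
    have : {s | P s}ᶜ = {s | Q s} := by
      ext s
      constructor
      · intro hs
        rcases h s with h1 | h1
        · exact absurd h1.self_of_nhds hs
        · exact h1.self_of_nhds
      · intro hs hs2
        exact hd s hs2 hs
    rw [← isOpen_compl_iff, this]
    exact hQ
  rcases isClopen_iff.mp hcl with h1 | h1
  · right
    intro s
    rcases h s with h2 | h2
    · exfalso
      have : s ∈ {s | P s} := h2.self_of_nhds
      rw [h1] at this
      exact this
    · exact h2.self_of_nhds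
  · left
    intro s
    have : s ∈ {s | P s} := by rw [h1]; trivial
    exact this

theorem tendsto_up (s : ℝ) :
    Tendsto (fun δ : ℝ => (s : ℂ) + (δ : ℂ) * I) (𝓝[>] 0) (𝓝 (s : ℂ)) := by
  have h : Continuous (fun δ : ℝ => (s : ℂ) + (δ : ℂ) * I) := by fun_prop
  exact (h.tendsto' 0 _ (by simp)).mono_left nhdsWithin_le_nhds

theorem tendsto_down (s : ℝ) :
    Tendsto (fun δ : ℝ => (s : ℂ) - (δ : ℂ) * I) (𝓝[>] 0) (𝓝 (s : ℂ)) := by
  have h : Continuous (fun δ : ℝ => (s : ℂ) - (δ : ℂ) * I) := by fun_prop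
  exact (h.tendsto' 0 _ (by simp)).mono_left nhdsWithin_le_nhds

/-- the region lies on one and the same side of the curve. -/
theorem Crv.orientation (hc : Crv c T) {Ω : Set ℂ} (hΩ : IsOpen Ω)
    (hb : Bornology.IsBounded Ω) (hfr : frontier Ω = Set.range c) :
    (∀ s v, (conj (deriv c s) * v).im < 0 → ∀ᶠ ε : ℝ in 𝓝[>] 0, c s + ε * v ∉ closure Ω) ∨
    (∀ s v, 0 < (conj (deriv c s) * v).im → ∀ᶠ ε : ℝ in 𝓝[>] 0, c s + ε * v ∉ closure Ω) := by
  -- derivative of the defining function along a direction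
  have hval : ∀ s v, ((velo (deriv c s) (hc.reg s)).symm v).im =
      (conj (deriv c s) * v).im / Complex.normSq (deriv c s) := by
    intro s v
    rw [velo_symm_apply, Complex.div_im]
    simp only [Complex.mul_im, Complex.conj_re, Complex.conj_im]
    ring
  have hdir : ∀ s v (g : ℂ → ℝ), HasStrictFDerivAt g
      (Complex.imCLM.comp ((velo (deriv c s) (hc.reg s)).symm : ℂ →L[ℝ] ℂ)) (c s) →
      HasDerivAt (fun ε : ℝ => g (c s + ε * v))
        ((conj (deriv c s) * v).im / Complex.normSq (deriv c s)) 0 := by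
    intro s v g hg
    have h1 : HasDerivAt (fun ε : ℝ => c s + ε * v) v 0 := by
      have h2 : HasDerivAt (fun ε : ℝ => ((ε : ℝ) : ℂ)) 1 0 := Complex.ofRealCLM.hasDerivAt
      simpa using (h2.mul_const v).const_add (c s)
    have h3 : HasFDerivAt g
      (Complex.imCLM.comp ((velo (deriv c s) (hc.reg s)).symm : ℂ →L[ℝ] ℂ)) (c s + (0 : ℝ) * v) := by
      simpa using hg.hasFDerivAt
    have h4 := h3.comp_hasDerivAt (0 : ℝ) h1
    refine h4.congr_deriv ?_
    rw [ContinuousLinearMap.comp_apply, ContinuousLinearEquiv.coe_coe, Complex.imCLM_apply, hval]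
  have htend : ∀ s v, Tendsto (fun ε : ℝ => c s + ε * v) (𝓝[>] 0) (𝓝 (c s)) := by
    intro s v
    have h : Continuous (fun ε : ℝ => c s + ε * v) := by fun_prop
    exact (h.tendsto' 0 _ (by simp)).mono_left nhdsWithin_le_nhds
  have hpos : ∀ s, 0 < Complex.normSq (deriv c s) := fun s => Complex.normSq_pos.mpr (hc.reg s)
  have hL := all_or_all (P := fun s => ∀ᶠ δ : ℝ in 𝓝[>] 0, PP c (s + δ * I) ∈ Ω)
    (Q := fun s => ∀ᶠ δ : ℝ in 𝓝[>] 0, PP c (s + δ * I) ∉ closure Ω) (by
      intro s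
      obtain ⟨g, -, -, hg1, -, hg2, -⟩ := hc.local_side hΩ hfr s
      have hPt : Tendsto (PP c) (𝓝 (s : ℂ)) (𝓝 (c s)) := by
        have := (hc.strict_PP s).continuousAt.tendsto
        rwa [hc.PP_real] at this
      have hre : Tendsto (fun t : ℝ => (t : ℂ)) (𝓝 s) (𝓝 (s : ℂ)) :=
        Complex.continuous_ofReal.tendsto s
      rcases hg2 with h | h
      · left
        have h2 : ∀ᶠ w in 𝓝 (s : ℂ), 0 < w.im → PP c w ∈ Ω := by
          filter_upwards [hg1, hPt.eventually h] with w h3 h4 h5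
          exact h4 (h3 ▸ h5)
        filter_upwards [hre.eventually h2.eventually_nhds] with t ht
        filter_upwards [(tendsto_up t).eventually ht, self_mem_nhdsWithin] with δ h3 h4
        exact h3 (by simpa using h4)
      · right
        have h2 : ∀ᶠ w in 𝓝 (s : ℂ), 0 < w.im → PP c w ∉ closure Ω := by
          filter_upwards [hg1, hPt.eventually h] with w h3 h4 h5
          exact h4 (h3 ▸ h5)
        filter_upwards [hre.eventually h2.eventually_nhds] with t ht
        filter_upwards [(tendsto_up t).eventually ht, self_mem_nhdsWithin] with δ h3 h4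
        exact h3 (by simpa using h4))
    (by
      intro s h1 h2
      obtain ⟨δ, h3, h4⟩ := (h1.and h2).exists
      exact h4 (subset_closure h3))
  have hR := all_or_all (P := fun s => ∀ᶠ δ : ℝ in 𝓝[>] 0, PP c (s - δ * I) ∈ Ω)
    (Q := fun s => ∀ᶠ δ : ℝ in 𝓝[>] 0, PP c (s - δ * I) ∉ closure Ω) (by
      intro s
      obtain ⟨g, -, -, hg1, -, -, hg2⟩ := hc.local_side hΩ hfr s
      have hPt : Tendsto (PP c) (𝓝 (s : ℂ)) (𝓝 (c s)) := by
        have := (hc.strict_PP s).continuousAt.tendsto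
        rwa [hc.PP_real] at this
      have hre : Tendsto (fun t : ℝ => (t : ℂ)) (𝓝 s) (𝓝 (s : ℂ)) :=
        Complex.continuous_ofReal.tendsto s
      rcases hg2 with h | h
      · left
        have h2 : ∀ᶠ w in 𝓝 (s : ℂ), w.im < 0 → PP c w ∈ Ω := by
          filter_upwards [hg1, hPt.eventually h] with w h3 h4 h5
          exact h4 (h3 ▸ h5)
        filter_upwards [hre.eventually h2.eventually_nhds] with t ht
        filter_upwards [(tendsto_down t).eventually ht, self_mem_nhdsWithin] with δ h3 h4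
        exact h3 (by simpa using h4)
      · right
        have h2 : ∀ᶠ w in 𝓝 (s : ℂ), w.im < 0 → PP c w ∉ closure Ω := by
          filter_upwards [hg1, hPt.eventually h] with w h3 h4 h5
          exact h4 (h3 ▸ h5)
        filter_upwards [hre.eventually h2.eventually_nhds] with t ht
        filter_upwards [(tendsto_down t).eventually ht, self_mem_nhdsWithin] with δ h3 h4
        exact h3 (by simpa using h4))
    (by
      intro s h1 h2
      obtain ⟨δ, h3, h4⟩ := (h1.and h2).exists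
      exact h4 (subset_closure h3))
  -- local consequences
  have LO : (∀ s : ℝ, ∀ᶠ δ : ℝ in 𝓝[>] 0, PP c (s + δ * I) ∉ closure Ω) → ∀ (s : ℝ) (g : ℂ → ℝ),
      (∀ᶠ w in 𝓝 (s : ℂ), g (PP c w) = w.im) →
      ((∀ᶠ z in 𝓝 (c s), 0 < g z → z ∈ Ω) ∨ (∀ᶠ z in 𝓝 (c s), 0 < g z → z ∉ closure Ω)) →
      (∀ᶠ z in 𝓝 (c s), 0 < g z → z ∉ closure Ω) := by
    intro h s g hg1 hg2
    rcases hg2 with h2 | h2
    · exfalso
      have hPt : Tendsto (PP c) (𝓝 (s : ℂ)) (𝓝 (c s)) := by
        have := (hc.strict_PP s).continuousAt.tendsto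
        rwa [hc.PP_real] at this
      have h3 : ∀ᶠ w in 𝓝 (s : ℂ), 0 < w.im → PP c w ∈ Ω := by
        filter_upwards [hg1, hPt.eventually h2] with w h3 h4 h5
        exact h4 (h3 ▸ h5)
      obtain ⟨δ, ⟨h4, h5⟩, h6⟩ := (((h s).and ((tendsto_up s).eventually h3)).and
        self_mem_nhdsWithin).exists
      exact h4 (subset_closure (h5 (by simpa using h6)))
    · exact h2
  have LI : (∀ s : ℝ, ∀ᶠ δ : ℝ in 𝓝[>] 0, PP c (s + δ * I) ∈ Ω) → ∀ (s : ℝ) (g : ℂ → ℝ),
      (∀ᶠ w in 𝓝 (s : ℂ), g (PP c w) = w.im) →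
      ((∀ᶠ z in 𝓝 (c s), 0 < g z → z ∈ Ω) ∨ (∀ᶠ z in 𝓝 (c s), 0 < g z → z ∉ closure Ω)) →
      (∀ᶠ z in 𝓝 (c s), 0 < g z → z ∈ Ω) := by
    intro h s g hg1 hg2
    rcases hg2 with h2 | h2
    · exact h2
    · exfalso
      have hPt : Tendsto (PP c) (𝓝 (s : ℂ)) (𝓝 (c s)) := by
        have := (hc.strict_PP s).continuousAt.tendsto
        rwa [hc.PP_real] at this
      have h3 : ∀ᶠ w in 𝓝 (s : ℂ), 0 < w.im → PP c w ∉ closure Ω := by
        filter_upwards [hg1, hPt.eventually h2] with w h3 h4 h5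
        exact h4 (h3 ▸ h5)
      obtain ⟨δ, ⟨h4, h5⟩, h6⟩ := (((h s).and ((tendsto_up s).eventually h3)).and
        self_mem_nhdsWithin).exists
      exact (h5 (by simpa using h6)) (subset_closure h4)
  have RO : (∀ s : ℝ, ∀ᶠ δ : ℝ in 𝓝[>] 0, PP c (s - δ * I) ∉ closure Ω) → ∀ (s : ℝ) (g : ℂ → ℝ),
      (∀ᶠ w in 𝓝 (s : ℂ), g (PP c w) = w.im) →
      ((∀ᶠ z in 𝓝 (c s), g z < 0 → z ∈ Ω) ∨ (∀ᶠ z in 𝓝 (c s), g z < 0 → z ∉ closure Ω)) →
      (∀ᶠ z in 𝓝 (c s), g z < 0 → z ∉ closure Ω) := by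
    intro h s g hg1 hg2
    rcases hg2 with h2 | h2
    · exfalso
      have hPt : Tendsto (PP c) (𝓝 (s : ℂ)) (𝓝 (c s)) := by
        have := (hc.strict_PP s).continuousAt.tendsto
        rwa [hc.PP_real] at this
      have h3 : ∀ᶠ w in 𝓝 (s : ℂ), w.im < 0 → PP c w ∈ Ω := by
        filter_upwards [hg1, hPt.eventually h2] with w h3 h4 h5
        exact h4 (h3 ▸ h5)
      obtain ⟨δ, ⟨h4, h5⟩, h6⟩ := (((h s).and ((tendsto_down s).eventually h3)).and
        self_mem_nhdsWithin).exists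
      exact h4 (subset_closure (h5 (by simpa using h6)))
    · exact h2
  have RI : (∀ s : ℝ, ∀ᶠ δ : ℝ in 𝓝[>] 0, PP c (s - δ * I) ∈ Ω) → ∀ (s : ℝ) (g : ℂ → ℝ),
      (∀ᶠ w in 𝓝 (s : ℂ), g (PP c w) = w.im) →
      ((∀ᶠ z in 𝓝 (c s), g z < 0 → z ∈ Ω) ∨ (∀ᶠ z in 𝓝 (c s), g z < 0 → z ∉ closure Ω)) →
      (∀ᶠ z in 𝓝 (c s), g z < 0 → z ∈ Ω) := by
    intro h s g hg1 hg2
    rcases hg2 with h2 | h2
    · exact h2
    · exfalso
      have hPt : Tendsto (PP c) (𝓝 (s : ℂ)) (𝓝 (c s)) := by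
        have := (hc.strict_PP s).continuousAt.tendsto
        rwa [hc.PP_real] at this
      have h3 : ∀ᶠ w in 𝓝 (s : ℂ), w.im < 0 → PP c w ∉ closure Ω := by
        filter_upwards [hg1, hPt.eventually h2] with w h3 h4 h5
        exact h4 (h3 ▸ h5)
      obtain ⟨δ, ⟨h4, h5⟩, h6⟩ := (((h s).and ((tendsto_down s).eventually h3)).and
        self_mem_nhdsWithin).exists
      exact (h5 (by simpa using h6)) (subset_closure h4)
  rcases hR with hR | hR
  · rcases hL with hL | hL
    · -- both sides inside: the closure is open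
      exfalso
      have hop : IsOpen (closure Ω) := by
        rw [isOpen_iff_mem_nhds]
        intro z hz
        by_cases hzΩ : z ∈ Ω
        · exact mem_of_superset (hΩ.mem_nhds hzΩ) subset_closure
        · have hzf : z ∈ frontier Ω := by rw [hΩ.frontier_eq]; exact ⟨hz, hzΩ⟩
          rw [hfr] at hzf
          obtain ⟨s, rfl⟩ := hzf
          obtain ⟨g, -, -, hg1, hg0, hg2, hg3⟩ := hc.local_side hΩ hfr s
          have h1 := LI hL s g hg1 hg2
          have h2 := RI hR s g hg1 hg3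
          filter_upwards [h1, h2, hg0] with w k1 k2 k3
          rcases lt_trichotomy (g w) 0 with k | k | k
          · exact subset_closure (k2 k)
          · have : w ∈ frontier Ω := by rw [hfr]; exact k3.mpr k
            exact frontier_subset_closure this
          · exact subset_closure (k1 k)
      have hne : (closure Ω).Nonempty := by
        have : c 0 ∈ frontier Ω := by rw [hfr]; exact ⟨0, rfl⟩
        exact ⟨c 0, frontier_subset_closure this⟩
      have huniv : closure Ω = Set.univ := IsClopen.eq_univ ⟨isClosed_closure, hop⟩ hne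
      have hb2 : Bornology.IsBounded (closure Ω) := hb.closure
      rw [huniv] at hb2
      exact NormedSpace.unbounded_univ ℝ ℂ hb2
    · right
      intro s v hv
      obtain ⟨g, hgd, hgz, hg1, hg0, hg2, hg3⟩ := hc.local_side hΩ hfr s
      have h1 := LO hL s g hg1 hg2
      have h2 := hdir s v g hgd
      have h3 : 0 < (conj (deriv c s) * v).im / Complex.normSq (deriv c s) := div_pos hv (hpos s)
      have h4 : ∀ᶠ ε : ℝ in 𝓝[>] 0, 0 < g (c s + ε * v) := by
        have h5 := (hasDerivWithinAt_iff_tendsto_slope' (s := Set.Ioi (0:ℝ)) (by simp)).mp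
          h2.hasDerivWithinAt
        have h6 := h5.eventually_const_lt h3
        filter_upwards [h6, self_mem_nhdsWithin] with ε k1 k2
        rw [slope_def_field, sub_zero] at k1
        have k3 : (0:ℝ) < ε := k2
        have k4 : g (c s + (0:ℝ) * v) = 0 := by simpa using hgz
        rw [k4, sub_zero] at k1
        have := mul_pos k1 k3
        rwa [div_mul_cancel₀ _ k3.ne'] at this
      filter_upwards [h4, (htend s v).eventually h1] with ε k1 k2
      exact k2 k1
  · rcases hL with hL | hL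
    · left
      intro s v hv
      obtain ⟨g, hgd, hgz, hg1, hg0, hg2, hg3⟩ := hc.local_side hΩ hfr s
      have h1 := RO hR s g hg1 hg3
      have h2 := hdir s v g hgd
      have h3 : (conj (deriv c s) * v).im / Complex.normSq (deriv c s) < 0 :=
        div_neg_of_neg_of_pos hv (hpos s)
      have h4 : ∀ᶠ ε : ℝ in 𝓝[>] 0, g (c s + ε * v) < 0 := by
        have h5 := (hasDerivWithinAt_iff_tendsto_slope' (s := Set.Ioi (0:ℝ)) (by simp)).mp
          h2.hasDerivWithinAt
        have h6 := h5.eventually_lt_const h3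
        filter_upwards [h6, self_mem_nhdsWithin] with ε k1 k2
        rw [slope_def_field, sub_zero] at k1
        have k3 : (0:ℝ) < ε := k2
        have k4 : g (c s + (0:ℝ) * v) = 0 := by simpa using hgz
        rw [k4, sub_zero] at k1
        have := mul_neg_of_neg_of_pos k1 k3
        rwa [div_mul_cancel₀ _ k3.ne'] at this
      filter_upwards [h4, (htend s v).eventually h1] with ε k1 k2
      exact k2 k1
    · exfalso
      obtain ⟨g, hgd, hgz, hg1, hg0, hg2, hg3⟩ := hc.local_side hΩ hfr 0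
      have h1 := LO hL 0 g hg1 hg2
      have h2 := RO hR 0 g hg1 hg3
      have h3 : ∃ᶠ z in 𝓝 (c 0), z ∈ Ω := by
        rw [← mem_closure_iff_frequently]
        apply frontier_subset_closure
        rw [hfr]
        exact ⟨0, rfl⟩
      obtain ⟨z, k0, k1, k2, k3⟩ := (h3.and_eventually (h1.and (h2.and hg0))).exists
      rcases lt_trichotomy (g z) 0 with k | k | k
      · exact k2 k (subset_closure k0)
      · have h5 : z ∈ frontier Ω := by rw [hfr]; exact k3.mpr k
        rw [hΩ.frontier_eq] at h5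
        exact h5.2 k0
      · exact k1 k (subset_closure k0)

end

end Pool.Agent.Lib.MP3080d1
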