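import Pool.Agent.Lib.MP_3080d1_gt.Good
import Pool.Agent.Lib.MP_3080d1_gt.Side

set_option autoImplicit false

namespace Pool.Agent.Lib.MP3080d1

open Complex ComplexConjugate Filter Topology

/-- standing hypotheses: the curve bounds `Ω`, which lies to its left. -/
structure Std (c : ℝ → ℂ) (T : ℝ) (Ω : Set ℂ) : Prop where
  crv : Crv c T
  op : IsOpen Ω
  bd : Bornology.IsBounded Ω
  fr : frontier Ω = Set.range c
  right : ∀ s v, (conj (deriv c s) * v).im < 0 → ∀ᶠ ε : ℝ in 𝓝[>] 0, c s + ε * v ∉ closure Ω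

/-- the boundary points seen from `x`. -/
def Vis (c : ℝ → ℂ) (Ω : Set ℂ) (x : ℂ) : Set ℝ :=
  {s | ∀ τ : ℝ, 0 < τ → τ < 1 → x + τ * (c s - x) ∈ Ω}

section

variable {c : ℝ → ℂ} {T : ℝ} {Ω : Set ℂ} {x y : ℂ}

theorem Std.range_not (h : Std c T Ω) {z : ℂ} (hz : z ∈ Ω) : z ∉ Set.range c := by
  intro h1
  rw [← h.fr, h.op.frontier_eq] at h1
  exact h1.2 hz

theorem Std.cont_not (h : Std c T Ω) (s : ℝ) : c s ∉ Ω := fun h1 => h.range_not h1 ⟨s, rfl⟩

theorem Std.mem_closure (h : Std c T Ω) (s : ℝ) : c s ∈ closure Ω := by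
  apply frontier_subset_closure
  rw [h.fr]
  exact ⟨s, rfl⟩

theorem Std.vis_of_avoid (h : Std c T Ω) (hx : x ∈ Ω) {s : ℝ}
    (ha : ∀ τ : ℝ, 0 < τ → τ < 1 → x + τ * (c s - x) ∉ Set.range c) : s ∈ Vis c Ω x := by
  let S : Set ℂ := (fun τ : ℝ => x + τ * (c s - x)) '' Set.Ico 0 1
  have hS : IsPreconnected S := isPreconnected_Ico.image _ (by fun_prop)
  have hxS : x ∈ S := ⟨0, ⟨le_refl _, one_pos⟩, by simp⟩
  have hd : ∀ z ∈ S, z ∉ frontier Ω := by
    rintro z ⟨τ, ⟨h0, h1⟩, rfl⟩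
    rw [h.fr]
    rcases h0.eq_or_lt with h2 | h2
    · simp only [← h2, Complex.ofReal_zero, zero_mul, add_zero]
      exact h.range_not hx
    · exact ha τ h2 h1
  rcases preconn_dichotomy hS h.op hd with h2 | h2
  · intro τ h3 h4
    exact h2 ⟨τ, ⟨h3.le, h4⟩, rfl⟩
  · exact absurd (subset_closure hx) (h2 hxS)

theorem Std.sub_eq (h : Std c T Ω) (hx : x ∈ Ω) (s : ℝ) :
    c s - x = (rho c x s : ℂ) * uu c x s := by
  have := h.crv.eq_add (h.range_not hx) s
  linear_combination this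

/-- a boundary point joined to `x` inside the closed region is not crossed outwards. -/
theorem Std.nn_of_closure (h : Std c T Ω) (hx : x ∈ Ω) {s : ℝ}
    (hs : ∀ τ : ℝ, 0 < τ → τ < 1 → x + τ * (c s - x) ∈ closure Ω) : nn c x s ≤ 0 := by
  by_contra hcon
  push Not at hcon
  have hr := h.crv.rho_pos (h.range_not hx) s
  have h1 : (conj (deriv c s) * (- uu c x s)).im < 0 := by
    have : (conj (deriv c s) * uu c x s).im = nn c x s := rfl
    rw [mul_neg, Complex.neg_im, this]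
    linarith
  have h2 := h.right s _ h1
  have h3 : ∀ᶠ ε : ℝ in 𝓝[>] 0, ε < rho c x s :=
    mem_of_superset (Ioo_mem_nhdsGT hr) fun ε hε => hε.2
  obtain ⟨ε, ⟨h4, h5⟩, h6⟩ := ((h2.and h3).and self_mem_nhdsWithin).exists
  apply h4
  have h7 : (0 : ℝ) < ε := h6
  have h8 := hs (1 - ε / rho c x s) (by
    rw [sub_pos, div_lt_one hr]; exact h5) (by
    rw [sub_lt_self_iff]; exact div_pos h7 hr)
  have h9 : x + ((1 - ε / rho c x s : ℝ) : ℂ) * (c s - x) = c s + ε * (- uu c x s) := by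
    have hr' : ((rho c x s : ℝ) : ℂ) ≠ 0 := by exact_mod_cast hr.ne'
    have h10 := h.sub_eq hx s
    have h11 : c s = x + (rho c x s : ℂ) * uu c x s := by linear_combination h10
    rw [h10]
    rw [h11]
    push_cast
    field_simp
    ring
  rwa [h9] at h8

theorem Std.vis_nn (h : Std c T Ω) (hx : x ∈ Ω) {s : ℝ} (hs : s ∈ Vis c Ω x) :
    nn c x s ≤ 0 :=
  h.nn_of_closure hx fun τ h1 h2 => subset_closure (hs τ h1 h2)

/-- obstruction points lie on the same ray. -/
theorem Std.obstruct (h : Std c T Ω) (hx : x ∈ Ω) {s σ τ : ℝ} (hτ : 0 < τ)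
    (ho : c σ = x + τ * (c s - x)) : uu c x σ = uu c x s ∧ rho c x σ = τ * rho c x s := by
  have h1 : c σ - x = τ * (c s - x) := by rw [ho]; ring
  have h2 : rho c x σ = τ * rho c x s := by
    unfold rho
    rw [h1, norm_mul, Complex.norm_real, Real.norm_of_nonneg hτ.le]
  refine ⟨?_, h2⟩
  have hr := h.crv.rho_pos (h.range_not hx) s
  have hr' : ((rho c x s : ℝ) : ℂ) ≠ 0 := by exact_mod_cast hr.ne'
  have hτ' : (τ : ℂ) ≠ 0 := by exact_mod_cast hτ.ne'
  unfold uu
  rw [h2, h1]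
  push_cast
  field_simp

theorem Std.vis_unique (h : Std c T Ω) (hx : x ∈ Ω) {s s' : ℝ} (hs : s ∈ Vis c Ω x)
    (hs' : s' ∈ Vis c Ω x) (hu : uu c x s = uu c x s') : c s = c s' := by
  have key : ∀ a b : ℝ, b ∈ Vis c Ω x → uu c x a = uu c x b → ¬ rho c x a < rho c x b := by
    intro a b hb hab hlt
    have hra := h.crv.rho_pos (h.range_not hx) a
    have hrb := h.crv.rho_pos (h.range_not hx) b
    apply h.cont_not a
    have h1 := hb (rho c x a / rho c x b) (div_pos hra hrb) (by rwa [div_lt_one hrb])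
    have h2 : x + ((rho c x a / rho c x b : ℝ) : ℂ) * (c b - x) = c a := by
      have hrb' : ((rho c x b : ℝ) : ℂ) ≠ 0 := by exact_mod_cast hrb.ne'
      have e1 := h.sub_eq hx a
      have e2 := h.sub_eq hx b
      rw [e2, ← hab]
      push_cast
      field_simp
      linear_combination -e1
    rwa [h2] at h1
  have h1 : rho c x s = rho c x s' :=
    le_antisymm (not_lt.mp (key s' s hs hu.symm)) (not_lt.mp (key s s' hs' hu))
  have e1 := h.sub_eq hx s
  have e2 := h.sub_eq hx s'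
  rw [h1, hu, ← e2] at e1
  linear_combination e1

/-- obstructions to nearby points are near. -/
theorem Std.obstruct_near (h : Std c T Ω) (hx : x ∈ Ω) {s₀ : ℝ} (hs : s₀ ∈ Vis c Ω x)
    {ε : ℝ} (hε : 0 < ε) :
    ∀ᶠ s in 𝓝 s₀, ∀ τ : ℝ, 0 < τ → τ < 1 → ∀ σ, c σ = x + τ * (c s - x) →
      ∃ m : ℤ, |σ + m * T - s₀| < ε := by
  have hW := h.crv.prox s₀ hε
  have h1 : ∀ τ ∈ Set.Icc (0:ℝ) 1, ∀ᶠ p : ℝ × ℝ in 𝓝 (s₀, τ),
      ∀ σ, c σ = x + p.2 * (c p.1 - x) → ∃ m : ℤ, |σ + m * T - s₀| < ε := by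
    intro τ hτ
    have hcont : Continuous (fun p : ℝ × ℝ => x + (p.2 : ℂ) * (c p.1 - x)) := by
      have := h.crv.cont
      fun_prop
    rcases hτ.2.eq_or_lt with h1 | h1
    · have h2 : Tendsto (fun p : ℝ × ℝ => x + (p.2 : ℂ) * (c p.1 - x)) (𝓝 (s₀, τ))
          (𝓝 (c s₀)) := hcont.tendsto' _ _ (by simp [h1])
      exact h2.eventually hW
    · have h3 : x + (τ : ℂ) * (c s₀ - x) ∈ Ω := by
        rcases hτ.1.eq_or_lt with h2 | h2
        · simpa [← h2] using hx
        · exact hs τ h2 h1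
      have h4 : ∀ᶠ p : ℝ × ℝ in 𝓝 (s₀, τ), x + (p.2 : ℂ) * (c p.1 - x) ∈ Ω :=
        (hcont.tendsto (s₀, τ)).eventually (h.op.mem_nhds h3)
      filter_upwards [h4] with p hp σ hσ
      exact absurd (hσ ▸ hp) (h.cont_not σ)
  have h2 := isCompact_Icc.eventually_forall_of_forall_eventually
    (P := fun (s τ : ℝ) => ∀ σ, c σ = x + (τ : ℂ) * (c s - x) →
      ∃ m : ℤ, |σ + m * T - s₀| < ε) h1
  filter_upwards [h2] with s hs τ h3 h4 σ hσ
  exact hs τ ⟨h3.le, h4.le⟩ σ hσ

theorem inj_near {w : ℝ → ℝ} {s₀ : ℝ} (hw : AnalyticAt ℝ w s₀) (h : deriv w s₀ ≠ 0) :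
    ∃ ε > 0, ∀ a b, |a - s₀| < ε → |b - s₀| < ε → w a = w b → a = b := by
  have hleft : ∀ᶠ t in 𝓝 s₀, hw.hasStrictDerivAt.localInverse _ _ _ h (w t) = t :=
    HasStrictFDerivAt.eventually_left_inverse (hw.hasStrictDerivAt.hasStrictFDerivAt_equiv h)
  obtain ⟨ε, hε, hball⟩ := Metric.eventually_nhds_iff_ball.mp hleft
  refine ⟨ε, hε, fun a b ha hb hab => ?_⟩
  have h1 := hball a (by rw [Metric.mem_ball, Real.dist_eq]; exact ha)
  have h2 := hball b (by rw [Metric.mem_ball, Real.dist_eq]; exact hb)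
  rw [← h1, ← h2, hab]

/-- sine of the angle of the ray relative to a reference direction. -/
noncomputable def ww (c : ℝ → ℂ) (x : ℂ) (s₀ s : ℝ) : ℝ := (conj (uu c x s₀) * uu c x s).im

theorem Crv.hd_ww (hc : Crv c T) (hx : x ∉ Set.range c) (s₀ s : ℝ) :
    HasDerivAt (ww c x s₀) (-(nn c x s / rho c x s) * (conj (uu c x s₀) * uu c x s).re) s := by
  have h1 := (hc.hd_uu hx s).const_mul (conj (uu c x s₀))
  have h2 := (Complex.imCLM.hasFDerivAt
    (x := conj (uu c x s₀) * uu c x s)).comp_hasDerivAt s h1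
  refine h2.congr_deriv ?_
  have : conj (uu c x s₀) * (-(I * (nn c x s / rho c x s : ℝ)) * uu c x s) =
      -((nn c x s / rho c x s : ℝ) : ℂ) * (I * (conj (uu c x s₀) * uu c x s)) := by ring
  rw [this, Complex.imCLM_apply, ← Complex.ofReal_neg, Complex.im_ofReal_mul, Complex.I_mul_im]

theorem Crv.an_ww (hc : Crv c T) (hx : x ∉ Set.range c) (s₀ s : ℝ) :
    AnalyticAt ℝ (ww c x s₀) s :=
  analyticAt_im_comp (analyticAt_const.mul (hc.an_uu hx s))

/-- openness of the visible set at transversal points. -/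
theorem Std.vis_open (h : Std c T Ω) (hx : x ∈ Ω) {s₀ : ℝ} (hs : s₀ ∈ Vis c Ω x)
    (hn : nn c x s₀ ≠ 0) : ∀ᶠ s in 𝓝 s₀, s ∈ Vis c Ω x := by
  have hc := h.crv
  have hx' := h.range_not hx
  have hd : deriv (ww c x s₀) s₀ ≠ 0 := by
    rw [(hc.hd_ww hx' s₀ s₀).deriv, hc.conj_mul_self_uu hx', Complex.one_re, mul_one]
    exact neg_ne_zero.mpr (div_ne_zero hn (hc.rho_pos hx' s₀).ne')
  obtain ⟨ε, hε, hinj⟩ := inj_near (hc.an_ww hx' s₀ s₀) hd
  have h1 := h.obstruct_near hx hs hε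
  have h2 : ∀ᶠ s in 𝓝 s₀, |s - s₀| < ε := by
    filter_upwards [Metric.ball_mem_nhds s₀ hε] with s hs
    rwa [Metric.mem_ball, Real.dist_eq] at hs
  filter_upwards [h1, h2] with s h3 h4
  apply h.vis_of_avoid hx
  rintro τ h5 h6 ⟨σ, hσ⟩
  obtain ⟨m, hm⟩ := h3 τ h5 h6 σ hσ
  obtain ⟨h7, h8⟩ := h.obstruct hx h5 hσ
  have h9 : uu c x (σ + m * T) = uu c x σ := (hc.pu x).int_mul m σ
  have h10 : rho c x (σ + m * T) = rho c x σ := (hc.prho x).int_mul m σ
  have h11 : σ + m * T = s := by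
    apply hinj _ _ hm h4
    unfold ww
    rw [h9, h7]
  rw [h11, h8] at h10
  have hr := hc.rho_pos hx' s
  have : (1 - τ) * rho c x s = 0 := by linarith
  rcases mul_eq_zero.mp this with h12 | h12
  · linarith
  · linarith

/-- near side of a tangency: it is visible. -/
theorem Std.near_side (h : Std c T Ω) (hx : x ∈ Ω) {s₀ : ℝ} (hs : s₀ ∈ Vis c Ω x)
    (hn : nn c x s₀ = 0) : ∀ᶠ s in 𝓝 s₀, (s - s₀) * chi c x s₀ < 0 → s ∈ Vis c Ω x := by
  have hc := h.crv
  have hx' := h.range_not hx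
  have hchi := hc.chi_ne_of_nn hx' hn
  have h1 : ∀ᶠ s in 𝓝 s₀, 0 < chi c x s * chi c x s₀ := by
    have : ContinuousAt (fun s => chi c x s * chi c x s₀) s₀ :=
      (hc.an_chi hx' s₀).continuousAt.mul continuousAt_const
    exact this.eventually_const_lt (mul_self_pos.mpr hchi)
  have h2 : ∀ᶠ s in 𝓝[≠] s₀, nn c x s ≠ 0 := by
    rcases (hc.an_nn hx' s₀).eventually_eq_zero_or_eventually_ne_zero with h3 | h3
    · exact absurd h3 (hc.nn_not_zero hx' s₀)
    · exact h3
  rw [eventually_nhdsWithin_iff] at h2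
  have h3 : ∀ᶠ s in 𝓝 s₀, 0 < (conj (uu c x s₀) * uu c x s).re := by
    have : ContinuousAt (fun s => (conj (uu c x s₀) * uu c x s).re) s₀ :=
      (analyticAt_re_comp (analyticAt_const.mul (hc.an_uu hx' s₀))).continuousAt
    refine this.eventually_const_lt ?_
    simp only [hc.conj_mul_self_uu hx', Complex.one_re]
    exact one_pos
  obtain ⟨ε, hε, hball⟩ := Metric.eventually_nhds_iff_ball.mp (h1.and (h2.and h3))
  have hball' : ∀ s, |s - s₀| < ε → 0 < chi c x s * chi c x s₀ ∧ (s ≠ s₀ → nn c x s ≠ 0) ∧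
      0 < (conj (uu c x s₀) * uu c x s).re := fun s hs =>
    hball s (by rw [Metric.mem_ball, Real.dist_eq]; exact hs)
  have hbetween : ∀ a b ξ : ℝ, |a - s₀| < ε → |b - s₀| < ε → a ≤ ξ → ξ ≤ b → |ξ - s₀| < ε := by
    intro a b ξ ha hb h4 h5
    rw [abs_lt] at *
    constructor <;> linarith
  -- monotonicity of the distance
  have hmono : ∀ a b, |a - s₀| < ε → |b - s₀| < ε → rho c x a < rho c x b →
      (a - b) * chi c x s₀ < 0 := by
    intro a b ha hb hab
    rcases lt_trichotomy a b with h4 | h4 | h4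
    · obtain ⟨ξ, hξ, hξ'⟩ := exists_hasDerivAt_eq_slope (rho c x) (chi c x) h4
        (fun s _ => (hc.hd_rho hx' s).continuousAt.continuousWithinAt)
        (fun s _ => hc.hd_rho hx' s)
      have h5 := (hball' ξ (hbetween a b ξ ha hb hξ.1.le hξ.2.le)).1
      rw [eq_div_iff (sub_pos.mpr h4).ne'] at hξ'
      have h6 : 0 < chi c x ξ := by
        by_contra hneg
        push Not at hneg
        nlinarith
      have h7 : 0 < chi c x s₀ := (pos_iff_pos_of_mul_pos h5).mp h6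
      nlinarith
    · subst h4; exact absurd hab (lt_irrefl _)
    · obtain ⟨ξ, hξ, hξ'⟩ := exists_hasDerivAt_eq_slope (rho c x) (chi c x) h4
        (fun s _ => (hc.hd_rho hx' s).continuousAt.continuousWithinAt)
        (fun s _ => hc.hd_rho hx' s)
      have h5 := (hball' ξ (hbetween b a ξ hb ha hξ.1.le hξ.2.le)).1
      rw [eq_div_iff (sub_pos.mpr h4).ne'] at hξ'
      have h6 : chi c x ξ < 0 := by
        by_contra hneg
        push Not at hneg
        nlinarith
      have h7 : chi c x s₀ < 0 := (neg_iff_neg_of_mul_pos h5).mp h6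
      nlinarith
  -- injectivity of the direction on each side
  have hinj : ∀ a b, a < b → |a - s₀| < ε → |b - s₀| < ε → 0 < (a - s₀) * (b - s₀) →
      uu c x a = uu c x b → False := by
    intro a b hab ha hb hside hu
    obtain ⟨ξ, hξ, hξ'⟩ := exists_hasDerivAt_eq_zero (f := ww c x s₀)
      (f' := fun s => -(nn c x s / rho c x s) * (conj (uu c x s₀) * uu c x s).re) hab
      (fun s _ => (hc.hd_ww hx' s₀ s).continuousAt.continuousWithinAt)
      (by unfold ww; rw [hu])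
      (fun s _ => hc.hd_ww hx' s₀ s)
    obtain ⟨-, h5, h6⟩ := hball' ξ (hbetween a b ξ ha hb hξ.1.le hξ.2.le)
    have hne : ξ ≠ s₀ := by
      rintro rfl
      have h7 := hξ.1
      have h8 := hξ.2
      nlinarith
    have h7 := h5 hne
    have hr := hc.rho_pos hx' ξ
    rcases mul_eq_zero.mp hξ' with h8 | h8
    · rw [neg_eq_zero, div_eq_zero_iff] at h8
      rcases h8 with h8 | h8
      · exact h7 h8
      · exact hr.ne' h8
    · exact h6.ne' h8
  have h4 := h.obstruct_near hx hs hε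
  have h5 : ∀ᶠ s in 𝓝 s₀, |s - s₀| < ε := by
    filter_upwards [Metric.ball_mem_nhds s₀ hε] with s hs
    rwa [Metric.mem_ball, Real.dist_eq] at hs
  filter_upwards [h4, h5] with s h6 h7 hside
  apply h.vis_of_avoid hx
  rintro τ h8 h9 ⟨σ', hσ⟩
  obtain ⟨m, hm⟩ := h6 τ h8 h9 σ' hσ
  obtain ⟨h10, h11⟩ := h.obstruct hx h8 hσ
  have h12 : uu c x (σ' + m * T) = uu c x σ' := (hc.pu x).int_mul m σ'
  have h13 : rho c x (σ' + m * T) = rho c x σ' := (hc.prho x).int_mul m σ'
  set σ := σ' + m * T with hσdef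
  have hr := hc.rho_pos hx' s
  have h14 : rho c x σ < rho c x s := by
    rw [h13, h11]; nlinarith
  have h15 := hmono σ s hm h7 h14
  have h16 : uu c x σ = uu c x s := by rw [h12, h10]
  -- both on the near side
  have h17 : (σ - s₀) * chi c x s₀ < 0 := by nlinarith
  have h18 : 0 < (σ - s₀) * (s - s₀) := by
    rcases lt_or_gt_of_ne hchi with h19 | h19
    · have a1 : 0 < σ - s₀ := by
        by_contra hneg; push Not at hneg; nlinarith
      have a2 : 0 < s - s₀ := by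
        by_contra hneg; push Not at hneg; nlinarith
      exact mul_pos a1 a2
    · have a1 : σ - s₀ < 0 := by
        by_contra hneg; push Not at hneg; nlinarith
      have a2 : s - s₀ < 0 := by
        by_contra hneg; push Not at hneg; nlinarith
      exact mul_pos_of_neg_of_neg a1 a2
  rcases lt_trichotomy σ s with h19 | h19 | h19
  · exact hinj σ s h19 hm h7 h18 h16
  · rw [h19] at h14; exact lt_irrefl _ h14
  · exact hinj s σ h19 h7 hm (by rw [mul_comm]; exact h18) h16.symm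

end

end Pool.Agent.Lib.MP3080d1
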